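-- Proof of the frozen statement S00401 (the theorem Pool.MP_b723a0_ag.main).
import Pool.Statements.S00401
import Pool.Agent.W_MP_b723a0_ag.P.Final

set_option autoImplicit false
open Pool Pool.MP_b723a0_ag

namespace Pool.Agent.S00401

/-- Over any finite extension K of Q_p, a nonzero degree-d (d≥1) form in n+1 variables with n ≥ d² has, for every prime ℓ, a nontrivial zero in some finite extension of K whose degree is prime to ℓ; that is, the hypersurface has index 1. -/
theorem result :
  ∀ (p : ℕ) [Fact p.Prime] (K : Type) [Field K] [Algebra (Padic p) K]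
    [FiniteDimensional (Padic p) K]
    (n d : ℕ) (f : MvPolynomial (Fin (n + 1)) K),
    1 ≤ d → d ^ 2 ≤ n → f ≠ 0 → f.IsHomogeneous d →
    ∀ ℓ : ℕ, ℓ.Prime →
      ∃ (L : Type) (_ : Field L) (_ : Algebra K L),
        FiniteDimensional K L ∧ ¬ ℓ ∣ Module.finrank K L ∧
        ∃ x : Fin (n + 1) → L, x ≠ 0 ∧ MvPolynomial.aeval x f = 0 := by
  intro p _ K _ _ _ n d f hd hn hf0 hf ℓ hℓ
  exact Pool.Agent.W_MP_b723a0_ag.P.final p K n d f hd hn hf0 hf ℓ hℓ

end Pool.Agent.S00401
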