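import Pool.Statements.S00447
import Pool.Agent.W_cbb711b.Final

set_option autoImplicit false
open Pool Pool.MP_cbb711_ag

namespace Pool.Agent.S00447

/-- For a complete Noetherian local Cohen–Macaulay ring R whose localizations at primes of height at most 2 are regular, only finitely many isomorphism classes of nonzero reflexive ideals of R are maximal Cohen–Macaulay modules. -/
theorem result :
    ∀ (R : Type) [CommRing R] [IsLocalRing R] [IsNoetherianRing R],
      IsAdicComplete (IsLocalRing.maximalIdeal R) R →
      (∃ rs : List R, (∀ r ∈ rs, r ∈ IsLocalRing.maximalIdeal R) ∧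
          RingTheory.Sequence.IsRegular R rs ∧
          (rs.length : WithBot ℕ∞) = ringKrullDim R) →
      (∀ (p : Ideal R) [p.IsPrime], p.height ≤ 2 →
          ∃ s : Finset (Localization.AtPrime p),
            Ideal.span (s : Set (Localization.AtPrime p)) =
                IsLocalRing.maximalIdeal (Localization.AtPrime p) ∧
              (s.card : WithBot ℕ∞) ≤ ringKrullDim (Localization.AtPrime p)) →
      ∃ (n : ℕ) (J : Fin n → Ideal R),
        ∀ I : Ideal R, I ≠ ⊥ →
          Function.Bijective (Module.Dual.eval R ↥I) →
          (∃ rs : List R, (∀ r ∈ rs, r ∈ IsLocalRing.maximalIdeal R) ∧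
              RingTheory.Sequence.IsRegular (↥I) rs ∧
              (rs.length : WithBot ℕ∞) = ringKrullDim R) →
          ∃ j : Fin n, Nonempty (↥I ≃ₗ[R] ↥(J j)) := by
  intro R _ _ _ hR hCM h2
  obtain ⟨n, J, hJ⟩ := Pool.Agent.W_cbb711.Final.finite_classes R hR hCM h2
  exact ⟨n, J, fun I hI _ hI2 => hJ I hI hI2⟩

end Pool.Agent.S00447
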