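import Pool.Statements.S00843
import Pool.Agent.CTIso.Main

set_option autoImplicit false
open Pool Pool.MP_1a7a01_al

namespace Pool.Agent.S00843

/-- For any two distinct sets P, Q of odd primes, the permutation group of ℤ generated by class transpositions with moduli having prime factors only in P∪{2} is not isomorphic to the corresponding group for Q. -/
theorem result :
    ∀ P Q : Set ℕ, (∀ p ∈ P, Nat.Prime p ∧ p ≠ 2) → (∀ q ∈ Q, Nat.Prime q ∧ q ≠ 2) → P ≠ Q →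
      IsEmpty
        (↥(Subgroup.closure {σ : Equiv.Perm ℤ | ∃ m1 m2 r1 r2 : ℤ,
            0 < m1 ∧ 0 < m2 ∧ 0 ≤ r1 ∧ r1 < m1 ∧ 0 ≤ r2 ∧ r2 < m2 ∧
            ¬ ((Int.gcd m1 m2 : ℤ) ∣ (r1 - r2)) ∧
            (∀ p : ℕ, Nat.Prime p → (p : ℤ) ∣ m1 * m2 → p = 2 ∨ p ∈ P) ∧
            ∀ n : ℤ, σ n =
              (if m1 ∣ n - r1 then r2 + (n - r1) / m1 * m2
               else if m2 ∣ n - r2 then r1 + (n - r2) / m2 * m1
               else n)})
          ≃*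
         ↥(Subgroup.closure {σ : Equiv.Perm ℤ | ∃ m1 m2 r1 r2 : ℤ,
            0 < m1 ∧ 0 < m2 ∧ 0 ≤ r1 ∧ r1 < m1 ∧ 0 ≤ r2 ∧ r2 < m2 ∧
            ¬ ((Int.gcd m1 m2 : ℤ) ∣ (r1 - r2)) ∧
            (∀ p : ℕ, Nat.Prime p → (p : ℤ) ∣ m1 * m2 → p = 2 ∨ p ∈ Q) ∧
            ∀ n : ℤ, σ n =
              (if m1 ∣ n - r1 then r2 + (n - r1) / m1 * m2
               else if m2 ∣ n - r2 then r1 + (n - r2) / m2 * m1
               else n)})) := by
  intro P Q hP hQ hne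
  refine ⟨fun Φ => hne ?_⟩
  exact Pool.Agent.CTIso.main_eq hP hQ Φ

end Pool.Agent.S00843
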