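import Pool.Statements.S00874
import Pool.Agent.W_MP_1d7e2f_al.G

set_option autoImplicit false
open Pool Pool.MP_1d7e2f_al

namespace Pool.Agent.S00874

/-- The negation of the preceding statement: Every nontrivial solvable group with a total order invariant under left and right multiplication has an abelianization G/G' containing an element of infinite order. -/
theorem result :
    ¬ (∀ (G : Type) [Group G] [LinearOrder G] [MulLeftMono G] [MulRightMono G]
      [Nontrivial G], IsSolvable G → ∃ x : Abelianization G, ¬ IsOfFinOrder x) := by
  intro h
  obtain ⟨x, hx⟩ := h Pool.Agent.W_MP_1d7e2f_al.G Pool.Agent.W_MP_1d7e2f_al.G.G_solvable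
  exact hx (Pool.Agent.W_MP_1d7e2f_al.G.isOfFinOrder x)

end Pool.Agent.S00874
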