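import Pool.Statements.S00970
import Pool.Agent.W_24bb3a_h26.Red2
import Pool.Agent.W_24bb3a_h26.Grp2

set_option autoImplicit false
open Pool Pool.MP_24bb3a_al

namespace Pool.Agent.S00970

/-- The negation of the preceding statement: For every finitely generated one-relator group that is residually finite, there is an algorithm deciding whether a finite system of equations (with constants from the generators, variables indexed by naturals) has a solution in the group. -/
theorem result :
    ¬ (∀ (n : ℕ) (r : FreeGroup (Fin n)),
    (∀ g : PresentedGroup ({r} : Set (FreeGroup (Fin n))), g ≠ 1 →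
      ∃ (m : ℕ) (φ : PresentedGroup ({r} : Set (FreeGroup (Fin n))) →* Equiv.Perm (Fin m)),
        φ g ≠ 1) →
    ComputablePred (fun S : List (List ((Fin n ⊕ ℕ) × Bool)) =>
      ∃ f : ℕ → PresentedGroup ({r} : Set (FreeGroup (Fin n))),
        ∀ w ∈ S,
          FreeGroup.lift
            (Sum.elim
              (fun i : Fin n =>
                (PresentedGroup.of i : PresentedGroup ({r} : Set (FreeGroup (Fin n)))))
              f)
            (FreeGroup.mk w) = 1)) := by
  intro h
  exact BS.not_computable (h 2 BS.rel BS.residually_finite)

end Pool.Agent.S00970
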