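import Pool.Statements.S01429
import Pool.Agent.NG5.Assembly
import Pool.Agent.NG5c.Ng.All
import Pool.Agent.NG5c.S41.All
import Pool.Agent.NG5c.As.All
import Pool.Agent.NG5c.Cov.Main

set_option autoImplicit false
open Pool Pool.MP_4f9580_al

namespace Pool.Agent.S01429

/-- Every nearly Gorenstein numerical semigroup with exactly 5 minimal generators has at most 5 pseudo-Frobenius numbers, and if it has exactly 5 then twice its genus equals its Frobenius number plus 5 (it is almost symmetric). -/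
theorem result :
    ∀ S : AddSubmonoid ℕ, ((S : Set ℕ)ᶜ).Finite →
      Set.ncard {n : ℕ | n ∈ S ∧ n ≠ 0 ∧
        ∀ a ∈ S, ∀ b ∈ S, a + b = n → a = 0 ∨ b = 0} = 5 →
      (∀ n ∈ S, n ≠ 0 → (∀ a ∈ S, ∀ b ∈ S, a + b = n → a = 0 ∨ b = 0) →
        ∃ f : ℕ, (f ∉ S ∧ ∀ s ∈ S, s ≠ 0 → f + s ∈ S) ∧
          ∀ f' : ℕ, (f' ∉ S ∧ ∀ s ∈ S, s ≠ 0 → f' + s ∈ S) →
            ∃ k ∈ S, (k : ℤ) = (n : ℤ) + (f : ℤ) - (f' : ℤ)) →
      Set.ncard {f : ℕ | f ∉ S ∧ ∀ s ∈ S, s ≠ 0 → f + s ∈ S} ≤ 5 ∧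
      (Set.ncard {f : ℕ | f ∉ S ∧ ∀ s ∈ S, s ≠ 0 → f + s ∈ S} = 5 →
        2 * Set.ncard ((S : Set ℕ)ᶜ) = sSup ((S : Set ℕ)ᶜ) + 5) := by
  exact Pool.Agent.NG5.assembly
    (Pool.Agent.NG5c.AScore_of _ Pool.Agent.NG5c.covers Pool.Agent.NG5c.as_all)
    Pool.Agent.NG5c.nGcore Pool.Agent.NG5c.s41core

end Pool.Agent.S01429
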