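import Pool.Statements.S01920

/-!
Counterexample: over any field `K` let `V = K³` and `M = Λ⁰V ⊕ Λ¹V ⊕ Λ²V`, where `v ∈ V` acts on
`M` by exterior multiplication and `Λ³V` is identified with `Λ⁰V`.  On `A = V ⊕ M` put
`(v, m) (w, n) = (0, v n - w m)`.  Then `A` is anticommutative.  Three consecutive letters taken
from a two-dimensional subspace of `V` act as `0` on `Λ⁰V`, so that every product of at least `7`
elements taken from two elements of `A` vanishes, whereas `e₁ (e₂ (e₃ 1)) = 1` in `A`.
-/

set_option autoImplicit false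
open Pool Pool.MP_73ecfa_al

namespace Pool.Agent.S01920

section construction

variable (K : Type) [Field K]

/-- Three-dimensional space. -/
abbrev V3 : Type := K × K × K

/-- `Λ⁰ ⊕ Λ¹ ⊕ Λ²` of a three-dimensional space. -/
abbrev Md : Type := K × V3 K × V3 K

variable {K}

/-- The pairing `V ⊗ Λ²V → Λ³V = Λ⁰V`. -/
def dt (a b : V3 K) : K := a.1 * b.1 + a.2.1 * b.2.1 + a.2.2 * b.2.2

/-- The wedge `V ⊗ V → Λ²V` (the cross product). -/
def crs (a b : V3 K) : V3 K :=
  (a.2.1 * b.2.2 - a.2.2 * b.2.1, a.2.2 * b.1 - a.1 * b.2.2, a.1 * b.2.1 - a.2.1 * b.1)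

/-- The action of `V` on `Λ⁰V ⊕ Λ¹V ⊕ Λ²V`. -/
def act (a : V3 K) (m : Md K) : Md K := (dt a m.2.2, m.1 • a, crs a m.2.1)

theorem act_add (a : V3 K) (m n : Md K) : act a (m + n) = act a m + act a n := by
  simp only [act, dt, crs, Prod.ext_iff, Prod.fst_add, Prod.snd_add, Prod.smul_fst, Prod.smul_snd,
    smul_eq_mul]
  refine ⟨?_, ⟨?_, ?_, ?_⟩, ?_, ?_, ?_⟩ <;> ring

theorem add_act (a b : V3 K) (m : Md K) : act (a + b) m = act a m + act b m := by
  simp only [act, dt, crs, Prod.ext_iff, Prod.fst_add, Prod.snd_add, Prod.smul_fst, Prod.smul_snd,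
    smul_eq_mul]
  refine ⟨?_, ⟨?_, ?_, ?_⟩, ?_, ?_, ?_⟩ <;> ring

theorem act_smul (r : K) (a : V3 K) (m : Md K) : act a (r • m) = r • act a m := by
  simp only [act, dt, crs, Prod.ext_iff, Prod.smul_fst, Prod.smul_snd, smul_eq_mul]
  refine ⟨?_, ⟨?_, ?_, ?_⟩, ?_, ?_, ?_⟩ <;> ring

theorem smul_act (r : K) (a : V3 K) (m : Md K) : act (r • a) m = r • act a m := by
  simp only [act, dt, crs, Prod.ext_iff, Prod.smul_fst, Prod.smul_snd, smul_eq_mul]
  refine ⟨?_, ⟨?_, ?_, ?_⟩, ?_, ?_, ?_⟩ <;> ring

theorem act_zero (a : V3 K) : act a (0 : Md K) = 0 := by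
  have := act_smul (0 : K) a (0 : Md K)
  simpa using this

theorem zero_act (m : Md K) : act (0 : V3 K) m = 0 := by
  have := smul_act (0 : K) (0 : V3 K) m
  simpa using this

variable (K) in
/-- The algebra `V ⊕ M`. -/
def Alg : Type := V3 K × Md K

instance : AddCommGroup (Alg K) := inferInstanceAs (AddCommGroup (V3 K × Md K))

instance : Module K (Alg K) := inferInstanceAs (Module K (V3 K × Md K))

/-- The product. -/
def amul (a b : Alg K) : Alg K := ((0 : V3 K), act a.1 b.2 - act b.1 a.2)

instance : Mul (Alg K) := ⟨amul⟩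

omit [Field K] in
theorem alg_ext {a b : Alg K} (h1 : a.1 = b.1) (h2 : a.2 = b.2) : a = b := Prod.ext h1 h2

theorem mul_fst (a b : Alg K) : (a * b).1 = 0 := rfl

theorem mul_snd (a b : Alg K) : (a * b).2 = act a.1 b.2 - act b.1 a.2 := rfl

theorem add_fst (a b : Alg K) : (a + b).1 = a.1 + b.1 := rfl

theorem add_snd (a b : Alg K) : (a + b).2 = a.2 + b.2 := rfl

theorem smul_fst (r : K) (a : Alg K) : (r • a).1 = r • a.1 := rfl

theorem smul_snd (r : K) (a : Alg K) : (r • a).2 = r • a.2 := rfl

theorem zero_fst : (0 : Alg K).1 = 0 := rfl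

theorem zero_snd : (0 : Alg K).2 = 0 := rfl

instance : NonUnitalNonAssocRing (Alg K) :=
  { (inferInstance : AddCommGroup (Alg K)), (inferInstance : Mul (Alg K)) with
    left_distrib := fun a b c => by
      apply alg_ext
      · simp only [mul_fst, add_fst, add_zero]
      · simp only [mul_snd, add_snd, add_fst, act_add, add_act]
        abel
    right_distrib := fun a b c => by
      apply alg_ext
      · simp only [mul_fst, add_fst, add_zero]
      · simp only [mul_snd, add_snd, add_fst, act_add, add_act]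
        abel
    zero_mul := fun a => by
      apply alg_ext
      · simp only [mul_fst, zero_fst]
      · simp only [mul_snd, zero_fst, zero_snd, act_zero, zero_act, sub_zero]
    mul_zero := fun a => by
      apply alg_ext
      · simp only [mul_fst, zero_fst]
      · simp only [mul_snd, zero_fst, zero_snd, act_zero, zero_act, sub_zero] }

instance : IsScalarTower K (Alg K) (Alg K) :=
  ⟨fun r a b => by
    apply alg_ext
    · simp only [smul_eq_mul, mul_fst, smul_fst, smul_zero]
    · simp only [smul_eq_mul, mul_snd, smul_fst, smul_snd, act_smul, smul_act, smul_sub]⟩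

instance : SMulCommClass K (Alg K) (Alg K) :=
  ⟨fun r a b => by
    apply alg_ext
    · simp only [smul_eq_mul, mul_fst, smul_fst, smul_zero]
    · simp only [smul_eq_mul, mul_snd, smul_fst, smul_snd, act_smul, smul_act, smul_sub]⟩

theorem alg_sq (a : Alg K) : a * a = 0 := by
  apply alg_ext
  · rfl
  · simp only [mul_snd, sub_self]
    rfl

/-- `Kill a b j m`: every word of `j` letters `a, b` kills `m`. -/
def Kill (a b : V3 K) : ℕ → Md K → Prop
  | 0, m => m = 0
  | j + 1, m => Kill a b j (act a m) ∧ Kill a b j (act b m)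

theorem kill_zero (a b : V3 K) (j : ℕ) : Kill a b j 0 := by
  induction j with
  | zero => rfl
  | succ j ih => exact ⟨by rw [act_zero]; exact ih, by rw [act_zero]; exact ih⟩

theorem kill_neg (a b : V3 K) (j : ℕ) (m : Md K) (h : Kill a b j m) : Kill a b j (-m) := by
  induction j generalizing m with
  | zero =>
    change -m = 0
    change m = 0 at h
    rw [h, neg_zero]
  | succ j ih =>
    have hn : ∀ c : V3 K, act c (-m) = - act c m := fun c => by
      have := act_smul (-1 : K) c m
      simpa using this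
    exact ⟨by rw [hn]; exact ih _ h.1, by rw [hn]; exact ih _ h.2⟩

theorem kill_five (a b : V3 K) (m : Md K) : Kill a b 5 m := by
  simp only [Kill, act, dt, crs, Prod.ext_iff, Prod.smul_fst, Prod.smul_snd, smul_eq_mul,
    Prod.fst_zero, Prod.snd_zero]
  refine ⟨⟨⟨⟨⟨?_, ?_⟩, ?_, ?_⟩, ⟨?_, ?_⟩, ?_, ?_⟩, ⟨⟨?_, ?_⟩, ?_, ?_⟩, ⟨?_, ?_⟩, ?_, ?_⟩,
    ⟨⟨⟨?_, ?_⟩, ?_, ?_⟩, ⟨?_, ?_⟩, ?_, ?_⟩, ⟨⟨?_, ?_⟩, ?_, ?_⟩, ⟨?_, ?_⟩, ?_, ?_⟩ <;>
  refine ⟨?_, ⟨?_, ?_, ?_⟩, ?_, ?_, ?_⟩ <;> ring

/-- A word with at least two letters has no component in `V`. -/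
theorem lift_fst {α : Type} (x : α → Alg K) (w : FreeMagma α) (h : 2 ≤ w.length) :
    (FreeMagma.lift x w).1 = 0 := by
  induction w with
  | ih1 i => exact absurd h (by simp [FreeMagma.length])
  | ih2 u v _ _ =>
    rw [map_mul]
    rfl

theorem lift_kill (x : Fin 2 → Alg K) (j : ℕ) (hj : j ≤ 5) (w : FreeMagma (Fin 2))
    (h : 2 + j ≤ w.length) : Kill (x 0).1 (x 1).1 (5 - j) (FreeMagma.lift x w).2 := by
  induction j generalizing w with
  | zero => exact kill_five _ _ _
  | succ j ih =>
    induction w with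
    | ih1 i =>
      have h1 : (FreeMagma.of i).length = 1 := rfl
      omega
    | ih2 u v _ _ =>
      have hl : (u * v).length = u.length + v.length := rfl
      have hu := u.length_pos
      have hv := v.length_pos
      have hk : 5 - j = (5 - (j + 1)) + 1 := by omega
      have key : ∀ i : Fin 2, ∀ z : FreeMagma (Fin 2), 2 + j ≤ z.length →
          Kill (x 0).1 (x 1).1 (5 - (j + 1)) (act (x i).1 (FreeMagma.lift x z).2) := by
        intro i z hz
        have h1 := ih (by omega) z hz
        rw [hk] at h1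
        obtain ⟨h2, h3⟩ := h1
        fin_cases i
        · exact h2
        · exact h3
      rw [map_mul, mul_snd]
      rcases Nat.lt_or_ge u.length 2 with hu2 | hu2
      · -- `u` is a letter
        have hv2 : 2 + j ≤ v.length := by omega
        rw [lift_fst x v (by omega), zero_act, sub_zero]
        induction u with
        | ih1 i =>
          rw [FreeMagma.lift_of]
          exact key i v hv2
        | ih2 u1 u2 _ _ =>
          have := u1.length_pos
          have := u2.length_pos
          have h3 : (u1 * u2).length = u1.length + u2.length := rfl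
          omega
      · rw [lift_fst x u hu2, zero_act, zero_sub]
        rcases Nat.lt_or_ge v.length 2 with hv2 | hv2
        · have hu3 : 2 + j ≤ u.length := by omega
          induction v with
          | ih1 i =>
            rw [FreeMagma.lift_of]
            exact kill_neg _ _ _ _ (key i u hu3)
          | ih2 u1 u2 _ _ =>
            have := u1.length_pos
            have := u2.length_pos
            have h3 : (u1 * u2).length = u1.length + u2.length := rfl
            omega
        · rw [lift_fst x v hv2, zero_act, neg_zero]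
          exact kill_zero _ _ _

/-- Every product of at least seven elements taken from two elements vanishes. -/
theorem lift_eq_zero (x : Fin 2 → Alg K) (w : FreeMagma (Fin 2)) (h : 7 ≤ w.length) :
    FreeMagma.lift x w = 0 := by
  apply alg_ext
  · exact lift_fst x w (by omega)
  · exact lift_kill x 5 le_rfl w (by omega)

/-- The element with given components. -/
def mk (a : V3 K) (m : Md K) : Alg K := (a, m)

theorem mk_mul_mk (a b : V3 K) (m n : Md K) :
    mk a m * mk b n = mk 0 (act a n - act b m) := rfl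

variable (K) in
/-- The four generators `e₁, e₂, e₃ ∈ V` and `1 ∈ Λ⁰V`. -/
def gen : Fin 4 → Alg K :=
  ![mk (1, 0, 0) 0, mk (0, 1, 0) 0, mk (0, 0, 1) 0, mk 0 (1, 0, 0)]

/-- The words `1, e₁ (e₂ (e₃ 1)), …`. -/
def wd : ℕ → FreeMagma (Fin 4)
  | 0 => FreeMagma.of 3
  | n + 1 => FreeMagma.of 0 * (FreeMagma.of 1 * (FreeMagma.of 2 * wd n))

theorem wd_length (n : ℕ) : n ≤ (wd n).length := by
  induction n with
  | zero => exact Nat.zero_le _
  | succ n ih =>
    have : (wd (n + 1)).length = 1 + (1 + (1 + (wd n).length)) := rfl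
    omega

theorem wd_lift (n : ℕ) : FreeMagma.lift (gen K) (wd n) = gen K 3 := by
  induction n with
  | zero => rfl
  | succ n ih =>
    change gen K 0 * (gen K 1 * (gen K 2 * FreeMagma.lift (gen K) (wd n))) = gen K 3
    rw [ih]
    have h3 : gen K 3 = mk 0 (1, 0, 0) := rfl
    have h2 : gen K 2 = mk (0, 0, 1) 0 := rfl
    have h1 : gen K 1 = mk (0, 1, 0) 0 := rfl
    have h0 : gen K 0 = mk (1, 0, 0) 0 := rfl
    rw [h0, h1, h2, h3, mk_mul_mk, mk_mul_mk, mk_mul_mk]
    simp only [zero_act, sub_zero]
    simp [act, dt, crs]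
    rfl

theorem gen_three_ne : gen K 3 ≠ 0 := by
  intro h
  have h1 : (gen K 3).2.1 = (0 : Alg K).2.1 := by rw [h]
  exact one_ne_zero h1

end construction

/-- The negation of the preceding statement: For any field and any variety of anticommutative algebras given by identities: if for some n at least 2 all long enough products of any n elements vanish uniformly, then every finitely generated algebra of the variety is nilpotent. -/
theorem result :
    ¬ (∀ (K : Type) [Field K] (S : Set (MonoidAlgebra K (FreeMagma ℕ))) (n : ℕ), 2 ≤ n →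
      (∃ c : ℕ, ∀ (A : Type) [NonUnitalNonAssocRing A] [Module K A]
          [IsScalarTower K A A] [SMulCommClass K A A],
          (∀ a : A, a * a = 0) →
          (∀ f ∈ S, ∀ v : ℕ → A, MonoidAlgebra.liftMagma K (FreeMagma.lift v) f = 0) →
          ∀ (x : Fin n → A) (w : FreeMagma (Fin n)), c ≤ w.length → FreeMagma.lift x w = 0) →
      ∀ (A : Type) [NonUnitalNonAssocRing A] [Module K A]
          [IsScalarTower K A A] [SMulCommClass K A A],
          (∀ a : A, a * a = 0) →
          (∀ f ∈ S, ∀ v : ℕ → A, MonoidAlgebra.liftMagma K (FreeMagma.lift v) f = 0) →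
          ∀ (m : ℕ) (x : Fin m → A), ∃ c : ℕ,
            ∀ w : FreeMagma (Fin m), c ≤ w.length → FreeMagma.lift x w = 0) := by
  intro H
  let S : Set (MonoidAlgebra ℚ (FreeMagma ℕ)) :=
    {f | ∃ w : FreeMagma (Fin 2), 7 ≤ w.length ∧
      f = MonoidAlgebra.single (FreeMagma.map (fun i : Fin 2 => (i : ℕ)) w) 1}
  have hmap : ∀ (A : Type) [NonUnitalNonAssocRing A] [Module ℚ A]
      [IsScalarTower ℚ A A] [SMulCommClass ℚ A A] (v : ℕ → A) (w : FreeMagma (Fin 2)),
      MonoidAlgebra.liftMagma ℚ (FreeMagma.lift v)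
        (MonoidAlgebra.single (FreeMagma.map (fun i : Fin 2 => (i : ℕ)) w) 1) =
      FreeMagma.lift (fun i : Fin 2 => v (i : ℕ)) w := by
    intro A _ _ _ _ v w
    have h1 : MonoidAlgebra.liftMagma ℚ (FreeMagma.lift v)
        (MonoidAlgebra.single (FreeMagma.map (fun i : Fin 2 => (i : ℕ)) w) 1) =
        FreeMagma.lift v (FreeMagma.map (fun i : Fin 2 => (i : ℕ)) w) := by
      simp [MonoidAlgebra.liftMagma_apply_apply]
    rw [h1]
    induction w with
    | ih1 i => rfl
    | ih2 u v hu hv =>
      rw [map_mul, map_mul, map_mul, hu, hv]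
      · simp [MonoidAlgebra.liftMagma_apply_apply]
      · simp [MonoidAlgebra.liftMagma_apply_apply]
  obtain ⟨c, hc⟩ := H ℚ S 2 le_rfl
    ⟨7, by
      intro A _ _ _ _ _ hS x w hw
      have h1 := hS _ ⟨w, hw, rfl⟩ (fun k => if k = 0 then x 0 else x 1)
      rw [hmap] at h1
      have hx : (fun i : Fin 2 => (fun k : ℕ => if k = 0 then x 0 else x 1) (i : ℕ)) = x := by
        funext i
        fin_cases i <;> rfl
      rw [hx] at h1
      exact h1⟩
    (Alg ℚ) alg_sq
    (by
      rintro f ⟨w, hw, rfl⟩ v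
      rw [hmap]
      exact lift_eq_zero _ w hw)
    4 (gen ℚ)
  exact gen_three_ne ((wd_lift c).symm.trans (hc (wd c) (wd_length c)))

end Pool.Agent.S01920
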