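import Pool.Statements.S02146
import Pool.Agent.W_MP_84bb83_al.Main

set_option autoImplicit false
open Pool Pool.MP_84bb83_al

namespace Pool.Agent.S02146

open Pool.Agent.W_MP_84bb83_al

/-- the decomposition formula in terms of the residual -/
lemma dec_iff {P H : Cls} (hH : IsForm H) (G : Type) [Group G] [Finite G] :
    (∀ (R : Subgroup G) [R.Normal], H (G ⧸ R) →
      (∀ (N : Subgroup G) [N.Normal], H (G ⧸ N) → R ≤ N) → P ↥R) ↔ P (res H G) := by
  constructor
  · intro h
    obtain ⟨hn, hq⟩ := hH.qin_res G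
    exact h (res H G) hq (fun N hN hq' => res_le ⟨hN, hq'⟩)
  · intro h R hR hq hmin
    have h1 : R = res H G := by
      apply le_antisymm
      · obtain ⟨hn, hq'⟩ := hH.qin_res G
        exact hmin (res H G) hq'
      · exact res_le ⟨hR, hq⟩
    subst h1
    exact h

/-- The negation of the preceding statement: There is a saturated (equivalently local) formation of finite groups that equals a product MH of two formations both different from (1), and whenever it equals such a product MH, neither M nor H is saturated. -/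
theorem result :
    ¬ (∃ F : (G : Type) → [Group G] → Prop,
      ((∀ (A B : Type) [Group A] [Group B], Nonempty (A ≃* B) → F A → F B) ∧
        F Unit ∧
        (∀ (G : Type) [Group G] [Finite G] (N : Subgroup G) [N.Normal], F G → F (G ⧸ N)) ∧
        (∀ (G : Type) [Group G] [Finite G] (N₁ N₂ : Subgroup G) [N₁.Normal] [N₂.Normal],
          F (G ⧸ N₁) → F (G ⧸ N₂) → F (G ⧸ (N₁ ⊓ N₂)))) ∧
      (∀ (G : Type) [Group G] [Finite G], F (G ⧸ frattini G) → F G) ∧
      (∃ (M H : (G : Type) → [Group G] → Prop),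
        ((∀ (A B : Type) [Group A] [Group B], Nonempty (A ≃* B) → M A → M B) ∧
          M Unit ∧
          (∀ (G : Type) [Group G] [Finite G] (N : Subgroup G) [N.Normal], M G → M (G ⧸ N)) ∧
          (∀ (G : Type) [Group G] [Finite G] (N₁ N₂ : Subgroup G) [N₁.Normal] [N₂.Normal],
            M (G ⧸ N₁) → M (G ⧸ N₂) → M (G ⧸ (N₁ ⊓ N₂)))) ∧
        ((∀ (A B : Type) [Group A] [Group B], Nonempty (A ≃* B) → H A → H B) ∧
          H Unit ∧
          (∀ (G : Type) [Group G] [Finite G] (N : Subgroup G) [N.Normal], H G → H (G ⧸ N)) ∧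
          (∀ (G : Type) [Group G] [Finite G] (N₁ N₂ : Subgroup G) [N₁.Normal] [N₂.Normal],
            H (G ⧸ N₁) → H (G ⧸ N₂) → H (G ⧸ (N₁ ⊓ N₂)))) ∧
        (∃ (G : Type) (_ : Group G), Finite G ∧ Nontrivial G ∧ M G) ∧
        (∃ (G : Type) (_ : Group G), Finite G ∧ Nontrivial G ∧ H G) ∧
        (∀ (G : Type) [Group G] [Finite G],
          F G ↔ ∀ (R : Subgroup G) [R.Normal], H (G ⧸ R) →
            (∀ (N : Subgroup G) [N.Normal], H (G ⧸ N) → R ≤ N) → M ↥R)) ∧
      (∀ (M H : (G : Type) → [Group G] → Prop),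
        ((∀ (A B : Type) [Group A] [Group B], Nonempty (A ≃* B) → M A → M B) ∧
          M Unit ∧
          (∀ (G : Type) [Group G] [Finite G] (N : Subgroup G) [N.Normal], M G → M (G ⧸ N)) ∧
          (∀ (G : Type) [Group G] [Finite G] (N₁ N₂ : Subgroup G) [N₁.Normal] [N₂.Normal],
            M (G ⧸ N₁) → M (G ⧸ N₂) → M (G ⧸ (N₁ ⊓ N₂)))) →
        ((∀ (A B : Type) [Group A] [Group B], Nonempty (A ≃* B) → H A → H B) ∧
          H Unit ∧
          (∀ (G : Type) [Group G] [Finite G] (N : Subgroup G) [N.Normal], H G → H (G ⧸ N)) ∧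
          (∀ (G : Type) [Group G] [Finite G] (N₁ N₂ : Subgroup G) [N₁.Normal] [N₂.Normal],
            H (G ⧸ N₁) → H (G ⧸ N₂) → H (G ⧸ (N₁ ⊓ N₂)))) →
        (∃ (G : Type) (_ : Group G), Finite G ∧ Nontrivial G ∧ M G) →
        (∃ (G : Type) (_ : Group G), Finite G ∧ Nontrivial G ∧ H G) →
        (∀ (G : Type) [Group G] [Finite G],
          F G ↔ ∀ (R : Subgroup G) [R.Normal], H (G ⧸ R) →
            (∀ (N : Subgroup G) [N.Normal], H (G ⧸ N) → R ≤ N) → M ↥R) →
        (¬ ∀ (G : Type) [Group G] [Finite G], M (G ⧸ frattini G) → M G) ∧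
        (¬ ∀ (G : Type) [Group G] [Finite G], H (G ⧸ frattini G) → H G))) := by
  rintro ⟨F, ⟨hF1, hF2, hF3, hF4⟩, hsat, ⟨M, H, ⟨hM1, hM2, hM3, hM4⟩, ⟨hH1, hH2, hH3, hH4⟩, hMn, hHn, hdec⟩, hall⟩
  have hF : IsForm F := { iso := hF1, quo := hF3, unit := hF2, sub := hF4 }
  have hM : IsForm M := { iso := hM1, quo := hM3, unit := hM2, sub := hM4 }
  have hH : IsForm H := { iso := hH1, quo := hH3, unit := hH2, sub := hH4 }
  have hd : Dec F M H := by
    intro G _ _
    exact (hdec G).trans (dec_iff (P := M) hH G)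
  by_cases hcase : ∀ (G : Type) [Group G] [Finite G], F G → H G
  · -- then `H = F` on finite groups and `H` is saturated
    have hHF : ∀ (G : Type) [Group G] [Finite G], H G → F G := by
      intro G _ _ h
      rw [hd, hH.res_eq_bot.mpr h]
      exact hM.of_subsingleton
    apply (hall M H ⟨hM1, hM2, hM3, hM4⟩ ⟨hH1, hH2, hH3, hH4⟩ hMn hHn hdec).2
    intro G _ _ h
    exact hcase G (hsat G (hHF _ h))
  · push Not at hcase
    obtain ⟨G, _, _, hG, hG'⟩ := hcase
    have hform : IsForm (Mp M H) := isForm_Mp hM hH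
    have hd' : Dec F (Mp M H) H := dec_Mp hM hd
    have hne : res H G ≠ ⊥ := fun h => hG' (hH.res_eq_bot.mp h)
    apply (hall (Mp M H) H ⟨hform.iso, hform.unit, hform.quo, hform.sub⟩ ⟨hH1, hH2, hH3, hH4⟩
      ⟨res H G, inferInstance, inferInstance, (Subgroup.nontrivial_iff_ne_bot _).mpr hne, (hd' G).mp hG⟩ hHn ?_).1
    · intro A _ _ h
      exact sat_Mp hM hH hF.toQCl hsat hd (Nat.card A) A rfl (frattini A) le_rfl ⟨inferInstance, h⟩
    · intro G _ _
      exact (hd' G).trans (dec_iff (P := Mp M H) hH G).symm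

end Pool.Agent.S02146
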