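import Pool.Statements.S02271
import Pool.Agent.W_MP_908eba_al.Main

set_option autoImplicit false
open Pool Pool.MP_908eba_al

namespace Pool.Agent.S02271

/-- The pseudo-Euclidean bilinear form. -/
noncomputable def B (p q : ℕ) :
    (Fin p ⊕ Fin q → ℝ) →ₗ[ℝ] (Fin p ⊕ Fin q → ℝ) →ₗ[ℝ] ℝ :=
  LinearMap.mk₂ ℝ (fun v w => (∑ i : Fin p, v (Sum.inl i) * w (Sum.inl i))
      - (∑ j : Fin q, v (Sum.inr j) * w (Sum.inr j)))
    (by
      intro v v' w
      simp only [Pi.add_apply, add_mul, Finset.sum_add_distrib]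
      ring)
    (by
      intro c v w
      simp only [Pi.smul_apply, smul_eq_mul, mul_assoc, ← Finset.mul_sum]
      ring)
    (by
      intro v w w'
      simp only [Pi.add_apply, mul_add, Finset.sum_add_distrib]
      ring)
    (by
      intro c v w
      simp only [Pi.smul_apply, smul_eq_mul, mul_left_comm _ c, ← Finset.mul_sum]
      ring)

theorem B_apply (p q : ℕ) (v w : Fin p ⊕ Fin q → ℝ) :
    B p q v w = (∑ i : Fin p, v (Sum.inl i) * w (Sum.inl i))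
      - (∑ j : Fin q, v (Sum.inr j) * w (Sum.inr j)) := rfl

theorem B_symm (p q : ℕ) (v w : Fin p ⊕ Fin q → ℝ) : B p q v w = B p q w v := by
  simp only [B_apply, mul_comm]

theorem B_nondeg (p q : ℕ) (v : Fin p ⊕ Fin q → ℝ) (h : ∀ w, B p q v w = 0) : v = 0 := by
  funext k
  rcases k with i | j
  · have := h (Pi.single (Sum.inl i) 1)
    rw [B_apply] at this
    simpa [Pi.single_apply] using this
  · have := h (Pi.single (Sum.inr j) 1)
    rw [B_apply] at this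
    simpa [Pi.single_apply] using this

theorem B_polar (p q : ℕ) (v w : Fin p ⊕ Fin q → ℝ) :
    B p q v w = ((((∑ i : Fin p, ((v + w) (Sum.inl i)) ^ 2) - (∑ j : Fin q, ((v + w) (Sum.inr j)) ^ 2))
      - ((∑ i : Fin p, (v (Sum.inl i)) ^ 2) - (∑ j : Fin q, (v (Sum.inr j)) ^ 2)))
      - ((∑ i : Fin p, (w (Sum.inl i)) ^ 2) - (∑ j : Fin q, (w (Sum.inr j)) ^ 2))) / 2 := by
  rw [B_apply]
  simp only [Pi.add_apply, add_sq, Finset.sum_add_distrib, mul_assoc, ← Finset.mul_sum]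
  ring

/-- For every crystallographic group Γ of motions of ℝ^{p,q}, only finitely many subgroups of Γ arise as the translation lattice under some faithful realisation of Γ as a crystallographic group of motions of ℝ^{p,q}. -/
theorem result :
  ∀ (p q : ℕ) (Γ : Subgroup ((Fin p ⊕ Fin q → ℝ) ≃ᵃ[ℝ] (Fin p ⊕ Fin q → ℝ))),
    (∀ f ∈ Γ, ∀ v : Fin p ⊕ Fin q → ℝ,
      (∑ i : Fin p, (f.linear v (Sum.inl i)) ^ 2) - (∑ j : Fin q, (f.linear v (Sum.inr j)) ^ 2)
        = (∑ i : Fin p, (v (Sum.inl i)) ^ 2) - (∑ j : Fin q, (v (Sum.inr j)) ^ 2)) →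
    (∃ b : Module.Basis (Fin p ⊕ Fin q) ℝ (Fin p ⊕ Fin q → ℝ),
      {w : Fin p ⊕ Fin q → ℝ | ∃ f ∈ Γ, f.linear = LinearEquiv.refl ℝ (Fin p ⊕ Fin q → ℝ) ∧ f 0 = w}
        = (Submodule.span ℤ (Set.range b) : Set (Fin p ⊕ Fin q → ℝ))) →
    {L : Subgroup Γ | ∃ φ : Γ →* ((Fin p ⊕ Fin q → ℝ) ≃ᵃ[ℝ] (Fin p ⊕ Fin q → ℝ)),
        Function.Injective φ ∧
        (∀ g : Γ, ∀ v : Fin p ⊕ Fin q → ℝ,
          (∑ i : Fin p, ((φ g).linear v (Sum.inl i)) ^ 2) - (∑ j : Fin q, ((φ g).linear v (Sum.inr j)) ^ 2)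
            = (∑ i : Fin p, (v (Sum.inl i)) ^ 2) - (∑ j : Fin q, (v (Sum.inr j)) ^ 2)) ∧
        (∃ b : Module.Basis (Fin p ⊕ Fin q) ℝ (Fin p ⊕ Fin q → ℝ),
          {w : Fin p ⊕ Fin q → ℝ | ∃ g : Γ, (φ g).linear = LinearEquiv.refl ℝ (Fin p ⊕ Fin q → ℝ) ∧ φ g 0 = w}
            = (Submodule.span ℤ (Set.range b) : Set (Fin p ⊕ Fin q → ℝ))) ∧
        ∀ g : Γ, g ∈ L ↔ (φ g).linear = LinearEquiv.refl ℝ (Fin p ⊕ Fin q → ℝ)}.Finite := by
  intro p q Γ _ _
  apply W_MP_908eba_al.main (B p q) (B_symm p q) (B_nondeg p q)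
  rintro L ⟨φ, hinj, hform, ⟨e, he⟩, hL⟩
  have hdec : ∀ (f : (Fin p ⊕ Fin q → ℝ) ≃ᵃ[ℝ] (Fin p ⊕ Fin q → ℝ)) (v : Fin p ⊕ Fin q → ℝ),
      f v = f.linear v + f 0 := by
    intro f v
    have := f.map_vadd 0 v
    simpa using this
  let A : Γ →* Module.End ℝ (Fin p ⊕ Fin q → ℝ) :=
    (LinearEquiv.automorphismGroup.toLinearMapMonoidHom).comp
      ((AffineEquiv.linearHom).comp φ)
  have hA : ∀ g v, A g v = (φ g).linear v := fun g v => rfl
  have hA1 : ∀ g, A g = 1 ↔ (φ g).linear = LinearEquiv.refl ℝ (Fin p ⊕ Fin q → ℝ) := by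
    intro g
    constructor
    · intro h
      apply LinearEquiv.ext
      intro v
      rw [← hA, h]; rfl
    · intro h
      apply LinearMap.ext
      intro v
      rw [hA, h]; rfl
  refine ⟨{ A := A
            b := fun g => φ g 0
            cocycle := ?_
            mem := ?_
            inj := ?_
            form := ?_
            e := e
            lat := ?_ }⟩
  · intro g h
    have h1 : φ (g * h) 0 = φ g (φ h 0) := by rw [map_mul]; rfl
    rw [h1, hdec (φ g) (φ h 0), add_comm, hA]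
  · intro g
    rw [hL, hA1]
  · intro g h1 h2
    apply hinj
    rw [map_one]
    apply AffineEquiv.ext
    intro v
    rw [hdec, h2, (hA1 g).1 h1]
    simp
  · intro g v w
    rw [B_polar, B_polar, ← map_add]
    simp only [hA]
    rw [hform, hform, hform]
  · intro v
    have h1 : v ∈ {w : Fin p ⊕ Fin q → ℝ | ∃ g : Γ, (φ g).linear
        = LinearEquiv.refl ℝ (Fin p ⊕ Fin q → ℝ) ∧ φ g 0 = w} ↔
        v ∈ (Submodule.span ℤ (Set.range e) : Set (Fin p ⊕ Fin q → ℝ)) := by rw [he]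
    rw [SetLike.mem_coe] at h1
    rw [← h1]
    constructor
    · rintro ⟨g, hg, rfl⟩
      exact ⟨g, (hL g).1 hg, rfl⟩
    · rintro ⟨g, hg, rfl⟩
      exact ⟨g, (hL g).2 hg, rfl⟩

end Pool.Agent.S02271
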