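import Pool.Statements.S04402
import Pool.Agent.W_MP_3c0e9a_an.Main

set_option autoImplicit false
open MeasureTheory Filter Topology
open Pool Pool.MP_3c0e9a_an

namespace Pool.Agent.S04402

open Pool.Agent.W_MP_3c0e9a_an ProbabilityTheory

/-- Integration over a measurable set as a functional on `L¹`. -/
lemma exists_functional (E : Set ℝ) :
    ∃ x : Lp ℝ 1 mu →L[ℝ] ℝ, ∀ g : Lp ℝ 1 mu, x g = ∫ s in E, g s ∂mu := by
  refine ⟨LinearMap.mkContinuous
    { toFun := fun g => ∫ s in E, g s ∂mu
      map_add' := ?_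
      map_smul' := ?_ } 1 ?_, fun g => rfl⟩
  · intro g g'
    have hg : Integrable g mu := L1.integrable_coeFn g
    have hg' : Integrable g' mu := L1.integrable_coeFn g'
    rw [← integral_add hg.integrableOn hg'.integrableOn]
    refine integral_congr_ae (ae_restrict_of_ae ?_)
    filter_upwards [Lp.coeFn_add g g'] with s hs
    rw [hs]; rfl
  · intro c g
    simp only [RingHom.id_apply, smul_eq_mul]
    rw [← integral_const_mul]
    refine integral_congr_ae (ae_restrict_of_ae ?_)
    filter_upwards [Lp.coeFn_smul c g] with s hs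
    rw [hs]; rfl
  · intro g
    have hg : Integrable g mu := L1.integrable_coeFn g
    simp only [LinearMap.coe_mk, AddHom.coe_mk, one_mul]
    rw [L1.norm_eq_integral_norm]
    calc ‖∫ s in E, g s ∂mu‖ ≤ ∫ s in E, ‖g s‖ ∂mu := norm_integral_le_integral_norm _
      _ ≤ ∫ s, ‖g s‖ ∂mu := setIntegral_le_integral hg.norm
          (Filter.Eventually.of_forall fun s => norm_nonneg _)

/-- The negation of the preceding statement: Every sequence of measurable maps from [0,1] into real L^1[0,1], uniformly essentially bounded, with every functional of it tending to 0 in measure, has a subsequence with every functional of it tending to 0 almost everywhere. -/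
theorem result :
    ¬ (∀ f : ℕ → ℝ → MeasureTheory.Lp ℝ 1 (MeasureTheory.volume.restrict (Set.Icc (0:ℝ) 1)),
      (∀ n, MeasureTheory.AEStronglyMeasurable (f n)
          (MeasureTheory.volume.restrict (Set.Icc (0:ℝ) 1))) →
      (∃ C : ℝ, ∀ n, ∀ᵐ t ∂(MeasureTheory.volume.restrict (Set.Icc (0:ℝ) 1)), ‖f n t‖ ≤ C) →
      (∀ x : MeasureTheory.Lp ℝ 1 (MeasureTheory.volume.restrict (Set.Icc (0:ℝ) 1)) →L[ℝ] ℝ,
          MeasureTheory.TendstoInMeasure (MeasureTheory.volume.restrict (Set.Icc (0:ℝ) 1))
            (fun n t => x (f n t)) atTop (fun _ => (0:ℝ))) →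
      ∃ φ : ℕ → ℕ, StrictMono φ ∧
        ∀ x : MeasureTheory.Lp ℝ 1 (MeasureTheory.volume.restrict (Set.Icc (0:ℝ) 1)) →L[ℝ] ℝ,
          ∀ᵐ t ∂(MeasureTheory.volume.restrict (Set.Icc (0:ℝ) 1)),
            Tendsto (fun k => x (f (φ k) t)) atTop (𝓝 (0:ℝ))) := by
  intro hmain
  obtain ⟨U, hU, hind, hlaw⟩ := exists_iid_unif
  have hM1 : ∀ n, AEStronglyMeasurable (fun t => h hU n (L U n t))
      (volume.restrict (Set.Icc (0:ℝ) 1)) := by
    intro n
    have h1 : StronglyMeasurable (fun l : ℕ => h hU n l) := StronglyMeasurable.of_discrete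
    exact (h1.comp_measurable (measurable_L hU n)).aestronglyMeasurable
  have hM2 : ∃ C : ℝ, ∀ n, ∀ᵐ t ∂(volume.restrict (Set.Icc (0:ℝ) 1)),
      ‖h hU n (L U n t)‖ ≤ C := by
    exact ⟨2, fun n => Filter.Eventually.of_forall fun t => norm_h_le hU hlaw n _⟩
  have hM3 : ∀ x : Lp ℝ 1 (volume.restrict (Set.Icc (0:ℝ) 1)) →L[ℝ] ℝ,
      TendstoInMeasure (volume.restrict (Set.Icc (0:ℝ) 1))
        (fun n t => x (h hU n (L U n t))) atTop (fun _ => (0:ℝ)) := by
    intro x ε hε
    rw [ENNReal.tendsto_atTop_zero]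
    intro δ hδ
    -- choose a level
    obtain ⟨M, hM0, hM⟩ : ∃ M : ℕ, 0 < M ∧ ENNReal.ofReal (1/(M:ℝ)) ≤ δ := by
      have h1 : Tendsto (fun M : ℕ => ENNReal.ofReal (1/(M:ℝ))) atTop (𝓝 0) := by
        have := ENNReal.tendsto_ofReal (tendsto_one_div_atTop_nhds_zero_nat (𝕜 := ℝ))
        simpa using this
      have h2 := (h1.eventually (Iic_mem_nhds (by simpa using hδ) : ∀ᶠ y in 𝓝 (0:ENNReal), y ≤ δ))
      obtain ⟨M, hM1, hM2⟩ := (h2.and (eventually_gt_atTop 0)).exists
      exact ⟨M, hM2, hM1⟩
    have hmemM : (1/(M:ℝ)) ∈ Set.Icc (0:ℝ) 1 :=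
      ⟨by positivity, by
        rw [div_le_one (by positivity)]
        exact_mod_cast hM0⟩
    have h3 : ∀ l : ℕ, ∀ᶠ k in atTop, edist (x (h hU k l)) 0 < ε := by
      intro l
      have := tendsto_h hU hlaw hind x l
      exact (EMetric.tendsto_atTop.1 this ε hε) |> fun ⟨N, hN⟩ =>
        Filter.eventually_atTop.2 ⟨N, fun k hk => hN k hk⟩
    have h4 : ∀ᶠ k in atTop, ∀ l ∈ Finset.range (M+1), edist (x (h hU k l)) 0 < ε := by
      rw [Filter.eventually_all_finset]
      intro l _
      exact h3 l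
    obtain ⟨N, hN⟩ := Filter.eventually_atTop.1 h4
    refine ⟨N, fun k hk => ?_⟩
    refine le_trans (measure_mono ?_) ((meas_le hU hlaw k ⟨_, hmemM⟩).le.trans hM)
    intro t ht
    simp only [Set.mem_ofPred_eq] at ht ⊢
    by_contra hcon
    rw [not_le] at hcon
    have h5 : L U k t ≤ M := by
      unfold L
      have hpos : 0 < ((U k t : unitInterval) : ℝ) := lt_trans (by positivity) hcon
      have h6 : 1 / ((U k t : unitInterval) : ℝ) ≤ M := by
        rw [div_le_iff₀ hpos]
        rw [div_lt_iff₀ (by positivity)] at hcon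
        linarith
      have := Nat.floor_le_floor h6
      simpa using this
    have h7 := hN k hk (L U k t) (Finset.mem_range.2 (Nat.lt_succ_of_le h5))
    exact absurd ht (not_le.mpr h7)
  obtain ⟨φ, hφ, hconv⟩ := hmain (fun n t => h hU n (L U n t)) hM1 hM2 hM3
  -- no subsequence converges scalarly almost everywhere
  set E : Set ℝ := ⋃ j : ℕ, A U (φ j) (j+2) with hEdef
  have hE : MeasurableSet E := MeasurableSet.iUnion fun j => measurableSet_A hU _ _
  obtain ⟨x, hx⟩ := exists_functional E
  have hEmeas : mu.real E ≤ 1/2 := by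
    have h1 : mu E ≤ ∑' j : ℕ, ENNReal.ofReal ((1/2:ℝ)^(j+2)) := by
      refine (measure_iUnion_le _).trans ?_
      refine ENNReal.tsum_le_tsum fun j => ?_
      rw [meas_A hU hlaw]
    have hsumm : HasSum (fun j : ℕ => (1/2:ℝ)^(j+2)) (1/2) := by
      have := (hasSum_geometric_two).mul_right ((1/2:ℝ)^2)
      simp only [← pow_add] at this
      have h0 : (2 * (1/2)^2 : ℝ) = 1/2 := by norm_num
      rw [h0] at this
      exact this
    have h2 : ∑' j : ℕ, ENNReal.ofReal ((1/2:ℝ)^(j+2)) = ENNReal.ofReal (1/2) := by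
      rw [← ENNReal.ofReal_tsum_of_nonneg (fun j => by positivity) hsumm.summable,
        hsumm.tsum_eq]
    rw [h2] at h1
    rw [measureReal_def]
    exact ENNReal.toReal_le_of_le_ofReal (by norm_num) h1
  -- value of the functional
  have hval : ∀ j l : ℕ, j + 2 ≤ l → 1/2 ≤ x (h hU (φ j) l) := by
    intro j l hjl
    have hsub : A U (φ j) l ⊆ E := by
      refine Set.Subset.trans ?_ (Set.subset_iUnion (fun j => A U (φ j) (j+2)) j)
      intro s hs
      have h3 : (1/2:ℝ)^l ≤ (1/2:ℝ)^(j+2) :=
        pow_le_pow_of_le_one (by norm_num) (by norm_num) hjl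
      exact le_trans hs h3
    rw [hx]
    have h4 : ∫ s in E, (h hU (φ j) l) s ∂mu = ∫ s in E, H U (φ j) l s ∂mu := by
      refine integral_congr_ae (ae_restrict_of_ae ?_)
      exact Integrable.coeFn_toL1 (integrable_H hU (φ j) l)
    rw [h4]
    unfold H
    rw [integral_sub, integral_const_mul]
    · rw [setIntegral_indicator (measurableSet_A hU _ _), Set.inter_eq_self_of_subset_right hsub]
      simp only [integral_const, smul_eq_mul, mul_one, measureReal_restrict_apply_univ]
      rw [measReal_A hU hlaw]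
      have h5 : (2:ℝ)^l * (1/2)^l = 1 := by rw [← mul_pow]; norm_num
      rw [h5]
      linarith
    · exact (((integrable_const (1:ℝ)).indicator (measurableSet_A hU _ _)).const_mul _).integrableOn
    · exact (integrable_const _).integrableOn
  -- the events occur infinitely often
  set B : ℕ → Set ℝ := fun j => {t | ((U (φ j) t : unitInterval) : ℝ) ≤ 1/((j:ℝ)+2)} with hB
  have hmem : ∀ j : ℕ, 1/((j:ℝ)+2) ∈ Set.Icc (0:ℝ) 1 := fun j =>
    ⟨by positivity, by rw [div_le_one (by positivity)]; linarith [Nat.cast_nonneg (α := ℝ) j]⟩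
  have hBmeas : ∀ j, MeasurableSet (B j) := fun j =>
    measurableSet_le ((measurable_subtype_coe).comp (hU _)) measurable_const
  have hBval : ∀ j, mu (B j) = ENNReal.ofReal (1/((j:ℝ)+2)) := fun j =>
    meas_le hU hlaw (φ j) ⟨_, hmem j⟩
  have hBind : iIndepSet B mu := by
    have h6 : iIndepFun (fun j => U (φ j)) mu := hind.precomp hφ.injective
    rw [iIndepSet_iff_meas_biInter hBmeas]
    intro s
    exact h6.measure_inter_preimage_eq_mul s
      (sets := fun j => Set.Iic (⟨_, hmem j⟩ : unitInterval)) (fun j _ => measurableSet_Iic)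
  have hsumB : ∑' j, mu (B j) = ⊤ := by
    simp_rw [hBval]
    by_contra hne
    have h7 : Summable (fun j : ℕ => 1/((j:ℝ)+2)) := by
      have := ENNReal.summable_toReal hne
      refine this.congr fun j => ?_
      rw [ENNReal.toReal_ofReal (by positivity)]
    have h8 : Summable (fun j : ℕ => 1/((j:ℝ))) := by
      rw [← summable_nat_add_iff 2]
      refine h7.congr fun j => ?_
      push_cast
      rfl
    exact Real.not_summable_one_div_natCast h8
  have hlim : mu (limsup B atTop) = 1 := measure_limsup_eq_one hBmeas hBind hsumB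
  have hae : ∀ᵐ t ∂mu, t ∈ limsup B atTop := by
    rw [← prob_compl_eq_zero_iff (MeasurableSet.measurableSet_limsup hBmeas)] at hlim
    exact hlim
  -- positivity of the uniform variables almost everywhere
  have hpos : ∀ᵐ t ∂mu, ∀ j, 0 < ((U (φ j) t : unitInterval) : ℝ) := by
    rw [ae_all_iff]
    intro j
    have h9 := meas_le hU hlaw (φ j) 0
    simp only [Set.Icc.coe_zero, ENNReal.ofReal_zero] at h9
    rw [ae_iff]
    simpa only [not_lt] using h9
  have hfalse : ∀ᵐ t ∂mu, False := by
    filter_upwards [hconv x, hae, hpos] with t ht1 ht2 ht3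
    rw [mem_limsup_iff_frequently_mem] at ht2
    have h10 : ∀ᶠ k in atTop, x (h hU (φ k) (L U (φ k) t)) < 1/2 :=
      ht1.eventually (gt_mem_nhds (by norm_num))
    obtain ⟨j, hj1, hj2⟩ := (ht2.and_eventually h10).exists
    have h11 : j + 2 ≤ L U (φ j) t := by
      unfold L
      rw [Nat.le_floor_iff (by have := ht3 j; positivity)]
      rw [le_div_iff₀ (ht3 j)]
      have : ((U (φ j) t : unitInterval) : ℝ) ≤ 1/((j:ℝ)+2) := hj1
      rw [le_div_iff₀ (by positivity)] at this
      push_cast
      linarith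
    exact absurd (hval j _ h11) (not_le.mpr hj2)
  have := (ae_iff.1 hfalse)
  simp at this

end Pool.Agent.S04402
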