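import Pool.Statements.S04406
import Pool.Agent.W_MP_3ca6e9_h18.Final

set_option autoImplicit false
open Pool Pool.MP_3ca6e9_an

namespace Pool.Agent.S04406

/-- The negation of the preceding statement: Every convex compact subset of a real locally convex space that is homeomorphic to a weakly compact subset of a Banach space is homeomorphic to some convex weakly compact subset of a real Banach space. -/
theorem result :
    ¬ (∀ (E : Type) [AddCommGroup E] [Module ℝ E] [TopologicalSpace E]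
      [IsTopologicalAddGroup E] [ContinuousSMul ℝ E] [LocallyConvexSpace ℝ E]
      (K : Set E), Convex ℝ K → IsCompact K →
      (∃ (X : Type) (_ : NormedAddCommGroup X) (_ : NormedSpace ℝ X) (_ : CompleteSpace X)
          (S : Set (WeakSpace ℝ X)), IsCompact S ∧ Nonempty (K ≃ₜ S)) →
      ∃ (Y : Type) (_ : NormedAddCommGroup Y) (_ : NormedSpace ℝ Y) (_ : CompleteSpace Y)
          (C : Set (WeakSpace ℝ Y)), Convex ℝ C ∧ IsCompact C ∧ Nonempty (K ≃ₜ C)) := by
  intro hall
  obtain ⟨Y, _, _, _, C, hC, _, ⟨h⟩⟩ :=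
    hall (Pool.Agent.W_MP_3ca6e9_h18.II Pool.Agent.W_MP_3ca6e9_h18.KIdx → ℝ)
      (Pool.Agent.W_MP_3ca6e9_h18.KK Pool.Agent.W_MP_3ca6e9_h18.KIdx)
      Pool.Agent.W_MP_3ca6e9_h18.KK_convex Pool.Agent.W_MP_3ca6e9_h18.KK_isCompact
      Pool.Agent.W_MP_3ca6e9_h18.KK_eberlein
  exact Pool.Agent.W_MP_3ca6e9_h18.no_homeo hC h

end Pool.Agent.S04406
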