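import Pool.Statements.S04492
import Pool.Agent.W_MP_42dd51_an.Rigid
import Pool.Agent.W_MP_42dd51_an.Embed

set_option autoImplicit false
open scoped Classical
open Pool Pool.MP_42dd51_an

namespace Pool.Agent.S04492

/-- The negation of the preceding statement: For all uniformly locally finite metric spaces X, Y, if the uniform Roe algebra of X embeds into that of Y via an injective (not necessarily unital) *-homomorphism, then there is a coarse map X → Y whose fibers have uniformly bounded size. -/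
theorem result :
    ¬ (∀ (X Y : Type) [MetricSpace X] [MetricSpace Y],
      (∀ r : ℝ, 0 < r → ∃ N : ℕ, ∀ x : X, (Metric.closedBall x r).encard ≤ (N : ℕ∞)) →
      (∀ r : ℝ, 0 < r → ∃ N : ℕ, ∀ y : Y, (Metric.closedBall y r).encard ≤ (N : ℕ∞)) →
      (∃ φ : ↥((StarAlgebra.adjoin ℂ
                {a : lp (fun _ : X => ℂ) 2 →L[ℂ] lp (fun _ : X => ℂ) 2 |
                  ∃ r : ℝ, ∀ x x' : X, r < dist x x' →
                    inner ℂ (lp.single 2 x (1 : ℂ) : lp (fun _ : X => ℂ) 2)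
                      (a (lp.single 2 x' (1 : ℂ) : lp (fun _ : X => ℂ) 2)) = 0}).topologicalClosure)
            →⋆ₙₐ[ℂ]
            ↥((StarAlgebra.adjoin ℂ
                {b : lp (fun _ : Y => ℂ) 2 →L[ℂ] lp (fun _ : Y => ℂ) 2 |
                  ∃ r : ℝ, ∀ y y' : Y, r < dist y y' →
                    inner ℂ (lp.single 2 y (1 : ℂ) : lp (fun _ : Y => ℂ) 2)
                      (b (lp.single 2 y' (1 : ℂ) : lp (fun _ : Y => ℂ) 2)) = 0}).topologicalClosure),
          Function.Injective φ) →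
      ∃ f : X → Y,
        (∀ r : ℝ, 0 < r → ∃ s : ℝ, 0 < s ∧
            ∀ x x' : X, dist x x' ≤ r → dist (f x) (f x') ≤ s) ∧
        ∃ N : ℕ, ∀ y : Y, (f ⁻¹' {y}).encard ≤ (N : ℕ∞)) := by
  intro h
  obtain ⟨f, hf, N, hN⟩ := h Pool.Agent.W_MP_42dd51_an.XPt Pool.Agent.W_MP_42dd51_an.YPt
    (fun r _ => Pool.Agent.W_MP_42dd51_an.ulfX r) (fun r _ => Pool.Agent.W_MP_42dd51_an.ulfY r)
    Pool.Agent.W_MP_42dd51_an.exists_emb
  exact Pool.Agent.W_MP_42dd51_an.no_coarse_map ⟨f, hf, N, hN⟩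

end Pool.Agent.S04492
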