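import Pool.Statements.S04593
import Pool.Agent.W_4b1b5d_h33.Last
import Pool.Agent.W_4b1b5d_h34.NrlAll

set_option autoImplicit false
open Pool Pool.MP_4b1b5d_an

namespace Pool.Agent.S04593

/-- For a smooth metric and smooth nonconstant potential on the 2-torus: an integral polynomial in momenta of odd degree forces a degree-1 integral; a non-polynomial-in-H integral of even degree forces a non-polynomial-in-H integral of degree at most 2. -/
theorem result :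
  ∀ (ginv : (Fin 2 → ℝ) → Matrix (Fin 2) (Fin 2) ℝ) (U : (Fin 2 → ℝ) → ℝ)
    (H : (Fin 2 → ℝ) → (Fin 2 → ℝ) → ℝ)
    (IsInt : ((Fin 2 → ℝ) → MvPolynomial (Fin 2) ℝ) → Prop),
    (∀ x, (ginv x).PosDef) →
    (∀ i j, ContDiff ℝ (⊤ : ℕ∞) (fun x => ginv x i j)) →
    (∀ (x : Fin 2 → ℝ) (k : Fin 2 → ℤ), ginv (x + fun i => (k i : ℝ)) = ginv x) →
    ContDiff ℝ (⊤ : ℕ∞) U →
    (∀ (x : Fin 2 → ℝ) (k : Fin 2 → ℤ), U (x + fun i => (k i : ℝ)) = U x) →
    (∃ x y, U x ≠ U y) →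
    (∀ x p, H x p = (1 / 2 : ℝ) * ∑ i, ∑ j, ginv x i j * p i * p j + U x) →
    (∀ F : (Fin 2 → ℝ) → MvPolynomial (Fin 2) ℝ, IsInt F ↔
      ((∀ m, ContDiff ℝ (⊤ : ℕ∞) (fun x => (F x).coeff m)) ∧
       (∀ (x : Fin 2 → ℝ) (k : Fin 2 → ℤ), F (x + fun i => (k i : ℝ)) = F x) ∧
       (∃ N : ℕ, ∀ x, (F x).totalDegree ≤ N) ∧
       (∀ x p : Fin 2 → ℝ, ∑ i : Fin 2,
          (deriv (fun t => H x (Function.update p i t)) (p i) *
              deriv (fun t => MvPolynomial.eval p (F (Function.update x i t))) (x i) -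
            deriv (fun t => H (Function.update x i t) p) (x i) *
              deriv (fun t => MvPolynomial.eval (Function.update p i t) (F x)) (p i)) = 0))) →
    (((∃ (F : (Fin 2 → ℝ) → MvPolynomial (Fin 2) ℝ) (n : ℕ), IsInt F ∧ Odd n ∧
          (∀ x, (F x).totalDegree ≤ n) ∧ (∃ x, (F x).totalDegree = n)) →
        ∃ F : (Fin 2 → ℝ) → MvPolynomial (Fin 2) ℝ, IsInt F ∧
          (∀ x, (F x).totalDegree ≤ 1) ∧ ∃ x, (F x).totalDegree = 1) ∧
     ((∃ (F : (Fin 2 → ℝ) → MvPolynomial (Fin 2) ℝ) (n : ℕ), IsInt F ∧ Even n ∧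
          (∀ x, (F x).totalDegree ≤ n) ∧ (∃ x, (F x).totalDegree = n) ∧
          ¬ ∃ q : Polynomial ℝ, ∀ x p, MvPolynomial.eval p (F x) = q.eval (H x p)) →
        ∃ F : (Fin 2 → ℝ) → MvPolynomial (Fin 2) ℝ, IsInt F ∧
          (∀ x, (F x).totalDegree ≤ 2) ∧
          ¬ ∃ q : Polynomial ℝ, ∀ x p, MvPolynomial.eval p (F x) = q.eval (H x p))) := by
  exact Pool.W4b1b5d.H34.S04593_of_isoII
    (Pool.W4b1b5d.H63.isoII_of_energy
      (Pool.W4b1b5d.H33.energyThm Pool.W4b1b5d.H34.nrlAll Pool.W4b1b5d.H34.momAll))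

end Pool.Agent.S04593
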