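import Pool.Statements.S04698
import Pool.Agent.W_MP_541d58_an.Main

set_option autoImplicit false
open Pool Pool.MP_541d58_an

namespace Pool.Agent.S04698

/-- There is no family of pairwise disjoint, bounded, closed convex sets with nonempty interior
whose union is the whole real Hilbert space ℓ²(ℝ), i.e. ℓ₂ of continuum density. The proof works
for every real Hilbert space, see `Pool.Agent.W_MP_541d58_an.univ_mem`. -/
theorem result :
    ¬ (∃ 𝒯 : Set (Set (lp (fun _ : ℝ => ℝ) (2 : ENNReal))),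
      (∀ C ∈ 𝒯, IsClosed C ∧ Convex ℝ C ∧ (interior C).Nonempty ∧ Bornology.IsBounded C) ∧
      𝒯.PairwiseDisjoint id ∧
      ⋃₀ 𝒯 = Set.univ) := by
  rintro ⟨T, hT, hdisj, hcov⟩
  have hT' : Pool.Agent.W_MP_541d58_an.IsDisjTiling T := by
    refine ⟨fun C hC => (hT C hC).1, fun C hC => (hT C hC).2.1, fun C hC => (hT C hC).2.2.1,
      ?_, ?_⟩
    · intro C hC D hD x hxC hxD
      by_contra hne
      exact Set.disjoint_left.1 (hdisj hC hD hne) hxC hxD
    · intro x
      have : x ∈ ⋃₀ T := by rw [hcov]; exact Set.mem_univ x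
      exact this
  have hu := Pool.Agent.W_MP_541d58_an.univ_mem hT'
  have hb := (hT _ hu).2.2.2
  have hnt : Nontrivial (lp (fun _ : ℝ => ℝ) (2 : ENNReal)) := by
    refine ⟨⟨lp.single 2 (0 : ℝ) (1 : ℝ), 0, ?_⟩⟩
    intro h
    have h1 : ‖lp.single (E := fun _ : ℝ => ℝ) 2 (0 : ℝ) (1 : ℝ)‖ = ‖(1 : ℝ)‖ :=
      lp.norm_single (by norm_num) _ _
    rw [h] at h1
    simp at h1
  exact NormedSpace.unbounded_univ ℝ _ hb

end Pool.Agent.S04698
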