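import Pool.Statements.S04915
import Pool.Agent.W_MP_68deb0_h42.Main

set_option autoImplicit false
open Topology
open Pool Pool.MP_68deb0_an

namespace Pool.Agent.S04915

/-- There is a complete, Hausdorff, metrizable, locally bounded real topological vector space that is not locally convex (a non-normable quasi-Banach space) which is uniformly homeomorphic to some real Banach space. -/
theorem result :
    ∃ (E : Type) (_ : AddCommGroup E) (_ : Module ℝ E) (_ : UniformSpace E)
      (_ : IsUniformAddGroup E) (_ : ContinuousSMul ℝ E) (_ : T2Space E)
      (_ : FirstCountableTopology E) (_ : CompleteSpace E),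
      (∃ U ∈ 𝓝 (0 : E), Bornology.IsVonNBounded ℝ U) ∧
      ¬ LocallyConvexSpace ℝ E ∧
      ∃ (F : Type) (_ : NormedAddCommGroup F) (_ : NormedSpace ℝ F) (_ : CompleteSpace F),
        Nonempty (UniformEquiv E F) :=
  Pool.Agent.W_MP_68deb0_h42.goal

end Pool.Agent.S04915
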