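import Pool.Statements.S05129
import Pool.Agent.W_MP_7b81ff_an.Two

set_option autoImplicit false
open Pool Pool.MP_7b81ff_an

namespace Pool.Agent.S05129

open Module in
/-- the three properties for a given predicate of structures and a given closeness relation -/
lemma core {E : Type} [NormedAddCommGroup E] [NormedSpace ℂ E] [FiniteDimensional ℂ E] :
    (((∃ D : ℕ → W_MP_7b81ff_an.MatNorms E, (∀ i, W_MP_7b81ff_an.IsOS (D i)) ∧
          ∀ N : W_MP_7b81ff_an.MatNorms E, W_MP_7b81ff_an.IsOS N → ∀ ε : ℝ, 0 < ε → ∃ i, W_MP_7b81ff_an.Dlt N (D i) (1 + ε)) ↔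
        (∀ S : ℕ → W_MP_7b81ff_an.MatNorms E, (∀ j, W_MP_7b81ff_an.IsOS (S j)) →
          ∃ N : W_MP_7b81ff_an.MatNorms E, W_MP_7b81ff_an.IsOS N ∧ ∃ φ : ℕ → ℕ, StrictMono φ ∧
            ∀ ε : ℝ, 0 < ε → ∃ J : ℕ, ∀ j, J ≤ j → W_MP_7b81ff_an.Dlt (S (φ j)) N (1 + ε))) ∧
     ((∀ S : ℕ → W_MP_7b81ff_an.MatNorms E, (∀ j, W_MP_7b81ff_an.IsOS (S j)) →
          ∃ N : W_MP_7b81ff_an.MatNorms E, W_MP_7b81ff_an.IsOS N ∧ ∃ φ : ℕ → ℕ, StrictMono φ ∧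
            ∀ ε : ℝ, 0 < ε → ∃ J : ℕ, ∀ j, J ≤ j → W_MP_7b81ff_an.Dlt (S (φ j)) N (1 + ε)) ↔
        (∀ N N' : W_MP_7b81ff_an.MatNorms E, W_MP_7b81ff_an.IsOS N → W_MP_7b81ff_an.IsOS N' → ∀ ε : ℝ, 0 < ε →
          W_MP_7b81ff_an.Dlt N N' (1 + ε)))) := by
  -- dichotomy
  have hdich : (∀ N N' : W_MP_7b81ff_an.MatNorms E, W_MP_7b81ff_an.IsOS N →
      W_MP_7b81ff_an.IsOS N' → N = N') ∨
      ∃ NN : Set ℕ → W_MP_7b81ff_an.MatNorms E, (∀ I, W_MP_7b81ff_an.IsOS (NN I)) ∧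
        ∃ δ : ℝ, 0 < δ ∧ ∀ D : W_MP_7b81ff_an.MatNorms E, W_MP_7b81ff_an.IsOS D →
          {I : Set ℕ | W_MP_7b81ff_an.Dlt (NN I) D (1 + δ)}.Finite := by
    by_cases h3 : 3 ≤ finrank ℂ E
    · right
      obtain ⟨v, δ, hδ, hOS, hfin⟩ := W_MP_7b81ff_an.finite_close h3
      exact ⟨W_MP_7b81ff_an.NI v, hOS, δ, hδ, hfin⟩
    · by_cases h2 : finrank ℂ E = 2
      · exact W_MP_7b81ff_an.dichotomy_two h2
      · left
        intro N N' hN hN'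
        exact W_MP_7b81ff_an.unique_of_finrank_le_one (by omega) hN hN'
  rcases hdich with huniq | ⟨NN, hOS, δ, hδ, hfin⟩
  · -- a single structure
    have hone : ∀ N N' : W_MP_7b81ff_an.MatNorms E, W_MP_7b81ff_an.IsOS N →
        W_MP_7b81ff_an.IsOS N' → ∀ ε : ℝ, 0 < ε → W_MP_7b81ff_an.Dlt N N' (1 + ε) := by
      intro N N' hN hN' ε hε
      have heq : N = N' := huniq N N' hN hN'
      subst heq
      exact ⟨LinearEquiv.refl ℂ E, 1, 1, by linarith, fun k x => by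
        constructor
        · have : (x.map fun e => (LinearEquiv.refl ℂ E) e) = x := by ext i j; simp
          rw [this, one_mul]
        · have : (x.map fun e => (LinearEquiv.refl ℂ E).symm e) = x := by ext i j; simp
          rw [this, one_mul]⟩
    have hcomp : ∀ S : ℕ → W_MP_7b81ff_an.MatNorms E, (∀ j, W_MP_7b81ff_an.IsOS (S j)) →
          ∃ N : W_MP_7b81ff_an.MatNorms E, W_MP_7b81ff_an.IsOS N ∧ ∃ φ : ℕ → ℕ, StrictMono φ ∧
            ∀ ε : ℝ, 0 < ε → ∃ J : ℕ, ∀ j, J ≤ j → W_MP_7b81ff_an.Dlt (S (φ j)) N (1 + ε) := by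
      intro S hS
      exact ⟨S 0, hS 0, id, strictMono_id, fun ε hε => ⟨0, fun j _ => hone _ _ (hS _) (hS 0) ε hε⟩⟩
    have hv : ∀ e : E, ∑ i : Fin 3, ‖(0 : Fin 3 → (E →L[ℂ] ℂ)) i e‖ ^ 2 ≤ ‖e‖ ^ 2 := by
      intro e; simp
    have hM := W_MP_7b81ff_an.NI_isOS hv ∅
    exact ⟨iff_of_true ⟨fun _ => W_MP_7b81ff_an.NI 0 ∅, fun _ => hM, fun N hN ε hε =>
      ⟨0, hone N _ hN hM ε hε⟩⟩ hcomp, iff_of_true hcomp hone⟩
  · -- many structures
    have nonsep : ¬ (∃ D : ℕ → W_MP_7b81ff_an.MatNorms E, (∀ i, W_MP_7b81ff_an.IsOS (D i)) ∧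
          ∀ N : W_MP_7b81ff_an.MatNorms E, W_MP_7b81ff_an.IsOS N → ∀ ε : ℝ, 0 < ε → ∃ i,
            W_MP_7b81ff_an.Dlt N (D i) (1 + ε)) := by
      rintro ⟨D, hD, hdense⟩
      have hcov : (Set.univ : Set (Set ℕ)) ⊆
          ⋃ i, {I : Set ℕ | W_MP_7b81ff_an.Dlt (NN I) (D i) (1 + δ)} := by
        intro I _
        obtain ⟨i, hi⟩ := hdense (NN I) (hOS I) δ hδ
        exact Set.mem_iUnion.2 ⟨i, hi⟩
      have hc : (Set.univ : Set (Set ℕ)).Countable :=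
        (Set.countable_iUnion fun i => (hfin (D i) (hD i)).countable).mono hcov
      have : Countable (Set ℕ) := Set.countable_univ_iff.1 hc
      obtain ⟨g, hg⟩ := exists_surjective_nat (Set ℕ)
      exact Function.cantor_surjective g hg
    have noncomp : ¬ (∀ S : ℕ → W_MP_7b81ff_an.MatNorms E, (∀ j, W_MP_7b81ff_an.IsOS (S j)) →
          ∃ N : W_MP_7b81ff_an.MatNorms E, W_MP_7b81ff_an.IsOS N ∧ ∃ φ : ℕ → ℕ, StrictMono φ ∧
            ∀ ε : ℝ, 0 < ε → ∃ J : ℕ, ∀ j, J ≤ j →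
              W_MP_7b81ff_an.Dlt (S (φ j)) N (1 + ε)) := by
      intro hcomp
      obtain ⟨N, hN, φ, hφ, hlim⟩ := hcomp (fun j => NN {j}) (fun j => hOS {j})
      obtain ⟨J, hJ⟩ := hlim δ hδ
      have hsub : (fun j => ({φ (J + j)} : Set ℕ)) '' Set.univ ⊆
          {I : Set ℕ | W_MP_7b81ff_an.Dlt (NN I) N (1 + δ)} := by
        rintro _ ⟨j, -, rfl⟩
        exact hJ (J + j) (Nat.le_add_right J j)
      have hinj : Function.Injective fun j => ({φ (J + j)} : Set ℕ) := by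
        intro a b hab
        have h1 : φ (J + a) = φ (J + b) := Set.singleton_injective hab
        have h2 := hφ.injective h1
        omega
      exact (Set.infinite_univ.image hinj.injOn) ((hfin N hN).subset hsub)
    have nonuniq : ¬ (∀ N N' : W_MP_7b81ff_an.MatNorms E, W_MP_7b81ff_an.IsOS N →
        W_MP_7b81ff_an.IsOS N' → ∀ ε : ℝ, 0 < ε → W_MP_7b81ff_an.Dlt N N' (1 + ε)) := by
      intro huniq
      have hall : {I : Set ℕ | W_MP_7b81ff_an.Dlt (NN I) (NN ∅) (1 + δ)} = Set.univ := by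
        ext I
        simp only [Set.mem_univ, iff_true]
        exact huniq _ _ (hOS I) (hOS ∅) δ hδ
      have h1 := hfin (NN ∅) (hOS ∅)
      rw [hall] at h1
      exact Set.infinite_univ h1
    exact ⟨iff_of_false nonsep noncomp, iff_of_false noncomp nonuniq⟩

/-- For every finite-dimensional complex normed space, the space of its operator space structures with the cb Banach–Mazur distance is separable iff it is compact iff any two structures are completely isometric. -/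
theorem result :
  ∀ (E : Type) [NormedAddCommGroup E] [NormedSpace ℂ E] [FiniteDimensional ℂ E]
    (IsOS : (∀ k : ℕ, Matrix (Fin k) (Fin k) E → ℝ) → Prop)
    (Dlt : (∀ k : ℕ, Matrix (Fin k) (Fin k) E → ℝ) →
      (∀ k : ℕ, Matrix (Fin k) (Fin k) E → ℝ) → ℝ → Prop),
    (∀ N, IsOS N ↔
      ((∀ x : E, N 1 (Matrix.of fun _ _ => x) = ‖x‖) ∧
       (∀ (k : ℕ) (x y : Matrix (Fin k) (Fin k) E), N k (x + y) ≤ N k x + N k y) ∧
       (∀ (k : ℕ) (c : ℂ) (x : Matrix (Fin k) (Fin k) E), N k (c • x) = ‖c‖ * N k x) ∧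
       (∀ (k m : ℕ) (x : Matrix (Fin k) (Fin k) E) (y : Matrix (Fin m) (Fin m) E),
          N (k + m) (Matrix.reindex finSumFinEquiv finSumFinEquiv (Matrix.fromBlocks x 0 0 y))
            = max (N k x) (N m y)) ∧
       (∀ (k m : ℕ) (α : Matrix (Fin k) (Fin m) ℂ) (β : Matrix (Fin m) (Fin k) ℂ)
          (x : Matrix (Fin m) (Fin m) E) (a b : ℝ), 0 ≤ a → 0 ≤ b →
          (∀ v : Fin m → ℂ, ∑ i, ‖∑ p, α i p * v p‖ ^ 2 ≤ a ^ 2 * ∑ p, ‖v p‖ ^ 2) →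
          (∀ v : Fin k → ℂ, ∑ q, ‖∑ j, β q j * v j‖ ^ 2 ≤ b ^ 2 * ∑ j, ‖v j‖ ^ 2) →
          N k (Matrix.of fun i j => ∑ p, ∑ q, (α i p * β q j) • x p q) ≤ a * N m x * b))) →
    (∀ N N' t, Dlt N N' t ↔
      ∃ u : E ≃ₗ[ℂ] E, ∃ a b : ℝ, a * b < t ∧
        ∀ (k : ℕ) (x : Matrix (Fin k) (Fin k) E),
          N' k (x.map fun e => u e) ≤ a * N k x ∧
          N k (x.map fun e => u.symm e) ≤ b * N' k x) →
    (((∃ D : ℕ → (∀ k : ℕ, Matrix (Fin k) (Fin k) E → ℝ), (∀ i, IsOS (D i)) ∧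
          ∀ N, IsOS N → ∀ ε : ℝ, 0 < ε → ∃ i, Dlt N (D i) (1 + ε)) ↔
        (∀ S : ℕ → (∀ k : ℕ, Matrix (Fin k) (Fin k) E → ℝ), (∀ j, IsOS (S j)) →
          ∃ N, IsOS N ∧ ∃ φ : ℕ → ℕ, StrictMono φ ∧
            ∀ ε : ℝ, 0 < ε → ∃ J : ℕ, ∀ j, J ≤ j → Dlt (S (φ j)) N (1 + ε))) ∧
     ((∀ S : ℕ → (∀ k : ℕ, Matrix (Fin k) (Fin k) E → ℝ), (∀ j, IsOS (S j)) →
          ∃ N, IsOS N ∧ ∃ φ : ℕ → ℕ, StrictMono φ ∧
            ∀ ε : ℝ, 0 < ε → ∃ J : ℕ, ∀ j, J ≤ j → Dlt (S (φ j)) N (1 + ε)) ↔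
        (∀ N N', IsOS N → IsOS N' → ∀ ε : ℝ, 0 < ε → Dlt N N' (1 + ε)))) := by
  intro E _ _ _ IsOS Dlt hOS hDlt
  have h1 : IsOS = W_MP_7b81ff_an.IsOS := by
    funext N
    exact propext (hOS N)
  have h2 : Dlt = W_MP_7b81ff_an.Dlt := by
    funext N N' t
    exact propext (hDlt N N' t)
  subst h1
  subst h2
  exact core

end Pool.Agent.S05129
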