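import Pool.Statements.S06315
-- import your own Pool.Agent.* helpers here
import Pool.Agent.W_MP_d6e406_h11.Main
import Pool.Agent.W_MP_d6e406_h11.Renorm
import Pool.Agent.W_MP_d6e406_h11.Easy

set_option autoImplicit false
open Pool Pool.MP_d6e406_an

namespace Pool.Agent.S06315

/-- A separable real Banach space contains no isomorphic copy of ℓ1 iff it has an equivalent norm whose dual norm's unit-sphere points are all extreme points of the dual ball and points of weak-to-norm continuity on that ball. -/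
theorem result : ∀ (X : Type) [NormedAddCommGroup X] [NormedSpace ℝ X] [CompleteSpace X] [TopologicalSpace.SeparableSpace X],
    (¬ ∃ T : lp (fun _ : ℕ => ℝ) 1 →L[ℝ] X, ∃ c : ℝ, 0 < c ∧ ∀ y, c * ‖y‖ ≤ ‖T y‖) ↔
    ∃ N : X → ℝ, (∀ x y, N (x + y) ≤ N x + N y) ∧ (∀ (r : ℝ) (x : X), N (r • x) = |r| * N x) ∧
      (∃ c C : ℝ, 0 < c ∧ ∀ x, c * ‖x‖ ≤ N x ∧ N x ≤ C * ‖x‖) ∧
      ∀ f : X →L[ℝ] ℝ, (∀ x, f x ≤ N x) → (∀ ε : ℝ, 0 < ε → ∃ x, N x ≤ 1 ∧ 1 - ε < f x) →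
        (f ∈ Set.extremePoints ℝ {g : X →L[ℝ] ℝ | ∀ x, g x ≤ N x} ∧
         ∀ ε : ℝ, 0 < ε → ∃ F : Finset ((X →L[ℝ] ℝ) →L[ℝ] ℝ), ∃ δ : ℝ, 0 < δ ∧
           ∀ g : X →L[ℝ] ℝ, (∀ x, g x ≤ N x) → (∀ φ ∈ F, |φ (g - f)| < δ) → ‖g - f‖ < ε) := by
  intro X _ _ _ _
  constructor
  · intro hX
    obtain ⟨C, hC, hf⟩ := Pool.Agent.W_MP_d6e406_h11.good_ball_all (X := X) hX
    exact Pool.Agent.W_MP_d6e406_h11.renorm C hC hf
  · intro h
    exact Pool.Agent.W_MP_d6e406_h11.not_hasEll1_of_norm X h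

end Pool.Agent.S06315
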