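import Pool.Statements.S06876
import Pool.Agent.W_012456_h37.Two

set_option autoImplicit false
open Pool Pool.MP_012456_co

namespace Pool.Agent.S06876

/-- The negation of the preceding statement: For every finite graph with list chromatic number k, every t ≤ k and every assignment of t-element colour lists, some set of at least tn/k vertices can be properly coloured from their lists. -/
theorem result :
    ¬ (∀ (V : Type) [Fintype V] (G : SimpleGraph V) (k : ℕ),
    (∀ L : V → Finset ℕ, (∀ v, (L v).card = k) →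
      ∃ c : V → ℕ, (∀ v, c v ∈ L v) ∧ ∀ u v, G.Adj u v → c u ≠ c v) →
    (∀ m < k, ¬ ∀ L : V → Finset ℕ, (∀ v, (L v).card = m) →
      ∃ c : V → ℕ, (∀ v, c v ∈ L v) ∧ ∀ u v, G.Adj u v → c u ≠ c v) →
    ∀ t ≤ k, ∀ L : V → Finset ℕ, (∀ v, (L v).card = t) →
      ∃ S : Finset V, ∃ c : V → ℕ,
        (∀ v ∈ S, c v ∈ L v) ∧
        (∀ u ∈ S, ∀ v ∈ S, G.Adj u v → c u ≠ c v) ∧
        t * Fintype.card V ≤ k * S.card) := by
  intro hmain
  have h := hmain W_012456_h37.Vtx W_012456_h37.H 3 W_012456_h37.choosable ?_ 2 (by norm_num)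
    W_012456_h37.L2 W_012456_h37.card_L2
  · obtain ⟨S, c, h1, h2, h3⟩ := h
    have h9 := W_012456_h37.card_le_nine h1 h2
    have hc : Fintype.card W_012456_h37.Vtx = 14 := by decide
    rw [hc] at h3
    omega
  · -- fewer than three colours do not suffice: each block is a triangle
    intro m hm hch
    have hsub : ∃ c : W_012456_h37.Vtx → ℕ, (∀ v, c v < 2) ∧
        ∀ u v, W_012456_h37.H.Adj u v → c u ≠ c v := by
      obtain ⟨c, hc1, hc2⟩ := hch (fun _ => Finset.range m) (fun _ => Finset.card_range m)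
      refine ⟨c, fun v => ?_, hc2⟩
      have := Finset.mem_range.mp (hc1 v)
      omega
    obtain ⟨c, hc1, hc2⟩ := hsub
    have e01 := hc2 (Sum.inr ((false, false), 0)) (Sum.inr ((false, false), 1)) ⟨rfl, by simp⟩
    have e02 := hc2 (Sum.inr ((false, false), 0)) (Sum.inr ((false, false), 2)) ⟨rfl, by simp⟩
    have e12 := hc2 (Sum.inr ((false, false), 1)) (Sum.inr ((false, false), 2)) ⟨rfl, by simp⟩
    have l0 := hc1 (Sum.inr ((false, false), 0))
    have l1 := hc1 (Sum.inr ((false, false), 1))
    have l2 := hc1 (Sum.inr ((false, false), 2))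
    omega

end Pool.Agent.S06876
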