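-- Proof of the frozen statement S07144 (the theorem Pool.MP_0c5e58_co.not_main).
import Pool.Statements.S07144
import Pool.Agent.W_0c5e58_h33.Sum
import Pool.Agent.W_0c5e58_h33.ClaimM
import Pool.Agent.W_0c5e58_h99.SFinal

set_option autoImplicit false
open MeasureTheory
open scoped ENNReal
open Pool Pool.MP_0c5e58_co

namespace Pool.Agent.S07144

/-- The negation of the preceding statement: For every compact convex plane set K with nonempty interior there is h>0 such that the congruent-copy packing density (sup of upper densities) of the 3D cylinder K×[0,h] equals that of K in the plane. -/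
theorem result :
    ¬ (∀ K : Set (EuclideanSpace ℝ (Fin 2)), IsCompact K → Convex ℝ K → (interior K).Nonempty →
    ∃ h : ℝ, 0 < h ∧
      sSup {d : ℝ≥0∞ | ∃ P : Set (Set (EuclideanSpace ℝ (Fin 3))),
          (∀ A ∈ P, ∃ g : EuclideanSpace ℝ (Fin 3) ≃ᵢ EuclideanSpace ℝ (Fin 3),
             A = g '' {x : EuclideanSpace ℝ (Fin 3) |
               WithLp.toLp 2 (fun i : Fin 2 => WithLp.ofLp x (Fin.castSucc i)) ∈ K ∧
               0 ≤ WithLp.ofLp x 2 ∧ WithLp.ofLp x 2 ≤ h}) ∧
          P.Pairwise (fun A B => Disjoint (interior A) (interior B)) ∧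
          d = Filter.limsup (fun r : ℝ =>
                volume (⋃₀ P ∩ Metric.ball (0 : EuclideanSpace ℝ (Fin 3)) r) /
                volume (Metric.ball (0 : EuclideanSpace ℝ (Fin 3)) r)) Filter.atTop}
      =
      sSup {d : ℝ≥0∞ | ∃ P : Set (Set (EuclideanSpace ℝ (Fin 2))),
          (∀ A ∈ P, ∃ g : EuclideanSpace ℝ (Fin 2) ≃ᵢ EuclideanSpace ℝ (Fin 2), A = g '' K) ∧
          P.Pairwise (fun A B => Disjoint (interior A) (interior B)) ∧
          d = Filter.limsup (fun r : ℝ =>
                volume (⋃₀ P ∩ Metric.ball (0 : EuclideanSpace ℝ (Fin 2)) r) /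
                volume (Metric.ball (0 : EuclideanSpace ℝ (Fin 2)) r)) Filter.atTop}) :=
  Pool.Cyl.final Pool.Cyl.claimP Pool.CylS.claimS Pool.Cyl.claimM

end Pool.Agent.S07144
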