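import Pool.Statements.S07313
import Pool.Agent.W_MP_1501a3_co.Final

set_option autoImplicit false
open Pool Pool.MP_1501a3_co

namespace Pool.Agent.S07313

/-- There exist c > 0 and l < 2 such that every finite graph G whose connectivity drops to exactly k − ∣X∣ after deleting any set X of at most 3 vertices has at most c·k^l vertices. -/
theorem result :
    ∃ c : ℝ, 0 < c ∧ ∃ l : ℝ, l < 2 ∧
      ∀ (n : ℕ) (G : SimpleGraph (Fin n)) (k : ℕ),
        (∀ X : Finset (Fin n), X.card ≤ 3 →
          ∃ j : ℕ, (j : ℤ) = (k : ℤ) - (X.card : ℤ) ∧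
            (j < (Xᶜ).card ∧
              ∀ S : Finset (Fin n), Disjoint S X → S.card < j →
                (G.induce (((X ∪ S : Finset (Fin n)) : Set (Fin n))ᶜ)).Connected) ∧
            ¬ (j + 1 < (Xᶜ).card ∧
              ∀ S : Finset (Fin n), Disjoint S X → S.card < j + 1 →
                (G.induce (((X ∪ S : Finset (Fin n)) : Set (Fin n))ᶜ)).Connected)) →
        (n : ℝ) ≤ c * (k : ℝ) ^ l := by
  refine ⟨18, by norm_num, 7 / 4, by norm_num, ?_⟩
  intro n G k h
  exact Pool.Agent.W_MP_1501a3_co.main n G k h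

end Pool.Agent.S07313
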