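-- Proof of the frozen statement S07324: a graph that is (3,1)-DP-colorable but not (6,2)-DP-colorable.
import Pool.Statements.S07324
import Pool.Agent.W_MP_15691b_co.PartOne
import Pool.Agent.W_MP_15691b_co.PartTwo

set_option autoImplicit false
open Pool Pool.MP_15691b_co

namespace Pool.Agent.S07324

/-- The negation of the preceding statement: For every finite graph G and all a, b and t ≥ 1: if every a-fold DP cover of G has an independent transversal picking b vertices per fibre, then every at-fold DP cover has one picking bt vertices per fibre. -/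
theorem result :
    ¬ (∀ (V : Type) [Fintype V] (G : SimpleGraph V) (a b t : ℕ), 1 ≤ t →
      (∀ H : SimpleGraph (V × Fin a),
          (∀ x y : V × Fin a, H.Adj x y → G.Adj x.1 y.1) →
          (∀ (x : V × Fin a) (v : V) (j k : Fin a), H.Adj x (v, j) → H.Adj x (v, k) → j = k) →
          ∃ f : V → Finset (Fin a), (∀ v, (f v).card = b) ∧
            ∀ (u v : V), ∀ i ∈ f u, ∀ j ∈ f v, ¬ H.Adj (u, i) (v, j)) →
      (∀ H : SimpleGraph (V × Fin (a * t)),
          (∀ x y : V × Fin (a * t), H.Adj x y → G.Adj x.1 y.1) →
          (∀ (x : V × Fin (a * t)) (v : V) (j k : Fin (a * t)), H.Adj x (v, j) → H.Adj x (v, k) → j = k) →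
          ∃ f : V → Finset (Fin (a * t)), (∀ v, (f v).card = b * t) ∧
            ∀ (u v : V), ∀ i ∈ f u, ∀ j ∈ f v, ¬ H.Adj (u, i) (v, j))) := by
  intro h
  have h1 := h W_MP_15691b_co.V W_MP_15691b_co.G 3 1 2 (by norm_num)
    W_MP_15691b_co.colorable_three W_MP_15691b_co.H
    W_MP_15691b_co.hadj_gadj W_MP_15691b_co.H_matching
  exact W_MP_15691b_co.not_colorable_six h1

end Pool.Agent.S07324
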