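import Pool.Statements.S07497

/-!
# Linear pebbling bound for odd graphs

We prove that every configuration of at least `12 * choose (2t+1) t` pebbles on the odd graph
`K(2t+1,t)` can reach every target vertex.

Idea of the proof.

* Weight lemma (`weight_lemma`): let `T` be a tree in the graph rooted at the target `r`, with
  weights doubling from each vertex to its parent. If the weighted number of pebbles exceeds the
  total weight of the tree, then `r` can be reached.
* Sparse trees (`nodes`, `phi`): up to depth `i ≤ t` we embed a tree whose nodes at depth `m` are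
  words of length `m` over `{1,2,3}`; the letters are the gaps between consecutive elements added
  alternately outside `r` and inside `r`. There are at most `3^m` nodes at depth `m`, and at least
  `3^i/4` leaves at depth `i` (the involution `g ↦ 4 - g` shows that at least half of the words
  stay within range). So the total weight is less than `3^(i+1) ≤ 12 * #leaves`.
* Averaging (`averaging`): the stabiliser of `r` acts transitively on each distance level, so a
  level holding at least `12` pebbles per vertex on average is carried to some translate of the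
  tree whose leaves hold at least `12 * #leaves` pebbles.
* Pigeonhole over the levels.
-/

set_option autoImplicit false
open Pool Pool.MP_1d3ff8_co

namespace Pool.Agent.S07497


/-- one pebbling move along adj -/
def Step {V : Type*} [DecidableEq V] (adj : V → V → Prop) (A B : V → ℕ) : Prop :=
  ∃ u v : V, u ≠ v ∧ adj u v ∧ B + Pi.single u 2 = A + Pi.single v 1

theorem weight_lemma {V ι : Type*} [Fintype V] [DecidableEq V]
    (adj : V → V → Prop) (S : Finset ι) (φ : ι → V)
    (hφ : Set.InjOn φ S) (par : ι → ι) (w : ι → ℕ) (r : V)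
    (hadj : ∀ i ∈ S, φ i ≠ φ (par i) ∧ adj (φ i) (φ (par i)))
    (hpar : ∀ i ∈ S, φ (par i) = r ∨ (par i ∈ S ∧ w (par i) = 2 * w i)) :
    ∀ (n : ℕ) (D : V → ℕ), ∑ v, D v = n → ∑ i ∈ S, w i < ∑ i ∈ S, w i * D (φ i) →
      ∃ E : V → ℕ, Relation.ReflTransGen (Step adj) D E ∧ 1 ≤ E r := by
  classical
  intro n
  induction n using Nat.strong_induction_on with
  | _ n ih =>
    intro D hD hlt
    obtain ⟨i, hiS, hi⟩ : ∃ i ∈ S, w i < w i * D (φ i) := by
      by_contra hcon
      push Not at hcon
      exact absurd hlt (not_lt.mpr (Finset.sum_le_sum hcon))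
    have hD2 : 2 ≤ D (φ i) := by
      by_contra hcon
      push Not at hcon
      have h1 : D (φ i) ≤ 1 := by omega
      have h2 := Nat.mul_le_mul_left (w i) h1
      omega
    obtain ⟨hne, hadj'⟩ := hadj i hiS
    let D' : V → ℕ := fun x => (D x - (Pi.single (φ i) 2 : V → ℕ) x) + (Pi.single (φ (par i)) 1 : V → ℕ) x
    have hstepeq : D' + Pi.single (φ i) 2 = D + Pi.single (φ (par i)) 1 := by
      funext x
      simp only [D', Pi.add_apply]
      by_cases hx : x = φ i
      · subst hx
        simp only [Pi.single_eq_same]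
        omega
      · simp [Pi.single_apply, hx]
    have hstep : Step adj D D' := ⟨φ i, φ (par i), hne, hadj', hstepeq⟩
    rcases hpar i hiS with hr | ⟨hpS, hwp⟩
    · refine ⟨D', Relation.ReflTransGen.single hstep, ?_⟩
      have : D' r = (D r - (Pi.single (φ i) 2 : V → ℕ) r) + 1 := by
        simp only [D', ← hr, Pi.single_eq_same]
      omega
    · have hsum : ∑ x, D' x + 2 = ∑ x, D x + 1 := by
        have h1 : ∑ x, (D' + Pi.single (φ i) 2 : V → ℕ) x = ∑ x, (D + Pi.single (φ (par i)) 1 : V → ℕ) x := by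
          rw [hstepeq]
        simpa only [Pi.add_apply, Finset.sum_add_distrib, Finset.sum_pi_single', Finset.mem_univ,
          if_true] using h1
      have hwsum : ∑ j ∈ S, w j * D' (φ j) + w i * 2 = ∑ j ∈ S, w j * D (φ j) + w (par i) * 1 := by
        have h1 : ∑ j ∈ S, w j * (D' + Pi.single (φ i) 2 : V → ℕ) (φ j)
            = ∑ j ∈ S, w j * (D + Pi.single (φ (par i)) 1 : V → ℕ) (φ j) := by rw [hstepeq]
        simp only [Pi.add_apply, mul_add, Finset.sum_add_distrib] at h1
        have h2 : ∀ k ∈ S, ∀ c : ℕ, ∑ j ∈ S, w j * (Pi.single (φ k) c : V → ℕ) (φ j) = w k * c := by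
          intro k hk c
          rw [Finset.sum_eq_single_of_mem k hk]
          · simp
          · intro j hj hji
            have : φ j ≠ φ k := fun h => hji (hφ hj hk h)
            simp [Pi.single_apply, this]
        rw [h2 i hiS 2, h2 (par i) hpS 1] at h1
        exact h1
      have hlt' : ∑ j ∈ S, w j < ∑ j ∈ S, w j * D' (φ j) := by omega
      obtain ⟨E, hE, hE1⟩ := ih (∑ x, D' x) (by omega) D' rfl hlt'
      exact ⟨E, Relation.ReflTransGen.head hstep hE, hE1⟩



/-- total gap of a word -/
def tot (l : List (Fin 3)) : ℕ := (l.map (fun a : Fin 3 => a.val + 1)).sum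

@[simp] lemma tot_nil : tot [] = 0 := rfl
@[simp] lemma tot_cons (a : Fin 3) (l : List (Fin 3)) : tot (a :: l) = a.val + 1 + tot l := by
  simp [tot]

/-- set of the sums of the final segments of a word (newest letter is the head) -/
def P : List (Fin 3) → Finset ℕ
  | [] => ∅
  | (a :: l) => insert (tot (a :: l)) (P l)

lemma P_le (l : List (Fin 3)) : ∀ z ∈ P l, 1 ≤ z ∧ z ≤ tot l := by
  induction l with
  | nil => intro z hz; simp [P] at hz
  | cons a l ih =>
    intro z hz
    simp only [P, Finset.mem_insert, tot_cons] at hz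
    rcases hz with rfl | hz
    · simp only [tot_cons]; omega
    · have := ih z hz
      simp only [tot_cons]; omega

lemma tot_notMem (a : Fin 3) (l : List (Fin 3)) : tot (a :: l) ∉ P l := by
  intro h
  have := P_le l _ h
  simp only [tot_cons] at this
  omega

lemma P_card (l : List (Fin 3)) : (P l).card = l.length := by
  induction l with
  | nil => rfl
  | cons a l ih =>
    rw [P, Finset.card_insert_of_notMem (tot_notMem a l), ih, List.length_cons]

lemma P_tail (l : List (Fin 3)) : P l.tail ⊆ P l := by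
  cases l with
  | nil => simp
  | cons a l => simp only [List.tail_cons, P]; exact Finset.subset_insert _ _

lemma P_inj : ∀ (l l' : List (Fin 3)), P l = P l' → l = l' := by
  intro l
  induction l with
  | nil =>
    intro l' h
    have := congrArg Finset.card h
    rw [P_card, P_card] at this
    simp only [List.length_nil] at this
    exact (List.length_eq_zero_iff.mp this.symm).symm
  | cons a l ih =>
    intro l' h
    cases l' with
    | nil =>
      have := congrArg Finset.card h
      rw [P_card, P_card] at this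
      simp at this
    | cons b l' =>
      have h1 : tot (a :: l) ≤ tot (b :: l') := by
        have : tot (a :: l) ∈ P (b :: l') := by rw [← h]; simp [P]
        exact (P_le _ _ this).2
      have h2 : tot (b :: l') ≤ tot (a :: l) := by
        have : tot (b :: l') ∈ P (a :: l) := by rw [h]; simp [P]
        exact (P_le _ _ this).2
      have h3 : tot (a :: l) = tot (b :: l') := le_antisymm h1 h2
      have h4 : P l = P l' := by
        have e1 : (P (a :: l)).erase (tot (a :: l)) = P l := by
          rw [P, Finset.erase_insert (tot_notMem a l)]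
        have e2 : (P (b :: l')).erase (tot (b :: l')) = P l' := by
          rw [P, Finset.erase_insert (tot_notMem b l')]
        rw [← e1, ← e2, h, h3]
      have h5 := ih l' h4
      subst h5
      simp only [tot_cons] at h3
      have : a = b := by
        apply Fin.ext; omega
      rw [this]

/-- words of length k -/
def words (k : ℕ) : Finset (List (Fin 3)) :=
  (Finset.univ : Finset (Fin k → Fin 3)).image List.ofFn

lemma mem_words (k : ℕ) (l : List (Fin 3)) : l ∈ words k ↔ l.length = k := by
  rw [words, Finset.mem_image]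
  constructor
  · rintro ⟨v, -, rfl⟩; exact List.length_ofFn
  · intro h
    subst h
    exact ⟨l.get, Finset.mem_univ _, List.ofFn_get l⟩

lemma card_words (k : ℕ) : (words k).card = 3 ^ k := by
  rw [words, Finset.card_image_of_injective _ List.ofFn_injective, Finset.card_univ]
  simp

/-- words of length k with total gap at most N -/
def good (N k : ℕ) : Finset (List (Fin 3)) := (words k).filter (fun l => tot l ≤ N)

lemma mem_good (N k : ℕ) (l : List (Fin 3)) : l ∈ good N k ↔ l.length = k ∧ tot l ≤ N := by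
  rw [good, Finset.mem_filter, mem_words]

lemma good_card_le (N k : ℕ) : (good N k).card ≤ 3 ^ k := by
  rw [← card_words]; exact Finset.card_filter_le _ _

lemma tot_rev (l : List (Fin 3)) : tot (l.map Fin.rev) + tot l = 4 * l.length := by
  induction l with
  | nil => rfl
  | cons a l ih =>
    simp only [List.map_cons, tot_cons, List.length_cons, Fin.val_rev]
    have := a.2
    omega

lemma good_card_ge (N k : ℕ) (h : 2 * k ≤ N) : 3 ^ k ≤ 2 * (good N k).card := by
  have h1 : ((words k).filter (fun l => ¬ tot l ≤ N)).card ≤ (good N k).card := by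
    apply Finset.card_le_card_of_injOn (fun l => l.map Fin.rev)
    · intro l hl
      rw [Finset.mem_coe, Finset.mem_filter, mem_words] at hl
      simp only [Finset.mem_coe, mem_good, List.length_map]
      have := tot_rev l
      refine ⟨hl.1, ?_⟩
      omega
    · intro l _ l' _ hll
      exact List.map_injective_iff.mpr Fin.rev_injective hll
  have h2 := Finset.card_filter_add_card_filter_not (s := words k) (fun l => tot l ≤ N)
  rw [card_words] at h2
  have h3 : ((words k).filter (fun l => tot l ≤ N)).card = (good N k).card := rfl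
  omega

lemma good_tail (N k : ℕ) (l : List (Fin 3)) (h : l ∈ good N (k+1)) : l.tail ∈ good N k := by
  rw [mem_good] at h ⊢
  cases l with
  | nil => simp at h
  | cons a l =>
    simp only [List.length_cons, tot_cons, List.tail_cons] at h ⊢
    omega



section act
variable {Ω : Type*} [Fintype Ω] [DecidableEq Ω] {t : ℕ}

/-- action of a permutation on t-sets -/
def actE (g : Equiv.Perm Ω) : Equiv.Perm {s : Finset Ω // s.card = t} where
  toFun v := ⟨v.1.map g.toEmbedding, by rw [Finset.card_map]; exact v.2⟩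
  invFun v := ⟨v.1.map g.symm.toEmbedding, by rw [Finset.card_map]; exact v.2⟩
  left_inv v := by
    apply Subtype.ext
    simp only
    ext ω
    simp [Finset.mem_map_equiv]
  right_inv v := by
    apply Subtype.ext
    simp only
    ext ω
    simp [Finset.mem_map_equiv]

lemma mem_actE (g : Equiv.Perm Ω) (v : {s : Finset Ω // s.card = t}) (ω : Ω) :
    ω ∈ (actE g v).1 ↔ g.symm ω ∈ v.1 := by
  simp only [actE, Equiv.coe_fn_mk]
  rw [Finset.mem_map_equiv]

/-- stabiliser of r -/
def H (r : {s : Finset Ω // s.card = t}) : Finset (Equiv.Perm Ω) :=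
  Finset.univ.filter (fun g => actE g r = r)

lemma actE_mul (g h : Equiv.Perm Ω) (v : {s : Finset Ω // s.card = t}) :
    actE (g * h) v = actE g (actE h v) := by
  apply Subtype.ext
  ext ω
  rw [mem_actE, mem_actE, mem_actE]
  rfl

lemma actE_one (v : {s : Finset Ω // s.card = t}) : actE 1 v = v := by
  apply Subtype.ext
  ext ω
  rw [mem_actE]
  rfl

lemma mem_H (r : {s : Finset Ω // s.card = t}) (g : Equiv.Perm Ω) : g ∈ H r ↔ actE g r = r := by
  simp [H]

lemma mul_mem_H (r : {s : Finset Ω // s.card = t}) (g h : Equiv.Perm Ω) (hh : h ∈ H r) :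
    g * h ∈ H r ↔ g ∈ H r := by
  rw [mem_H] at hh
  rw [mem_H, mem_H, actE_mul, hh]

/-- the level of a vertex -/
def lev (r v : {s : Finset Ω // s.card = t}) : ℕ := (v.1 ∩ r.1).card

lemma lev_act (r : {s : Finset Ω // s.card = t}) (g : Equiv.Perm Ω) (hg : g ∈ H r)
    (v : {s : Finset Ω // s.card = t}) : lev r (actE g v) = lev r v := by
  rw [mem_H] at hg
  have h1 : (actE g v).1 ∩ r.1 = (v.1 ∩ r.1).map g.toEmbedding := by
    conv_lhs => rw [← hg]
    ext ω
    rw [Finset.mem_inter, mem_actE, mem_actE, Finset.mem_map_equiv, Finset.mem_inter]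
  rw [lev, h1, Finset.card_map, lev]

lemma trans_act (r u u' : {s : Finset Ω // s.card = t}) (h : lev r u = lev r u') :
    ∃ g ∈ H r, actE g u = u' := by
  classical
  let c : Ω → Prop × Prop := fun ω => (ω ∈ r.1, ω ∈ u.1)
  let c' : Ω → Prop × Prop := fun ω => (ω ∈ r.1, ω ∈ u'.1)
  have key : ∀ p : Prop × Prop, Fintype.card {ω // c ω = p} = Fintype.card {ω // c' ω = p} := by
    intro p
    have hu := u.2
    have hu' := u'.2
    have hr := r.2
    rw [Fintype.card_subtype, Fintype.card_subtype]
    obtain ⟨a, b⟩ := p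
    by_cases ha : a <;> by_cases hb : b
    · have e1 : (Finset.univ.filter (fun ω => c ω = (a, b))) = u.1 ∩ r.1 := by
        ext ω; simp [c, ha, hb, and_comm]
      have e2 : (Finset.univ.filter (fun ω => c' ω = (a, b))) = u'.1 ∩ r.1 := by
        ext ω; simp [c', ha, hb, and_comm]
      rw [e1, e2]; exact h
    · have e1 : (Finset.univ.filter (fun ω => c ω = (a, b))) = r.1 \ u.1 := by
        ext ω; simp [c, ha, hb]
      have e2 : (Finset.univ.filter (fun ω => c' ω = (a, b))) = r.1 \ u'.1 := by
        ext ω; simp [c', ha, hb]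
      rw [e1, e2, Finset.card_sdiff, Finset.card_sdiff]
      unfold lev at h
      rw [h]
    · have e1 : (Finset.univ.filter (fun ω => c ω = (a, b))) = u.1 \ r.1 := by
        ext ω; simp [c, ha, hb, and_comm]
      have e2 : (Finset.univ.filter (fun ω => c' ω = (a, b))) = u'.1 \ r.1 := by
        ext ω; simp [c', ha, hb, and_comm]
      rw [e1, e2, Finset.card_sdiff, Finset.card_sdiff, hu, hu', Finset.inter_comm r.1 u.1,
        Finset.inter_comm r.1 u'.1]
      unfold lev at h
      rw [h]
    · have e1 : (Finset.univ.filter (fun ω => c ω = (a, b))) = (r.1 ∪ u.1)ᶜ := by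
        ext ω; simp [c, ha, hb]
      have e2 : (Finset.univ.filter (fun ω => c' ω = (a, b))) = (r.1 ∪ u'.1)ᶜ := by
        ext ω; simp [c', ha, hb]
      rw [e1, e2, Finset.card_compl, Finset.card_compl]
      have f1 := Finset.card_union_add_card_inter r.1 u.1
      have f2 := Finset.card_union_add_card_inter r.1 u'.1
      unfold lev at h
      rw [Finset.inter_comm] at f1 f2
      omega
  let g : Equiv.Perm Ω := Equiv.ofFiberEquiv (f := c) (g := c') (fun p => Fintype.equivOfCardEq (key p))
  have hg : ∀ ω, c' (g ω) = c ω := fun ω => Equiv.ofFiberEquiv_map _ ω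
  have hg' : ∀ ω, c' ω = c (g.symm ω) := fun ω => by
    have := hg (g.symm ω)
    rwa [Equiv.apply_symm_apply] at this
  refine ⟨g, ?_, ?_⟩
  · rw [mem_H]
    apply Subtype.ext
    ext ω
    rw [mem_actE]
    have := congrArg Prod.fst (hg' ω)
    simp only [c, c'] at this
    rw [this]
  · apply Subtype.ext
    ext ω
    rw [mem_actE]
    have := congrArg Prod.snd (hg' ω)
    simp only [c, c'] at this
    rw [this]

lemma sum_const (r u u' : {s : Finset Ω // s.card = t}) (h : lev r u = lev r u')
    (D : {s : Finset Ω // s.card = t} → ℕ) :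
    ∑ g ∈ H r, D (actE g u) = ∑ g ∈ H r, D (actE g u') := by
  obtain ⟨k, hk, hku⟩ := trans_act r u u' h
  symm
  rw [← hku]
  apply Finset.sum_equiv (Equiv.mulRight k)
  · intro g
    rw [Equiv.coe_mulRight, mul_mem_H r g k hk]
  · intro g _
    rw [Equiv.coe_mulRight, actE_mul]

lemma level_sum (r : {s : Finset Ω // s.card = t}) (s : ℕ) (D : {s : Finset Ω // s.card = t} → ℕ) :
    ∑ u ∈ Finset.univ.filter (fun v => lev r v = s), ∑ g ∈ H r, D (actE g u)
      = (H r).card * ∑ u ∈ Finset.univ.filter (fun v => lev r v = s), D u := by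
  rw [Finset.sum_comm, ← smul_eq_mul, ← Finset.sum_const]
  apply Finset.sum_congr rfl
  intro g hg
  apply Finset.sum_equiv (actE g)
  · intro v
    rw [Finset.mem_filter, Finset.mem_filter, lev_act r g hg]
    simp
  · intro v _
    rfl

/-- averaging: some element of the stabiliser moves the set A to a rich set -/
lemma averaging {ι : Type*} (r : {s : Finset Ω // s.card = t}) (s c : ℕ)
    (D : {s : Finset Ω // s.card = t} → ℕ)
    (hne : (Finset.univ.filter (fun v => lev r v = s)).Nonempty)
    (hD : c * (Finset.univ.filter (fun v => lev r v = s)).card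
      ≤ ∑ u ∈ Finset.univ.filter (fun v => lev r v = s), D u)
    (A : Finset ι) (ψ : ι → {s : Finset Ω // s.card = t}) (hψ : ∀ i ∈ A, lev r (ψ i) = s) :
    ∃ g ∈ H r, c * A.card ≤ ∑ i ∈ A, D (actE g (ψ i)) := by
  by_contra hcon
  push Not at hcon
  set L := (Finset.univ.filter (fun v => lev r v = s)) with hL
  have hHne : (H r).Nonempty := ⟨1, by rw [mem_H]; exact actE_one r⟩
  have h1 : ∑ g ∈ H r, ∑ i ∈ A, D (actE g (ψ i)) < ∑ g ∈ H r, c * A.card :=
    Finset.sum_lt_sum_of_nonempty hHne hcon
  rw [Finset.sum_const, smul_eq_mul] at h1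
  obtain ⟨u0, hu0⟩ := hne
  have hu0' : lev r u0 = s := (Finset.mem_filter.mp hu0).2
  have h2 : ∑ g ∈ H r, ∑ i ∈ A, D (actE g (ψ i)) = A.card * ∑ g ∈ H r, D (actE g u0) := by
    rw [Finset.sum_comm, ← smul_eq_mul, ← Finset.sum_const]
    apply Finset.sum_congr rfl
    intro i hi
    exact sum_const r _ _ (by rw [hψ i hi, hu0']) D
  have h3 : L.card * ∑ g ∈ H r, D (actE g u0) = (H r).card * ∑ u ∈ L, D u := by
    rw [hL, ← level_sum, ← smul_eq_mul, ← Finset.sum_const]
    apply Finset.sum_congr rfl
    intro u hu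
    exact sum_const r _ _ (by rw [(Finset.mem_filter.mp hu).2, hu0']) D
  have hLpos : 0 < L.card := Finset.card_pos.mpr ⟨u0, hu0⟩
  rw [h2] at h1
  have h4 : L.card * (A.card * ∑ g ∈ H r, D (actE g u0)) < L.card * ((H r).card * (c * A.card)) :=
    Nat.mul_lt_mul_of_pos_left h1 hLpos
  have h5 : L.card * (A.card * ∑ g ∈ H r, D (actE g u0))
      = A.card * ((H r).card * ∑ u ∈ L, D u) := by
    rw [← h3]; ring
  have h6 : A.card * ((H r).card * (c * L.card)) ≤ A.card * ((H r).card * ∑ u ∈ L, D u) :=
    Nat.mul_le_mul_left _ (Nat.mul_le_mul_left _ hD)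
  have h7 : L.card * ((H r).card * (c * A.card)) = A.card * ((H r).card * (c * L.card)) := by ring
  omega

end act

section vert
variable {Ω : Type*} [Fintype Ω] [DecidableEq Ω]

lemma filt_card (B : Finset Ω) (lab : Ω → ℕ) (N : ℕ) (hinj : Set.InjOn lab B)
    (him : B.image lab = Finset.Icc 1 N) (l : List (Fin 3)) (hl : tot l ≤ N) :
    (B.filter (fun ω => lab ω ∈ P l)).card = l.length := by
  rw [← P_card l, ← Finset.card_image_of_injOn (s := B.filter (fun ω => lab ω ∈ P l)) (f := lab)]
  · congr 1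
    ext z
    rw [Finset.mem_image]
    constructor
    · rintro ⟨ω, hω, rfl⟩
      exact (Finset.mem_filter.mp hω).2
    · intro hz
      have h1 := P_le l z hz
      have h2 : z ∈ B.image lab := by
        rw [him, Finset.mem_Icc]; omega
      obtain ⟨ω, hω, rfl⟩ := Finset.mem_image.mp h2
      exact ⟨ω, Finset.mem_filter.mpr ⟨hω, hz⟩, rfl⟩
  · intro a ha b hb hab
    exact hinj (Finset.mem_filter.mp ha).1 (Finset.mem_filter.mp hb).1 hab

/-- vertex attached to a pair of words at depth m -/
def vset (r : Finset Ω) (lab : Ω → ℕ) (m : ℕ) (y x : List (Fin 3)) : Finset Ω :=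
  if m % 2 = 0 then
    r.filter (fun ω => lab ω ∉ P x) ∪ rᶜ.filter (fun ω => lab ω ∈ P y)
  else
    r.filter (fun ω => lab ω ∈ P x) ∪ rᶜ.filter (fun ω => lab ω ∉ P y)

lemma mem_vset_even (r : Finset Ω) (lab : Ω → ℕ) (m : ℕ) (hm : m % 2 = 0) (y x : List (Fin 3)) (ω : Ω) :
    ω ∈ vset r lab m y x ↔ (ω ∈ r ∧ lab ω ∉ P x) ∨ (ω ∉ r ∧ lab ω ∈ P y) := by
  rw [vset, if_pos hm, Finset.mem_union, Finset.mem_filter, Finset.mem_filter, Finset.mem_compl]

lemma mem_vset_odd (r : Finset Ω) (lab : Ω → ℕ) (m : ℕ) (hm : ¬ m % 2 = 0) (y x : List (Fin 3)) (ω : Ω) :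
    ω ∈ vset r lab m y x ↔ (ω ∈ r ∧ lab ω ∈ P x) ∨ (ω ∉ r ∧ lab ω ∉ P y) := by
  rw [vset, if_neg hm, Finset.mem_union, Finset.mem_filter, Finset.mem_filter, Finset.mem_compl]

/-- labelling data -/
structure Lab (t : ℕ) (r : Finset Ω) (lab : Ω → ℕ) : Prop where
  inj : Set.InjOn lab r
  im : r.image lab = Finset.Icc 1 t
  inj' : Set.InjOn lab (rᶜ : Finset Ω)
  im' : (rᶜ : Finset Ω).image lab = Finset.Icc 1 (t+1)

lemma exists_lab (t : ℕ) (r : Finset Ω) (hr : r.card = t) (hΩ : Fintype.card Ω = 2 * t + 1) :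
    ∃ lab : Ω → ℕ, Lab t r lab := by
  classical
  have h1 : r.card = (Finset.Icc 1 t).card := by rw [Nat.card_Icc]; omega
  have h2 : (rᶜ).card = (Finset.Icc 1 (t+1)).card := by
    rw [Nat.card_Icc, Finset.card_compl]; omega
  let e := Finset.equivOfCardEq h1
  let f := Finset.equivOfCardEq h2
  let lab : Ω → ℕ := fun ω => if h : ω ∈ r then (e ⟨ω, h⟩).1 else (f ⟨ω, Finset.mem_compl.mpr h⟩).1
  have lr : ∀ ω (h : ω ∈ r), lab ω = (e ⟨ω, h⟩).1 := fun ω h => by simp only [lab]; rw [dif_pos h]
  have lc : ∀ ω (h : ω ∉ r), lab ω = (f ⟨ω, Finset.mem_compl.mpr h⟩).1 :=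
    fun ω h => by simp only [lab]; rw [dif_neg h]
  refine ⟨lab, ?_, ?_, ?_, ?_⟩
  · intro a ha b hb hab
    rw [lr a ha, lr b hb] at hab
    have := e.injective (Subtype.ext hab)
    simpa using this
  · ext z
    rw [Finset.mem_image]
    constructor
    · rintro ⟨ω, hω, rfl⟩
      rw [lr ω hω]; exact (e ⟨ω, hω⟩).2
    · intro hz
      refine ⟨(e.symm ⟨z, hz⟩).1, (e.symm ⟨z, hz⟩).2, ?_⟩
      rw [lr _ (e.symm ⟨z, hz⟩).2]
      simp
  · intro a ha b hb hab
    have ha' : a ∉ r := Finset.mem_compl.mp ha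
    have hb' : b ∉ r := Finset.mem_compl.mp hb
    rw [lc a ha', lc b hb'] at hab
    have := f.injective (Subtype.ext hab)
    simpa using this
  · ext z
    rw [Finset.mem_image]
    constructor
    · rintro ⟨ω, hω, rfl⟩
      rw [lc ω (Finset.mem_compl.mp hω)]; exact (f _).2
    · intro hz
      refine ⟨(f.symm ⟨z, hz⟩).1, (f.symm ⟨z, hz⟩).2, ?_⟩
      rw [lc _ (Finset.mem_compl.mp (f.symm ⟨z, hz⟩).2)]
      simp

variable {t : ℕ} {r : Finset Ω} {lab : Ω → ℕ}

lemma vset_inter (hr : r.card = t) (hl : Lab t r lab)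
    (m : ℕ) (y x : List (Fin 3)) (hx : x.length = m / 2) (htx : tot x ≤ t) :
    (vset r lab m y x ∩ r).card = if m % 2 = 0 then t - m / 2 else m / 2 := by
  have h1 := filt_card r lab t hl.inj hl.im x htx
  split_ifs with hm
  · have h2 : vset r lab m y x ∩ r = r.filter (fun ω => ¬ lab ω ∈ P x) := by
      ext ω
      rw [Finset.mem_inter, mem_vset_even r lab m hm, Finset.mem_filter]
      tauto
    have h3 := Finset.card_filter_add_card_filter_not (s := r) (fun ω => lab ω ∈ P x)
    rw [h2]
    omega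
  · have h2 : vset r lab m y x ∩ r = r.filter (fun ω => lab ω ∈ P x) := by
      ext ω
      rw [Finset.mem_inter, mem_vset_odd r lab m hm, Finset.mem_filter]
      tauto
    rw [h2, h1, hx]

lemma vset_card (hr : r.card = t) (hΩ : Fintype.card Ω = 2 * t + 1) (hl : Lab t r lab)
    (m : ℕ) (y x : List (Fin 3)) (hy : y.length = (m+1)/2) (hx : x.length = m / 2)
    (hty : tot y ≤ t + 1) (htx : tot x ≤ t) : (vset r lab m y x).card = t := by
  have h1 := filt_card r lab t hl.inj hl.im x htx
  have h1' := filt_card rᶜ lab (t+1) hl.inj' hl.im' y hty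
  have h3 := Finset.card_filter_add_card_filter_not (s := r) (fun ω => lab ω ∈ P x)
  have h3' := Finset.card_filter_add_card_filter_not (s := rᶜ) (fun ω => lab ω ∈ P y)
  have h4 : (rᶜ).card = t + 1 := by rw [Finset.card_compl]; omega
  have hd : ∀ p q : Ω → Prop, ∀ [DecidablePred p] [DecidablePred q],
      Disjoint (r.filter p) (rᶜ.filter q) := by
    intro p q _ _
    rw [Finset.disjoint_left]
    intro a ha hb
    exact (Finset.mem_compl.mp (Finset.mem_filter.mp hb).1) (Finset.mem_filter.mp ha).1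
  unfold vset
  split_ifs with hm
  · rw [Finset.card_union_of_disjoint (hd _ _)]
    omega
  · rw [Finset.card_union_of_disjoint (hd _ _)]
    omega

lemma P_eq_of (B : Finset Ω) (lab : Ω → ℕ) (N : ℕ)
    (him : B.image lab = Finset.Icc 1 N) (l l' : List (Fin 3)) (hl : tot l ≤ N) (hl' : tot l' ≤ N)
    (h : ∀ ω ∈ B, lab ω ∈ P l ↔ lab ω ∈ P l') : l = l' := by
  apply P_inj
  have key : ∀ (a b : List (Fin 3)), tot a ≤ N → (∀ ω ∈ B, lab ω ∈ P a ↔ lab ω ∈ P b) →
      ∀ z ∈ P a, z ∈ P b := by
    intro a b ha hab z hz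
    have h1 := P_le a z hz
    have h2 : z ∈ B.image lab := by
      rw [him, Finset.mem_Icc]; omega
    obtain ⟨ω, hω, rfl⟩ := Finset.mem_image.mp h2
    exact (hab ω hω).mp hz
  ext z
  exact ⟨key l l' hl h z, key l' l hl' (fun ω hω => (h ω hω).symm) z⟩

lemma vset_inj (hr : r.card = t) (hl : Lab t r lab)
    (m m' : ℕ) (y x y' x' : List (Fin 3)) (hm : m ≤ t) (hm' : m' ≤ t)
    (hy : y.length = (m+1)/2) (hx : x.length = m / 2)
    (hty : tot y ≤ t + 1) (htx : tot x ≤ t)
    (hy' : y'.length = (m'+1)/2) (hx' : x'.length = m' / 2)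
    (hty' : tot y' ≤ t + 1) (htx' : tot x' ≤ t)
    (h : vset r lab m y x = vset r lab m' y' x') : m = m' ∧ y = y' ∧ x = x' := by
  have h1 := vset_inter hr hl m y x hx htx
  have h2 := vset_inter hr hl m' y' x' hx' htx'
  rw [h] at h1
  rw [h1] at h2
  by_cases hme : m % 2 = 0
  · rw [if_pos hme] at h2
    by_cases hme' : m' % 2 = 0
    · rw [if_pos hme'] at h2
      refine ⟨by omega, ?_, ?_⟩
      · apply P_eq_of rᶜ lab (t+1) hl.im' y y' hty hty'
        intro ω hω
        have hω' : ω ∉ r := Finset.mem_compl.mp hω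
        have h3 : ω ∈ vset r lab m y x ↔ ω ∈ vset r lab m' y' x' := by rw [h]
        rw [mem_vset_even r lab m hme, mem_vset_even r lab m' hme'] at h3
        tauto
      · apply P_eq_of r lab t hl.im x x' htx htx'
        intro ω hω
        have h3 : ω ∈ vset r lab m y x ↔ ω ∈ vset r lab m' y' x' := by rw [h]
        rw [mem_vset_even r lab m hme, mem_vset_even r lab m' hme'] at h3
        tauto
    · rw [if_neg hme'] at h2
      omega
  · rw [if_neg hme] at h2
    by_cases hme' : m' % 2 = 0
    · rw [if_pos hme'] at h2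
      omega
    · rw [if_neg hme'] at h2
      refine ⟨by omega, ?_, ?_⟩
      · apply P_eq_of rᶜ lab (t+1) hl.im' y y' hty hty'
        intro ω hω
        have hω' : ω ∉ r := Finset.mem_compl.mp hω
        have h3 : ω ∈ vset r lab m y x ↔ ω ∈ vset r lab m' y' x' := by rw [h]
        rw [mem_vset_odd r lab m hme, mem_vset_odd r lab m' hme'] at h3
        tauto
      · apply P_eq_of r lab t hl.im x x' htx htx'
        intro ω hω
        have h3 : ω ∈ vset r lab m y x ↔ ω ∈ vset r lab m' y' x' := by rw [h]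
        rw [mem_vset_odd r lab m hme, mem_vset_odd r lab m' hme'] at h3
        tauto

lemma vset_zero : vset r lab 0 [] [] = r := by
  ext ω
  rw [mem_vset_even r lab 0 rfl]
  simp [P]

/-- parent of a node -/
def parent (n : Σ _ : ℕ, List (Fin 3) × List (Fin 3)) : Σ _ : ℕ, List (Fin 3) × List (Fin 3) :=
  ⟨n.1 - 1, if n.1 % 2 = 0 then (n.2.1, n.2.2.tail) else (n.2.1.tail, n.2.2)⟩

lemma vset_disj (m : ℕ) (hm : 1 ≤ m) (y x : List (Fin 3)) :
    Disjoint (vset r lab m y x)
      (vset r lab (parent ⟨m, y, x⟩).1 (parent ⟨m, y, x⟩).2.1 (parent ⟨m, y, x⟩).2.2) := by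
  rw [Finset.disjoint_left]
  intro ω h1 h2
  by_cases hme : m % 2 = 0
  · have hme' : ¬ (m - 1) % 2 = 0 := by omega
    simp only [parent, hme, if_true] at h2
    rw [mem_vset_even r lab m hme] at h1
    rw [mem_vset_odd r lab (m-1) hme'] at h2
    have := @P_tail x (lab ω)
    tauto
  · have hme' : (m - 1) % 2 = 0 := by omega
    simp only [parent, hme, if_false] at h2
    rw [mem_vset_odd r lab m hme] at h1
    rw [mem_vset_even r lab (m-1) hme'] at h2
    have := @P_tail y (lab ω)
    tauto

end vert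

section main
variable {Ω : Type*} [Fintype Ω] [DecidableEq Ω] {t : ℕ}

/-- nodes of the tree at depths 1..i -/
def nodes (t i : ℕ) : Finset (Σ _ : ℕ, List (Fin 3) × List (Fin 3)) :=
  (Finset.Icc 1 i).sigma (fun m => good (t+1) ((m+1)/2) ×ˢ good t (m/2))

/-- nodes of the tree at depth exactly i -/
def leaves (t i : ℕ) : Finset (Σ _ : ℕ, List (Fin 3) × List (Fin 3)) :=
  ({i} : Finset ℕ).sigma (fun m => good (t+1) ((m+1)/2) ×ˢ good t (m/2))

lemma mem_nodes (t i : ℕ) (n : Σ _ : ℕ, List (Fin 3) × List (Fin 3)) :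
    n ∈ nodes t i ↔ (1 ≤ n.1 ∧ n.1 ≤ i) ∧ (n.2.1.length = (n.1+1)/2 ∧ tot n.2.1 ≤ t+1) ∧
      (n.2.2.length = n.1/2 ∧ tot n.2.2 ≤ t) := by
  rw [nodes, Finset.mem_sigma, Finset.mem_Icc, Finset.mem_product, mem_good, mem_good]

lemma mem_leaves (t i : ℕ) (n : Σ _ : ℕ, List (Fin 3) × List (Fin 3)) :
    n ∈ leaves t i ↔ n.1 = i ∧ (n.2.1.length = (n.1+1)/2 ∧ tot n.2.1 ≤ t+1) ∧
      (n.2.2.length = n.1/2 ∧ tot n.2.2 ≤ t) := by
  rw [leaves, Finset.mem_sigma, Finset.mem_singleton, Finset.mem_product, mem_good, mem_good]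

lemma leaves_subset (t i : ℕ) (hi : 1 ≤ i) : leaves t i ⊆ nodes t i := by
  intro n hn
  rw [mem_leaves] at hn
  rw [mem_nodes]
  exact ⟨⟨by omega, by omega⟩, hn.2⟩

lemma geom_sum (i : ℕ) : ∑ m ∈ Finset.Icc 1 i, 3 ^ m * 2 ^ (i - m) + 3 * 2 ^ i = 3 ^ (i+1) := by
  induction i with
  | zero => simp
  | succ i ih =>
    rw [Finset.sum_Icc_succ_top (by omega)]
    have h1 : ∑ m ∈ Finset.Icc 1 i, 3 ^ m * 2 ^ (i + 1 - m)
        = 2 * ∑ m ∈ Finset.Icc 1 i, 3 ^ m * 2 ^ (i - m) := by
      rw [Finset.mul_sum]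
      apply Finset.sum_congr rfl
      intro m hm
      rw [Finset.mem_Icc] at hm
      rw [show i + 1 - m = (i - m) + 1 by omega, pow_succ]
      ring
    rw [h1]
    simp only [Nat.sub_self, pow_zero, mul_one]
    rw [pow_succ 2 i, pow_succ 3 (i+1)]
    omega

lemma weight_sum (t i : ℕ) : ∑ n ∈ nodes t i, 2 ^ (i - n.1) < 3 ^ (i+1) := by
  have h1 : ∑ n ∈ nodes t i, 2 ^ (i - n.1) ≤ ∑ m ∈ Finset.Icc 1 i, 3 ^ m * 2 ^ (i - m) := by
    rw [nodes, Finset.sum_sigma]
    apply Finset.sum_le_sum
    intro m hm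
    simp only
    rw [Finset.sum_const, smul_eq_mul]
    apply Nat.mul_le_mul_right
    rw [Finset.card_product]
    have h2 := good_card_le (t+1) ((m+1)/2)
    have h3 := good_card_le t (m/2)
    calc _ ≤ 3 ^ ((m+1)/2) * 3 ^ (m/2) := Nat.mul_le_mul h2 h3
      _ = 3 ^ m := by rw [← pow_add]; congr 1; omega
  have h4 := geom_sum i
  have h5 : 0 < 3 * 2 ^ i := by positivity
  omega

lemma leaves_card (t i : ℕ) (hi : i ≤ t) : 3 ^ i ≤ 4 * (leaves t i).card := by
  have h1 : (leaves t i).card = (good (t+1) ((i+1)/2)).card * (good t (i/2)).card := by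
    rw [leaves, Finset.card_sigma, Finset.sum_singleton, Finset.card_product]
  have h2 := good_card_ge (t+1) ((i+1)/2) (by omega)
  have h3 := good_card_ge t (i/2) (by omega)
  rw [h1]
  calc 3 ^ i = 3 ^ ((i+1)/2) * 3 ^ (i/2) := by rw [← pow_add]; congr 1; omega
    _ ≤ (2 * (good (t+1) ((i+1)/2)).card) * (2 * (good t (i/2)).card) := Nat.mul_le_mul h2 h3
    _ = 4 * ((good (t+1) ((i+1)/2)).card * (good t (i/2)).card) := by ring

/-- vertex attached to a node -/
def phi (r : {s : Finset Ω // s.card = t}) (lab : Ω → ℕ)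
    (n : Σ _ : ℕ, List (Fin 3) × List (Fin 3)) : {s : Finset Ω // s.card = t} :=
  if h : (vset r.1 lab n.1 n.2.1 n.2.2).card = t then ⟨_, h⟩ else r

lemma phi_val (r : {s : Finset Ω // s.card = t}) (hΩ : Fintype.card Ω = 2 * t + 1) (lab : Ω → ℕ)
    (hl : Lab t r.1 lab) (n : Σ _ : ℕ, List (Fin 3) × List (Fin 3))
    (hy : n.2.1.length = (n.1+1)/2) (hx : n.2.2.length = n.1 / 2)
    (hty : tot n.2.1 ≤ t + 1) (htx : tot n.2.2 ≤ t) :
    (phi r lab n).1 = vset r.1 lab n.1 n.2.1 n.2.2 := by
  rw [phi, dif_pos (vset_card r.2 hΩ hl n.1 n.2.1 n.2.2 hy hx hty htx)]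

/-- disjointness adjacency -/
def adj (u v : {s : Finset Ω // s.card = t}) : Prop := Disjoint u.1 v.1

lemma disj_act (g : Equiv.Perm Ω) (u v : {s : Finset Ω // s.card = t}) (h : Disjoint u.1 v.1) :
    Disjoint (actE g u).1 (actE g v).1 := by
  rw [Finset.disjoint_left] at h ⊢
  intro ω h1 h2
  rw [mem_actE] at h1 h2
  exact h h1 h2

/-- solve from a rich level -/
lemma level_solve (r : {s : Finset Ω // s.card = t}) (hΩ : Fintype.card Ω = 2 * t + 1)
    (D : {s : Finset Ω // s.card = t} → ℕ) (s i : ℕ) (hi1 : 1 ≤ i) (hit : i ≤ t)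
    (hs : s = if i % 2 = 0 then t - i / 2 else i / 2)
    (hne : (Finset.univ.filter (fun v => lev r v = s)).Nonempty)
    (hD : 12 * (Finset.univ.filter (fun v => lev r v = s)).card
      ≤ ∑ u ∈ Finset.univ.filter (fun v => lev r v = s), D u) :
    ∃ E, Relation.ReflTransGen (Step adj) D E ∧ 1 ≤ E r := by
  obtain ⟨lab, hl⟩ := exists_lab t r.1 r.2 hΩ
  have hval : ∀ n ∈ nodes t i, (phi r lab n).1 = vset r.1 lab n.1 n.2.1 n.2.2 := by
    intro n hn
    rw [mem_nodes] at hn
    exact phi_val r hΩ lab hl n hn.2.1.1 hn.2.2.1 hn.2.1.2 hn.2.2.2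
  obtain ⟨g, hg, hgA⟩ := averaging r s 12 D hne hD (leaves t i) (phi r lab) (by
    intro n hn
    have hn' := leaves_subset t i hi1 hn
    rw [lev, hval n hn']
    rw [mem_leaves] at hn
    rw [vset_inter r.2 hl n.1 n.2.1 n.2.2 hn.2.2.1 hn.2.2.2, hs, hn.1])
  have hgr : actE g r = r := (mem_H r g).mp hg
  have hpar : ∀ n ∈ nodes t i, (parent n).1 = n.1 - 1 ∧
      ((n.1 = 1 ∧ parent n = ⟨0, [], []⟩) ∨ parent n ∈ nodes t i) := by
    intro n hn
    refine ⟨rfl, ?_⟩
    have hn' := hn
    rw [mem_nodes] at hn'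
    obtain ⟨m, y, x⟩ := n
    simp only at hn' ⊢
    obtain ⟨⟨hm1, hm2⟩, ⟨hy1, hy2⟩, hx1, hx2⟩ := hn'
    by_cases h1 : m = 1
    · left
      subst h1
      refine ⟨rfl, ?_⟩
      have hx0 : x = [] := List.length_eq_zero_iff.mp (by omega)
      have hy0 : y.tail = [] := List.length_eq_zero_iff.mp (by rw [List.length_tail]; omega)
      simp [parent, hx0, hy0]
    · right
      rw [mem_nodes]
      have hyt : tot y.tail ≤ tot y := by
        cases y with
        | nil => simp
        | cons a l => simp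
      have hxt : tot x.tail ≤ tot x := by
        cases x with
        | nil => simp
        | cons a l => simp
      by_cases hme : m % 2 = 0
      · simp only [parent, hme, if_true, List.length_tail]
        refine ⟨⟨by omega, by omega⟩, ⟨by omega, by omega⟩, by omega, by omega⟩
      · simp only [parent, hme, if_false, List.length_tail]
        refine ⟨⟨by omega, by omega⟩, ⟨by omega, by omega⟩, by omega, by omega⟩
  have hroot : phi r lab ⟨0, [], []⟩ = r := by
    apply Subtype.ext
    rw [phi_val r hΩ lab hl ⟨0, [], []⟩ rfl rfl (by simp) (by simp)]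
    exact vset_zero
  have hval' : ∀ n ∈ nodes t i, (phi r lab (parent n)).1
      = vset r.1 lab (parent n).1 (parent n).2.1 (parent n).2.2 := by
    intro n hn
    rcases (hpar n hn).2 with ⟨_, h⟩ | h
    · rw [h, hroot]; exact vset_zero.symm
    · exact hval _ h
  apply weight_lemma adj (nodes t i) (fun n => actE g (phi r lab n)) ?_ parent
    (fun n => 2 ^ (i - n.1)) r ?_ ?_ (∑ v, D v) D rfl ?_
  · intro n hn n' hn' hnn
    have h1 : phi r lab n = phi r lab n' := (actE g).injective hnn
    have h2 := congrArg Subtype.val h1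
    rw [hval n hn, hval n' hn'] at h2
    rw [Finset.mem_coe, mem_nodes] at hn hn'
    obtain ⟨a, b, c⟩ := vset_inj r.2 hl n.1 n'.1 n.2.1 n.2.2 n'.2.1 n'.2.2 (by omega) (by omega)
      hn.2.1.1 hn.2.2.1 hn.2.1.2 hn.2.2.2 hn'.2.1.1 hn'.2.2.1 hn'.2.1.2 hn'.2.2.2 h2
    obtain ⟨m, y, x⟩ := n
    obtain ⟨m', y', x'⟩ := n'
    simp only at a b c
    subst a; subst b; subst c; rfl
  · intro n hn
    have hd : Disjoint (phi r lab n).1 (phi r lab (parent n)).1 := by
      rw [hval n hn, hval' n hn]
      rw [mem_nodes] at hn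
      exact vset_disj n.1 hn.1.1 n.2.1 n.2.2
    have hd' := disj_act g _ _ hd
    refine ⟨?_, hd'⟩
    intro heq
    rw [heq] at hd'
    rw [disjoint_self] at hd'
    have h1 := (actE g (phi r lab (parent n))).2
    rw [hd'] at h1
    simp at h1
    omega
  · intro n hn
    rcases (hpar n hn).2 with ⟨h1, h2⟩ | h
    · left
      simp only [h2, hroot, hgr]
    · right
      refine ⟨h, ?_⟩
      rw [mem_nodes] at hn h
      rw [(hpar n (by rw [mem_nodes]; exact hn)).1] at *
      rw [show i - (n.1 - 1) = (i - n.1) + 1 by omega, pow_succ]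
      ring
  · have h1 := weight_sum t i
    have h2 := leaves_card t i hit
    have h3 : ∑ n ∈ leaves t i, D (actE g (phi r lab n))
        ≤ ∑ n ∈ nodes t i, 2 ^ (i - n.1) * D (actE g (phi r lab n)) := by
      calc ∑ n ∈ leaves t i, D (actE g (phi r lab n))
          = ∑ n ∈ leaves t i, 2 ^ (i - n.1) * D (actE g (phi r lab n)) := by
            apply Finset.sum_congr rfl
            intro n hn
            rw [mem_leaves] at hn
            rw [hn.1, Nat.sub_self, pow_zero, one_mul]
        _ ≤ _ := Finset.sum_le_sum_of_subset (leaves_subset t i hi1)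
    rw [pow_succ] at h1
    omega

theorem odd_linear (hΩ : Fintype.card Ω = 2 * t + 1) (D : {s : Finset Ω // s.card = t} → ℕ)
    (r : {s : Finset Ω // s.card = t})
    (h : 12 * Fintype.card {s : Finset Ω // s.card = t} ≤ ∑ v, D v) :
    ∃ E, Relation.ReflTransGen (Step adj) D E ∧ 1 ≤ E r := by
  classical
  -- pigeonhole over levels
  obtain ⟨s, hne, hs⟩ : ∃ s : ℕ, (Finset.univ.filter (fun v => lev r v = s)).Nonempty ∧
      12 * (Finset.univ.filter (fun v => lev r v = s)).card
        ≤ ∑ u ∈ Finset.univ.filter (fun v => lev r v = s), D u := by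
    by_contra hcon
    push Not at hcon
    have h1 : ∑ v, D v = ∑ s ∈ Finset.univ.image (lev r),
        ∑ u ∈ Finset.univ.filter (fun v => lev r v = s), D u :=
      (Finset.sum_fiberwise_of_maps_to (fun v _ => Finset.mem_image_of_mem _ (Finset.mem_univ v)) _).symm
    have h2 : Fintype.card {s : Finset Ω // s.card = t} = ∑ s ∈ Finset.univ.image (lev r),
        (Finset.univ.filter (fun v => lev r v = s)).card :=
      Finset.card_eq_sum_card_fiberwise (fun v _ => Finset.mem_image_of_mem _ (Finset.mem_univ v))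
    rw [h1, h2, Finset.mul_sum] at h
    have h3 : ∑ s ∈ Finset.univ.image (lev r),
        ∑ u ∈ Finset.univ.filter (fun v => lev r v = s), D u
        < ∑ s ∈ Finset.univ.image (lev r), 12 * (Finset.univ.filter (fun v => lev r v = s)).card := by
      apply Finset.sum_lt_sum_of_nonempty
      · exact ⟨lev r r, Finset.mem_image_of_mem _ (Finset.mem_univ r)⟩
      · intro s hs
        obtain ⟨v, _, hv⟩ := Finset.mem_image.mp hs
        exact hcon s ⟨v, Finset.mem_filter.mpr ⟨Finset.mem_univ v, hv⟩⟩
    omega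
  have hst : s ≤ t := by
    obtain ⟨v, hv⟩ := hne
    rw [Finset.mem_filter] at hv
    rw [← hv.2, lev]
    calc _ ≤ r.1.card := Finset.card_le_card Finset.inter_subset_right
      _ = t := r.2
  by_cases hst' : s = t
  · have hL : Finset.univ.filter (fun v => lev r v = s) = {r} := by
      ext v
      rw [Finset.mem_filter, Finset.mem_singleton]
      constructor
      · rintro ⟨_, hv⟩
        rw [hst'] at hv
        unfold lev at hv
        have h1 : v.1 ∩ r.1 = r.1 :=
          Finset.eq_of_subset_of_card_le Finset.inter_subset_right (by rw [r.2, hv])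
        have h2 : v.1 ∩ r.1 = v.1 :=
          Finset.eq_of_subset_of_card_le Finset.inter_subset_left (by rw [v.2, hv])
        apply Subtype.ext
        rw [← h2, h1]
      · rintro rfl
        refine ⟨Finset.mem_univ _, ?_⟩
        rw [lev, Finset.inter_self, v.2, hst']
    rw [hL, Finset.sum_singleton, Finset.card_singleton] at hs
    exact ⟨D, Relation.ReflTransGen.refl, by omega⟩
  · by_cases hc : 2 * (t - s) ≤ t
    · exact level_solve r hΩ D s (2 * (t - s)) (by omega) hc
        (by rw [if_pos (by omega)]; omega) hne hs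
    · exact level_solve r hΩ D s (2 * s + 1) (by omega) (by omega)
        (by rw [if_neg (by omega)]; omega) hne hs

end main

/-- There is a constant c such that for every t, any placement of at least c·C(2t+1,t) pebbles on the odd graph K(2t+1,t) can reach any target vertex by pebbling moves (remove two pebbles from a vertex, add one to a neighbour). -/
theorem result :
  ∃ c : ℕ, ∀ t : ℕ, ∀ D : {s : Finset (Fin (2*t+1)) // s.card = t} → ℕ,
    ∀ r : {s : Finset (Fin (2*t+1)) // s.card = t},
      c * Nat.choose (2*t+1) t ≤ ∑ x, D x →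
      ∃ E : {s : Finset (Fin (2*t+1)) // s.card = t} → ℕ,
        Relation.ReflTransGen
          (fun A B : {s : Finset (Fin (2*t+1)) // s.card = t} → ℕ =>
            ∃ u v : {s : Finset (Fin (2*t+1)) // s.card = t},
              u ≠ v ∧ Disjoint u.1 v.1 ∧ B + Pi.single u 2 = A + Pi.single v 1) D E
        ∧ 1 ≤ E r := by
  refine ⟨12, fun t D r h => ?_⟩
  have hcard : Fintype.card {s : Finset (Fin (2*t+1)) // s.card = t} = Nat.choose (2*t+1) t := by
    rw [Fintype.card_finset_len, Fintype.card_fin]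
  exact odd_linear (by rw [Fintype.card_fin]) D r (by rw [hcard]; exact h)

end Pool.Agent.S07497
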