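import Pool.Statements.S07876
import Pool.Agent.W_MP_2d9473_co_helper56.Star
import Pool.Agent.W_MP_2d9473_co_helper56.Colour

set_option autoImplicit false
open Pool Pool.MP_2d9473_co

namespace Pool.Agent.S07876

/-- The negation of the preceding statement: For r ≥ 1 and connected H with an edge: if a finite graph G has no minor of the join of the star K_{1,r-1} with H, then for any lists of size r+1 there is a list colouring with no monochromatic H-minor model. -/
theorem result :
    ¬ (∀ (r : ℕ), 0 < r →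
    ∀ (W : Type) [Fintype W] (H : SimpleGraph W), H.Connected → H.edgeSet.Nonempty →
    ∀ (V : Type) [Fintype V] (G : SimpleGraph V),
      (¬ ∃ f : Option (Fin (r - 1)) ⊕ W → Set V,
          (∀ u, (G.induce (f u)).Connected) ∧
          (∀ u u', u ≠ u' → Disjoint (f u) (f u')) ∧
          (∀ u u', (SimpleGraph.fromRel
              (fun a b : Option (Fin (r - 1)) ⊕ W =>
                (∃ i : Fin (r - 1), a = Sum.inl none ∧ b = Sum.inl (some i)) ∨
                (∃ w w' : W, a = Sum.inr w ∧ b = Sum.inr w' ∧ H.Adj w w') ∨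
                (∃ (s : Option (Fin (r - 1))) (w : W), a = Sum.inl s ∧ b = Sum.inr w))).Adj u u' →
            ∃ x ∈ f u, ∃ y ∈ f u', G.Adj x y)) →
      ∀ L : V → Finset ℕ, (∀ v, (L v).card = r + 1) →
        ∃ col : V → ℕ, (∀ v, col v ∈ L v) ∧
          ¬ ∃ c : ℕ, ∃ f : W → Set V,
            (∀ u, (G.induce (f u)).Connected) ∧
            (∀ u u', u ≠ u' → Disjoint (f u) (f u')) ∧
            (∀ u u', H.Adj u u' → ∃ x ∈ f u, ∃ y ∈ f u', G.Adj x y) ∧
            (∀ u, ∀ x ∈ f u, col x = c)) := by
  intro hmain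
  have h := hmain 3 (by norm_num) (Option (Fin 3)) W_MP_2d9473_co_helper56.star
    W_MP_2d9473_co_helper56.star_connected W_MP_2d9473_co_helper56.star_edge
    W_MP_2d9473_co_helper56.Vt W_MP_2d9473_co_helper56.G ?_
    W_MP_2d9473_co_helper56.L W_MP_2d9473_co_helper56.L_card
  · obtain ⟨col, hcol, hno⟩ := h
    exact W_MP_2d9473_co_helper56.no_colouring col hcol hno
  · rintro ⟨f, hc, hd, ha⟩
    exact W_MP_2d9473_co_helper56.no_minor (fun i => f (W_MP_2d9473_co_helper56.e i))
      (fun i => hc _)
      (fun i j hij => hd _ _ (W_MP_2d9473_co_helper56.e_ne i j hij))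
      (fun i j hij => ha _ _ (W_MP_2d9473_co_helper56.e_adj i j hij))

end Pool.Agent.S07876
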