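import Pool.Statements.S08423
import Pool.Agent.W_MP_43c969_h13.Main
import Pool.Agent.W_MP_43c969_h13.TopFinal

set_option autoImplicit false
open Classical
open Pool Pool.MP_43c969_co

namespace Pool.Agent.S08423

/-- For p ≥ q ≥ r with p ≥ 2 and q+r ≥ 2, the minimum genus of K_{p,q,r} over all rotation systems (V − E + F = 2 − 2g) is exactly the ceiling of (p−2)(q+r−2)/4. -/
theorem result : ∀ p q r : ℕ, q ≤ p → r ≤ q → 2 ≤ p → 2 ≤ q + r →
    ∀ G : SimpleGraph (Σ i : Fin 3, Fin (![p, q, r] i)),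
      G = SimpleGraph.completeMultipartiteGraph (fun i : Fin 3 => Fin (![p, q, r] i)) →
      (∃ σ : Equiv.Perm G.Dart,
          (∀ d : G.Dart, (σ d).fst = d.fst) ∧
          (∀ d d' : G.Dart, d.fst = d'.fst → ∃ n : ℕ, (σ ^ n) d = d') ∧
          ((Nat.card (Σ i : Fin 3, Fin (![p, q, r] i)) : ℤ) - (Nat.card G.edgeSet : ℤ)
              + (Nat.card (Quotient (Equiv.Perm.SameCycle.setoid
                  (σ * Function.Involutive.toPerm SimpleGraph.Dart.symm
                    SimpleGraph.Dart.symm_involutive))) : ℤ)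
            = 2 - 2 * ⌈((p : ℚ) - 2) * ((q : ℚ) + (r : ℚ) - 2) / 4⌉)) ∧
      (∀ σ : Equiv.Perm G.Dart,
          (∀ d : G.Dart, (σ d).fst = d.fst) →
          (∀ d d' : G.Dart, d.fst = d'.fst → ∃ n : ℕ, (σ ^ n) d = d') →
          ((Nat.card (Σ i : Fin 3, Fin (![p, q, r] i)) : ℤ) - (Nat.card G.edgeSet : ℤ)
              + (Nat.card (Quotient (Equiv.Perm.SameCycle.setoid
                  (σ * Function.Involutive.toPerm SimpleGraph.Dart.symm
                    SimpleGraph.Dart.symm_involutive))) : ℤ)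
            ≤ 2 - 2 * ⌈((p : ℚ) - 2) * ((q : ℚ) + (r : ℚ) - 2) / 4⌉)) := by
  intro p q r hqp hrq hp hn G hG
  exact Pool.Agent.W_MP_43c969_h13.top_final p q r hp hn
    (Pool.Agent.W_MP_43c969_h13.main_st p q r hqp hrq hp hn) G hG

end Pool.Agent.S08423
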