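import Pool.Statements.S09068
import Pool.Agent.W_MP_5f563a_co.Main

set_option autoImplicit false
open Pool Pool.MP_5f563a_co

namespace Pool.Agent.S09068

/-- The negation of the preceding statement: Every compact convex body in 3-space of diameter 1 can, for each ε>0, be split into 4 subsets each of diameter at most √((3+√3)/6)+ε, i.e. its 4-part Borsuk number is at most that of the ball. -/
theorem result :
    ¬ (∀ K : Set (EuclideanSpace ℝ (Fin 3)),
      Convex ℝ K → IsCompact K → (interior K).Nonempty → Metric.diam K = 1 →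
      ∀ ε : ℝ, 0 < ε →
        ∃ A : Fin 4 → Set (EuclideanSpace ℝ (Fin 3)),
          (∀ i, A i ⊆ K) ∧ (⋃ i, A i) = K ∧
          ∀ i, Metric.diam (A i) ≤ Real.sqrt ((3 + Real.sqrt 3) / 6) + ε) := by
  intro H
  have hc := Pool.Agent.Gale.const_lt
  obtain ⟨A, hA, hU, hd⟩ := H Pool.Agent.Gale.K Pool.Agent.Gale.K_convex
    Pool.Agent.Gale.K_compact Pool.Agent.Gale.K_interior Pool.Agent.Gale.K_diam
    ((Real.sqrt (789 / 1000) - Real.sqrt ((3 + Real.sqrt 3) / 6)) / 2) (by linarith)
  obtain ⟨i, hi⟩ := Pool.Agent.Gale.main A hA hU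
  have := hd i
  linarith

end Pool.Agent.S09068
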