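import Pool.Statements.S09071
import Pool.Agent.W_MP_5f6f90_h66.Final

set_option autoImplicit false
open Pool Pool.MP_5f6f90_co

namespace Pool.Agent.S09071

/-- There is n₀ such that for every n ≥ n₀, the n×n queens graph (distinct cells adjacent if they share a row, column or diagonal) can be properly coloured with n colours. -/
theorem result :
    ∃ n₀ : ℕ, ∀ n : ℕ, n₀ ≤ n →
      (SimpleGraph.fromRel (fun p q : Fin n × Fin n =>
        p.1 = q.1 ∨ p.2 = q.2 ∨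
        ((p.1 : ℕ) : ℤ) - ((q.1 : ℕ) : ℤ) = ((p.2 : ℕ) : ℤ) - ((q.2 : ℕ) : ℤ) ∨
        ((p.1 : ℕ) : ℤ) - ((q.1 : ℕ) : ℤ) = ((q.2 : ℕ) : ℤ) - ((p.2 : ℕ) : ℤ))).Colorable n := by
  obtain ⟨n₀, h⟩ := Pool.Agent.QueensAll.main
  exact ⟨n₀, fun n hn => (h n hn).colorable⟩

end Pool.Agent.S09071
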