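import Pool.Statements.S09354

set_option autoImplicit false
open Pool Pool.MP_6d0115_co

namespace Pool.Agent.S09354

open Finset

/-! The log-concavity fails at `k = 2` whenever `σ(n)/n` is large:
`a_{n,1} = σ(n)/n` is unbounded, while `a_{n,2} ≤ C n` and `a_{n,3} ≥ (n-1)(n-2)/12`. -/

/-- The D'Arcais polynomials, by recursion. -/
noncomputable def dP : ℕ → Polynomial ℚ
  | 0 => 1
  | (n+1) => Polynomial.C (1 / ((n : ℚ) + 1)) * (Polynomial.X * ∑ k : Fin (n+1), ((ArithmeticFunction.sigma 1 (k.val+1) : ℕ) : Polynomial ℚ) * dP (n - k.val))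
  decreasing_by omega

theorem dP_zero : dP 0 = 1 := by rw [dP]

theorem dP_rec (n : ℕ) (hn : 1 ≤ n) :
    (n : Polynomial ℚ) * dP n = Polynomial.X * ∑ k ∈ Finset.Icc 1 n,
            ((ArithmeticFunction.sigma 1 k : ℕ) : Polynomial ℚ) * dP (n - k) := by
  obtain ⟨m, rfl⟩ : ∃ m, n = m + 1 := ⟨n - 1, by omega⟩
  rw [dP]
  have h1 : ((m + 1 : ℕ) : Polynomial ℚ) * Polynomial.C (1 / ((m : ℚ) + 1)) = 1 := by
    have : ((m + 1 : ℕ) : Polynomial ℚ) = Polynomial.C ((m : ℚ) + 1) := by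
      simp
    rw [this, ← Polynomial.C_mul, mul_one_div_cancel (by positivity), Polynomial.C_1]
  rw [← mul_assoc, h1, one_mul]
  congr 1
  rw [Fin.sum_univ_eq_sum_range (fun k => ((ArithmeticFunction.sigma 1 (k+1) : ℕ) : Polynomial ℚ) * dP (m - k)) (m+1)]
  have h2 : Finset.Icc 1 (m+1) = Finset.Ico (0+1) (m+1+1) := by
    ext x; simp
  rw [h2, ← Finset.sum_Ico_add' (fun k => ((ArithmeticFunction.sigma 1 k : ℕ) : Polynomial ℚ) * dP (m + 1 - k)) 0 (m+1) 1, Finset.range_eq_Ico]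
  refine Finset.sum_congr rfl fun k _ => ?_
  rw [Nat.add_sub_add_right]

theorem dP_coeff_succ (n j : ℕ) (hn : 1 ≤ n) :
    (n : ℚ) * (dP n).coeff (j+1) = ∑ k ∈ Finset.Icc 1 n,
      ((ArithmeticFunction.sigma 1 k : ℕ) : ℚ) * (dP (n-k)).coeff j := by
  have h := congrArg (fun p => Polynomial.coeff p (j+1)) (dP_rec n hn)
  simp only [Polynomial.coeff_X_mul, Polynomial.finsetSum_coeff, Polynomial.coeff_natCast_mul] at h
  exact_mod_cast h

theorem dP_coeff_zero (n : ℕ) (hn : 1 ≤ n) : (dP n).coeff 0 = 0 := by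
  have h := congrArg (fun p => Polynomial.coeff p 0) (dP_rec n hn)
  simp only [Polynomial.mul_coeff_zero, Polynomial.coeff_X_zero, zero_mul] at h
  rcases mul_eq_zero.mp h with h | h
  · exfalso
    have h2 : (n : ℚ) = 0 := by
      have := Polynomial.coeff_natCast_ite (R := ℚ) (n := n) (m := 0)
      simpa using h
    have : n = 0 := by exact_mod_cast h2
    omega
  · exact h

theorem dP_coeff_one (n : ℕ) (hn : 1 ≤ n) :
    (n : ℚ) * (dP n).coeff 1 = ((ArithmeticFunction.sigma 1 n : ℕ) : ℚ) := by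
  rw [dP_coeff_succ n 0 hn]
  rw [Finset.sum_eq_single_of_mem n (by simp; omega)]
  · simp [dP_zero]
  · intro b hb hbn
    rw [dP_coeff_zero (n-b) (by simp at hb; omega), mul_zero]

/-- `s n = σ(n)/n` as a real number. -/
noncomputable def s (n : ℕ) : ℝ := ((ArithmeticFunction.sigma 1 n : ℕ) : ℝ) / n

theorem s_zero : s 0 = 0 := by simp [s]

theorem s_nonneg (n : ℕ) : 0 ≤ s n := by unfold s; positivity

theorem sigma_eq (n : ℕ) : ((ArithmeticFunction.sigma 1 n : ℕ) : ℝ) = n * s n := by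
  unfold s
  rcases Nat.eq_zero_or_pos n with rfl | h
  · simp
  · field_simp

theorem a_one (n : ℕ) (hn : 1 ≤ n) : (((dP n).coeff 1 : ℚ) : ℝ) = s n := by
  have h := dP_coeff_one n hn
  have h' : ((n : ℚ) : ℝ) * (((dP n).coeff 1 : ℚ) : ℝ) = ((ArithmeticFunction.sigma 1 n : ℕ) : ℝ) := by
    exact_mod_cast congrArg (fun q : ℚ => (q : ℝ)) h
  unfold s
  have : (0 : ℝ) < n := by exact_mod_cast hn
  field_simp
  push_cast at h'
  linarith

theorem a_one_zero : (((dP 0).coeff 1 : ℚ) : ℝ) = 0 := by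
  rw [dP_zero]; simp [Polynomial.coeff_one]

theorem a_one' (n : ℕ) : (((dP n).coeff 1 : ℚ) : ℝ) = s n := by
  rcases Nat.eq_zero_or_pos n with rfl | h
  · rw [a_one_zero, s_zero]
  · exact a_one n h

theorem a_succ (n j : ℕ) (hn : 1 ≤ n) :
    (n : ℝ) * (((dP n).coeff (j+1) : ℚ) : ℝ) = ∑ k ∈ Finset.Icc 1 n,
      (k * s k) * (((dP (n-k)).coeff j : ℚ) : ℝ) := by
  have h := congrArg (fun q : ℚ => (q : ℝ)) (dP_coeff_succ n j hn)
  push_cast at h
  rw [h]
  refine Finset.sum_congr rfl fun k _ => ?_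
  rw [sigma_eq]

/-- `s n` is the sum of the reciprocals of the divisors of `n`. -/
theorem s_eq_sum (n : ℕ) : s n = ∑ d ∈ n.divisors, (1 : ℝ) / d := by
  rcases Nat.eq_zero_or_pos n with rfl | hn
  · simp [s]
  · unfold s
    rw [ArithmeticFunction.sigma_one_apply]
    push_cast
    rw [Finset.sum_div, ← Nat.sum_div_divisors n (fun d => (d : ℝ) / n)]
    refine Finset.sum_congr rfl fun d hd => ?_
    have hdn : d ∣ n := Nat.dvd_of_mem_divisors hd
    have hd0 : (d : ℝ) ≠ 0 := by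
      have := Nat.pos_of_mem_divisors hd
      positivity
    have hn0 : (n : ℝ) ≠ 0 := by positivity
    rw [Nat.cast_div hdn hd0]
    field_simp

theorem s_ge_one (n : ℕ) (hn : 1 ≤ n) : 1 ≤ s n := by
  rw [s_eq_sum]
  have : (1 : ℝ) / ((1 : ℕ) : ℝ) ≤ ∑ d ∈ n.divisors, (1 : ℝ) / d :=
    Finset.single_le_sum (f := fun d : ℕ => (1 : ℝ) / d) (fun i _ => by positivity)
      (Nat.one_mem_divisors.mpr (by omega))
  simpa using this

/-- the constant `ζ(3/2)` -/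
noncomputable def A : ℝ := ∑' d : ℕ, (d : ℝ) ^ (-(3/2) : ℝ)

theorem summable_A : Summable (fun d : ℕ => (d : ℝ) ^ (-(3/2) : ℝ)) :=
  Real.summable_nat_rpow.mpr (by norm_num)

theorem A_nonneg : 0 ≤ A := tsum_nonneg fun d => by positivity

theorem sum_le_A (S : Finset ℕ) : ∑ d ∈ S, (d : ℝ) ^ (-(3/2) : ℝ) ≤ A :=
  summable_A.sum_le_tsum S fun d _ => by positivity

theorem s_sq_le (k : ℕ) : s k ^ 2 ≤ A * ∑ d ∈ k.divisors, (d : ℝ) ^ (-(1/2) : ℝ) := by
  rw [s_eq_sum]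
  have h1 : ∑ d ∈ k.divisors, (1 : ℝ) / d = ∑ d ∈ k.divisors, ((d : ℝ) ^ (-(3/4) : ℝ)) * ((d : ℝ) ^ (-(1/4) : ℝ)) := by
    refine Finset.sum_congr rfl fun d hd => ?_
    have hd0 : (0 : ℝ) < d := by
      have := Nat.pos_of_mem_divisors hd
      positivity
    rw [← Real.rpow_add hd0]
    norm_num [Real.rpow_neg_one]
  rw [h1]
  refine (Finset.sum_mul_sq_le_sq_mul_sq _ _ _).trans ?_
  have h2 : ∑ d ∈ k.divisors, ((d : ℝ) ^ (-(3/4) : ℝ)) ^ 2 = ∑ d ∈ k.divisors, (d : ℝ) ^ (-(3/2) : ℝ) := by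
    refine Finset.sum_congr rfl fun d hd => ?_
    rw [← Real.rpow_natCast, ← Real.rpow_mul (by positivity)]
    norm_num
  have h3 : ∑ d ∈ k.divisors, ((d : ℝ) ^ (-(1/4) : ℝ)) ^ 2 = ∑ d ∈ k.divisors, (d : ℝ) ^ (-(1/2) : ℝ) := by
    refine Finset.sum_congr rfl fun d hd => ?_
    rw [← Real.rpow_natCast, ← Real.rpow_mul (by positivity)]
    norm_num
  rw [h2, h3]
  exact mul_le_mul_of_nonneg_right (sum_le_A _) (Finset.sum_nonneg fun d _ => by positivity)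

theorem sum_divisors_le (n : ℕ) :
    ∑ k ∈ Finset.Icc 1 n, ∑ d ∈ k.divisors, (d : ℝ) ^ (-(1/2) : ℝ) ≤ A * n := by
  have h1 : ∑ k ∈ Finset.Icc 1 n, ∑ d ∈ k.divisors, (d : ℝ) ^ (-(1/2) : ℝ)
      = ∑ d ∈ Finset.Icc 1 n, ∑ k ∈ (Finset.Icc 1 n).filter (fun k => d ∣ k), (d : ℝ) ^ (-(1/2) : ℝ) := by
    refine Finset.sum_comm' fun k d => ?_
    simp only [Finset.mem_Icc, Nat.mem_divisors, Finset.mem_filter]
    constructor
    · rintro ⟨⟨h1, h2⟩, h3, h4⟩
      have := Nat.le_of_dvd (by omega) h3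
      have := Nat.pos_of_dvd_of_pos h3 (by omega)
      exact ⟨⟨⟨h1, h2⟩, h3⟩, by omega, by omega⟩
    · rintro ⟨⟨⟨h1, h2⟩, h3⟩, h4, h5⟩
      exact ⟨⟨h1, h2⟩, h3, by omega⟩
  rw [h1]
  have h2 : ∀ d ∈ Finset.Icc 1 n, ∑ k ∈ (Finset.Icc 1 n).filter (fun k => d ∣ k), (d : ℝ) ^ (-(1/2) : ℝ)
      ≤ n * (d : ℝ) ^ (-(3/2) : ℝ) := by
    intro d hd
    rw [Finset.sum_const, nsmul_eq_mul]
    have hcard : ((Finset.Icc 1 n).filter (fun k => d ∣ k)).card = n / d := by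
      have := Nat.Ioc_filter_dvd_card_eq_div n d
      rw [← this]
      congr 1
    rw [hcard]
    have hd0 : (0 : ℝ) < d := by
      have := (Finset.mem_Icc.mp hd).1
      exact_mod_cast this
    have h3 : (d : ℝ) ^ (-(3/2) : ℝ) = (1 / d) * (d : ℝ) ^ (-(1/2) : ℝ) := by
      have : (1 : ℝ) / d = (d : ℝ) ^ (-1 : ℝ) := by rw [Real.rpow_neg_one]; simp
      rw [this, ← Real.rpow_add hd0]
      norm_num
    rw [h3, ← mul_assoc]
    refine mul_le_mul_of_nonneg_right ?_ (by positivity)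
    calc ((n / d : ℕ) : ℝ) ≤ (n : ℝ) / d := Nat.cast_div_le
      _ = n * (1 / d) := by ring
  refine (Finset.sum_le_sum h2).trans ?_
  rw [← Finset.mul_sum, mul_comm]
  exact mul_le_mul_of_nonneg_right (sum_le_A _) (by positivity)

theorem sum_s_sq_le (n : ℕ) : ∑ k ∈ Finset.Icc 1 n, s k ^ 2 ≤ A ^ 2 * n := by
  calc ∑ k ∈ Finset.Icc 1 n, s k ^ 2
      ≤ ∑ k ∈ Finset.Icc 1 n, A * ∑ d ∈ k.divisors, (d : ℝ) ^ (-(1/2) : ℝ) :=
        Finset.sum_le_sum fun k _ => s_sq_le k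
    _ = A * ∑ k ∈ Finset.Icc 1 n, ∑ d ∈ k.divisors, (d : ℝ) ^ (-(1/2) : ℝ) := by
        rw [Finset.mul_sum]
    _ ≤ A * (A * n) := mul_le_mul_of_nonneg_left (sum_divisors_le n) A_nonneg
    _ = A ^ 2 * n := by ring

theorem sum_s_sq_le' (n : ℕ) : ∑ k ∈ Finset.Icc 1 n, s (n - k) ^ 2 ≤ A ^ 2 * n := by
  refine le_trans ?_ (sum_s_sq_le n)
  have h1 : ∑ k ∈ Finset.Icc 1 n, s (n - k) ^ 2 = ∑ k ∈ Finset.range n, s k ^ 2 := by
    refine Finset.sum_nbij' (fun k => n - k) (fun k => n - k) ?_ ?_ ?_ ?_ ?_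
    · intro k hk; simp at hk ⊢; omega
    · intro k hk; simp at hk ⊢; omega
    · intro k hk; simp at hk ⊢; omega
    · intro k hk; simp at hk ⊢; omega
    · intro k hk; rfl
  rw [h1]
  have h2 : ∑ k ∈ Finset.range n, s k ^ 2 ≤ ∑ k ∈ Finset.range (n+1), s k ^ 2 :=
    Finset.sum_le_sum_of_subset_of_nonneg (by intro x hx; simp at hx ⊢; omega) fun i _ _ => by positivity
  refine h2.trans ?_
  rw [Finset.sum_range_succ', s_zero]
  have h3 : ∑ k ∈ Finset.range n, s (k+1) ^ 2 = ∑ k ∈ Finset.Icc 1 n, s k ^ 2 := by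
    rw [Finset.range_eq_Ico, Finset.sum_Ico_add' (fun k => s k ^ 2) 0 n 1]
    refine Finset.sum_congr ?_ fun _ _ => rfl
    ext x; simp
  rw [h3]; simp

theorem a_two_le (n : ℕ) (hn : 1 ≤ n) : (((dP n).coeff 2 : ℚ) : ℝ) ≤ A ^ 2 * n := by
  have h := a_succ n 1 hn
  have hn0 : (0 : ℝ) < n := by exact_mod_cast hn
  have h2 : ∑ k ∈ Finset.Icc 1 n, (k * s k) * (((dP (n-k)).coeff 1 : ℚ) : ℝ) ≤ n * (A ^ 2 * n) := by
    calc ∑ k ∈ Finset.Icc 1 n, (k * s k) * (((dP (n-k)).coeff 1 : ℚ) : ℝ)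
        ≤ ∑ k ∈ Finset.Icc 1 n, n * ((s k ^ 2 + s (n - k) ^ 2) / 2) := by
          refine Finset.sum_le_sum fun k hk => ?_
          rw [a_one']
          have hk' : (k : ℝ) ≤ n := by exact_mod_cast (Finset.mem_Icc.mp hk).2
          have h3 : s k * s (n - k) ≤ (s k ^ 2 + s (n - k) ^ 2) / 2 := by
            nlinarith [sq_nonneg (s k - s (n - k))]
          have h4 : 0 ≤ s k * s (n - k) := mul_nonneg (s_nonneg _) (s_nonneg _)
          calc k * s k * s (n - k) = k * (s k * s (n-k)) := by ring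
            _ ≤ n * (s k * s (n-k)) := mul_le_mul_of_nonneg_right hk' h4
            _ ≤ _ := mul_le_mul_of_nonneg_left h3 hn0.le
      _ = n * ((∑ k ∈ Finset.Icc 1 n, s k ^ 2 + ∑ k ∈ Finset.Icc 1 n, s (n - k) ^ 2) / 2) := by
          rw [← Finset.mul_sum, ← Finset.sum_add_distrib, Finset.sum_div]
      _ ≤ n * (A ^ 2 * n) := by
          refine mul_le_mul_of_nonneg_left ?_ hn0.le
          have := sum_s_sq_le n
          have := sum_s_sq_le' n
          linarith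
  have h5 : (n : ℝ) * (((dP n).coeff 2 : ℚ) : ℝ) ≤ n * (A ^ 2 * n) := by
    rw [show (2 : ℕ) = 1 + 1 from rfl, h]; exact h2
  exact le_of_mul_le_mul_left h5 hn0

theorem sum_k (n : ℕ) : ∑ k ∈ Finset.Icc 1 n, (k : ℝ) = n * (n + 1) / 2 := by
  induction n with
  | zero => simp
  | succ m ih =>
    rw [Finset.sum_Icc_succ_top (by omega), ih]; push_cast; ring

theorem sum_k2 (n : ℕ) (c : ℝ) : ∑ k ∈ Finset.Icc 1 n, (k : ℝ) * (c - k) = c * (n * (n + 1) / 2) - n * (n+1) * (2 * n + 1) / 6 := by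
  induction n with
  | zero => simp
  | succ m ih =>
    rw [Finset.sum_Icc_succ_top (by omega), ih]; push_cast; ring

theorem a_two_nonneg (n : ℕ) : 0 ≤ (((dP n).coeff 2 : ℚ) : ℝ) := by
  rcases Nat.eq_zero_or_pos n with rfl | hn
  · rw [dP_zero]; simp [Polynomial.coeff_one]
  have h := a_succ n 1 hn
  have hn0 : (0 : ℝ) < n := by exact_mod_cast hn
  have h2 : 0 ≤ (n : ℝ) * (((dP n).coeff 2 : ℚ) : ℝ) := by
    rw [show (2 : ℕ) = 1 + 1 from rfl, h]
    refine Finset.sum_nonneg fun k _ => ?_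
    rw [a_one']
    have := s_nonneg k
    have := s_nonneg (n - k)
    positivity
  exact nonneg_of_mul_nonneg_right h2 hn0

theorem a_two_ge (n : ℕ) (hn : 1 ≤ n) : ((n : ℝ) - 1) / 2 ≤ (((dP n).coeff 2 : ℚ) : ℝ) := by
  have h := a_succ n 1 hn
  have hn0 : (0 : ℝ) < n := by exact_mod_cast hn
  have h2 : (n : ℝ) * (((n : ℝ) - 1) / 2) ≤ (n : ℝ) * (((dP n).coeff 2 : ℚ) : ℝ) := by
    rw [show (2 : ℕ) = 1 + 1 from rfl, h]
    calc (n : ℝ) * (((n : ℝ) - 1) / 2) = ∑ k ∈ Finset.Icc 1 (n - 1), (k : ℝ) := by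
          rw [sum_k, Nat.cast_sub hn]; push_cast; ring
      _ ≤ ∑ k ∈ Finset.Icc 1 (n - 1), (k * s k) * (((dP (n-k)).coeff 1 : ℚ) : ℝ) := by
          refine Finset.sum_le_sum fun k hk => ?_
          rw [a_one']
          have hk' := Finset.mem_Icc.mp hk
          have h3 := s_ge_one k hk'.1
          have h4 := s_ge_one (n - k) (by omega)
          have h5 : (0 : ℝ) ≤ k := by positivity
          calc (k : ℝ) = k * 1 * 1 := by ring
            _ ≤ k * s k * s (n - k) := by gcongr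
      _ ≤ ∑ k ∈ Finset.Icc 1 n, (k * s k) * (((dP (n-k)).coeff 1 : ℚ) : ℝ) := by
          refine Finset.sum_le_sum_of_subset_of_nonneg (Finset.Icc_subset_Icc le_rfl (by omega)) ?_
          intro k _ _
          rw [a_one']
          have := s_nonneg k
          have := s_nonneg (n - k)
          positivity
  exact le_of_mul_le_mul_left h2 hn0

theorem a_three_ge (n : ℕ) (hn : 2 ≤ n) :
    ((n : ℝ) - 1) * (n - 2) / 12 ≤ (((dP n).coeff 3 : ℚ) : ℝ) := by
  have h := a_succ n 2 (by omega)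
  have hn0 : (0 : ℝ) < n := by positivity
  have h2 : (n : ℝ) * (((n : ℝ) - 1) * (n - 2) / 12) ≤ (n : ℝ) * (((dP n).coeff 3 : ℚ) : ℝ) := by
    rw [show (3 : ℕ) = 2 + 1 from rfl, h]
    calc (n : ℝ) * (((n : ℝ) - 1) * (n - 2) / 12)
        = ∑ k ∈ Finset.Icc 1 (n - 1), (k : ℝ) * (((n : ℝ) - 1) - k) / 2 := by
          rw [← Finset.sum_div, sum_k2, Nat.cast_sub (by omega)]; push_cast; ring
      _ ≤ ∑ k ∈ Finset.Icc 1 (n - 1), (k * s k) * (((dP (n-k)).coeff 2 : ℚ) : ℝ) := by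
          refine Finset.sum_le_sum fun k hk => ?_
          have hk' := Finset.mem_Icc.mp hk
          have h3 := s_ge_one k hk'.1
          have h4 := a_two_ge (n - k) (by omega)
          rw [Nat.cast_sub (by omega)] at h4
          have h5 : (0 : ℝ) ≤ k := by positivity
          have h6 : (0 : ℝ) ≤ (((dP (n-k)).coeff 2 : ℚ) : ℝ) := a_two_nonneg _
          calc (k : ℝ) * (((n : ℝ) - 1) - k) / 2 = k * 1 * (((n : ℝ) - k - 1) / 2) := by ring
            _ ≤ k * 1 * (((dP (n-k)).coeff 2 : ℚ) : ℝ) := by gcongr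
            _ ≤ k * s k * (((dP (n-k)).coeff 2 : ℚ) : ℝ) := by gcongr
      _ ≤ ∑ k ∈ Finset.Icc 1 n, (k * s k) * (((dP (n-k)).coeff 2 : ℚ) : ℝ) := by
          refine Finset.sum_le_sum_of_subset_of_nonneg (Finset.Icc_subset_Icc le_rfl (by omega)) ?_
          intro k _ _
          have := s_nonneg k
          have := a_two_nonneg (n - k)
          positivity
  exact le_of_mul_le_mul_left h2 hn0

/-- `σ(n)/n` is unbounded along factorials. -/
theorem exists_large (B : ℝ) : ∃ n : ℕ, 6 ≤ n ∧ B < s n := by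
  have hdiv : Filter.Tendsto (fun n : ℕ => ∑ i ∈ Finset.range n, (1 : ℝ) / (i + 1)) Filter.atTop Filter.atTop :=
    Real.tendsto_sum_range_one_div_nat_succ_atTop
  obtain ⟨m, hm3, hm⟩ := ((Filter.eventually_ge_atTop 3).and (hdiv.eventually (Filter.eventually_gt_atTop B))).exists
  refine ⟨m.factorial, ?_, ?_⟩
  · calc 6 = Nat.factorial 3 := rfl
      _ ≤ m.factorial := Nat.factorial_le hm3
  · refine hm.trans_le ?_
    rw [s_eq_sum]
    calc ∑ i ∈ Finset.range m, (1 : ℝ) / (i + 1) = ∑ d ∈ (Finset.range m).image (fun i : ℕ => i + 1), (1 : ℝ) / (d : ℕ) := by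
          rw [Finset.sum_image (by intro a _ b _ h; simpa using h)]
          refine Finset.sum_congr rfl fun i _ => ?_
          push_cast; rfl
      _ ≤ ∑ d ∈ m.factorial.divisors, (1 : ℝ) / d := by
          refine Finset.sum_le_sum_of_subset_of_nonneg ?_ fun i _ _ => by positivity
          intro d hd
          simp only [Finset.mem_image, Finset.mem_range] at hd
          obtain ⟨i, hi, rfl⟩ := hd
          exact Nat.mem_divisors.mpr ⟨Nat.dvd_factorial (by omega) (by omega), Nat.factorial_ne_zero m⟩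

/-- The negation of the preceding statement: If P_0=1 and n·P_n = x·Σ_{k=1}^n σ(k)P_{n-k} (the D'Arcais polynomials), then for all n and k≥1 the coefficients of P_n satisfy a_{k-1}a_{k+1} ≤ a_k². -/
theorem result :
    ¬ (∀ P : ℕ → Polynomial ℚ, P 0 = 1 →
      (∀ n : ℕ, 1 ≤ n →
        (n : Polynomial ℚ) * P n =
          Polynomial.X * ∑ k ∈ Finset.Icc 1 n,
            ((ArithmeticFunction.sigma 1 k : ℕ) : Polynomial ℚ) * P (n - k)) →
      ∀ n k : ℕ, 1 ≤ k →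
        (P n).coeff (k - 1) * (P n).coeff (k + 1) ≤ (P n).coeff k ^ 2) := by
  intro H
  have H' := H dP dP_zero dP_rec
  obtain ⟨n, hn6, hn⟩ := exists_large (24 * (A ^ 2) ^ 2)
  have h := H' n 2 (by norm_num)
  have h' : (((dP n).coeff 1 : ℚ) : ℝ) * (((dP n).coeff 3 : ℚ) : ℝ) ≤ (((dP n).coeff 2 : ℚ) : ℝ) ^ 2 := by
    exact_mod_cast h
  rw [a_one'] at h'
  have h2 := a_two_le n (by omega)
  have h20 := a_two_nonneg n
  have h3 := a_three_ge n (by omega)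
  have hn0 : (6 : ℝ) ≤ n := by exact_mod_cast hn6
  have h4 : (n : ℝ) ^ 2 / 24 ≤ (((dP n).coeff 3 : ℚ) : ℝ) := by
    refine le_trans ?_ h3
    nlinarith
  have h5 : (((dP n).coeff 2 : ℚ) : ℝ) ^ 2 ≤ (A ^ 2 * n) ^ 2 := by gcongr
  have h6 : s n * ((n : ℝ) ^ 2 / 24) ≤ s n * (((dP n).coeff 3 : ℚ) : ℝ) :=
    mul_le_mul_of_nonneg_left h4 (s_nonneg n)
  have h7 : s n * ((n : ℝ) ^ 2 / 24) ≤ (A ^ 2 * n) ^ 2 := h6.trans (h'.trans h5)
  have h8 : 24 * (A ^ 2) ^ 2 * ((n : ℝ) ^ 2 / 24) < s n * ((n : ℝ) ^ 2 / 24) :=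
    mul_lt_mul_of_pos_right hn (by positivity)
  have h9 : 24 * (A ^ 2) ^ 2 * ((n : ℝ) ^ 2 / 24) = (A ^ 2 * n) ^ 2 := by ring
  linarith

end Pool.Agent.S09354
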