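import Pool.Statements.S10227
import Pool.Agent.W40_MP_955314_co.Main

set_option autoImplicit false
open Pool Pool.MP_955314_co

namespace Pool.Agent.S10227

/-- Suppose X is a finite set in Euclidean space, its isometry group is transitive on it, and a soluble isometry group preserving X has two orbits on X. Then X embeds isometrically in a finite set Y in some Euclidean space on which a soluble isometry group acts transitively. -/
theorem result :
    ∀ (n : ℕ) (X : Set (EuclideanSpace ℝ (Fin n))), X.Finite →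
      (∀ x ∈ X, ∀ y ∈ X, ∃ g : EuclideanSpace ℝ (Fin n) ≃ᵢ EuclideanSpace ℝ (Fin n),
          ⇑g '' X = X ∧ g x = y) →
      (∃ G : Subgroup (EuclideanSpace ℝ (Fin n) ≃ᵢ EuclideanSpace ℝ (Fin n)),
          IsSolvable ↥G ∧ (∀ g ∈ G, ⇑g '' X = X) ∧
          ∃ a ∈ X, ∃ b ∈ X, (∀ g ∈ G, g a ≠ b) ∧ ∀ x ∈ X, ∃ g ∈ G, g a = x ∨ g b = x) →
      ∃ (m : ℕ) (Y : Set (EuclideanSpace ℝ (Fin m)))
        (f : EuclideanSpace ℝ (Fin n) → EuclideanSpace ℝ (Fin m)),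
        Y.Finite ∧ Isometry f ∧ f '' X ⊆ Y ∧
        ∃ H : Subgroup (EuclideanSpace ℝ (Fin m) ≃ᵢ EuclideanSpace ℝ (Fin m)),
          IsSolvable ↥H ∧ (∀ h ∈ H, ⇑h '' Y = Y) ∧
          ∀ y ∈ Y, ∀ z ∈ Y, ∃ h ∈ H, h y = z := by
  rintro n X hX htr ⟨G, hG, hGX, a, ha, b, hb, -, hab⟩
  obtain ⟨m, Y, f, ⟨hY, H, hH, hHY, hHtr⟩, hf, hfX⟩ :=
    Pool.Agent.W40_MP_955314_co.main X hX htr G hG hGX a b ha hb hab
  exact ⟨m, Y, f, hY, hf, hfX, H, hH, hHY, hHtr⟩

end Pool.Agent.S10227
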