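import Pool.Statements.S10259
import Pool.Agent.W_MP_96500d_co.Fence

set_option autoImplicit false
open Pool Pool.MP_96500d_co

namespace Pool.Agent.S10259

/-- For all finite nonempty posets P, Q, the max over order-preserving self-maps f of the min over points a of the fence distance from a to f(a) is the same for P×Q as the larger of the two values for P and for Q. -/
theorem result :
    ∀ (P Q : Type) [PartialOrder P] [Fintype P] [Nonempty P]
      [PartialOrder Q] [Fintype Q] [Nonempty Q],
      (⨆ f : (P × Q) →o (P × Q), ⨅ a : P × Q,
          (SimpleGraph.fromRel (fun x y : P × Q => x ≤ y)).edist a (f a)) =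
        max (⨆ f : P →o P, ⨅ a : P,
              (SimpleGraph.fromRel (fun x y : P => x ≤ y)).edist a (f a))
            (⨆ f : Q →o Q, ⨅ a : Q,
              (SimpleGraph.fromRel (fun x y : Q => x ≤ y)).edist a (f a)) := by
  intro P Q _ _ _ _ _ _
  exact Pool.Agent.Dist96500d.DD_prod (α := P) (β := Q)

end Pool.Agent.S10259
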