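import Pool.Statements.S10566
import Pool.Agent.PageUnb.Pages
import Pool.Agent.PageUnb.Master
import Pool.Agent.PageUnb.Step1h39
import Pool.Agent.PageUnb.Step2

set_option autoImplicit false
open Pool Pool.MP_a4f561_co

namespace Pool.Agent.S10566

/-- The negation of the preceding statement: There is a constant k such that every finite digraph with an upward planar drawing has a vertex order with all edges going forward and a k-page assignment of edges in which no two edges on the same page cross. -/
theorem result :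
    ¬ (∃ k : ℕ, ∀ (n : ℕ) (G : Digraph (Fin n)),
      (∃ f : Fin n → ℝ × ℝ, Function.Injective f ∧
        ∃ γ : Fin n → Fin n → ℝ → ℝ × ℝ,
          (∀ u v, G.Adj u v →
            ContinuousOn (γ u v) (Set.Icc (0:ℝ) 1) ∧
            γ u v 0 = f u ∧ γ u v 1 = f v ∧
            StrictMonoOn (fun t => (γ u v t).2) (Set.Icc (0:ℝ) 1) ∧
            (∀ w, ∀ s ∈ Set.Ioo (0:ℝ) 1, γ u v s ≠ f w)) ∧
          (∀ u v u' v', G.Adj u v → G.Adj u' v' → (u, v) ≠ (u', v') →
            ∀ s ∈ Set.Ioo (0:ℝ) 1, ∀ t ∈ Set.Icc (0:ℝ) 1,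
              γ u v s ≠ γ u' v' t)) →
      ∃ σ : Fin n ≃ Fin n, ∃ p : Fin n → Fin n → Fin k,
        (∀ u v, G.Adj u v → σ u < σ v) ∧
        (∀ a b c d, G.Adj a b → G.Adj c d → p a b = p c d →
          ¬ (σ a < σ c ∧ σ c < σ b ∧ σ b < σ d))) := by
  refine Pool.Agent.PageUnb.not_bounded (fun h => h.master) (fun K => ?_)
  have h : ∀ k, Pool.Agent.PageUnb.Strong K k := by
    intro k
    induction k with
    | zero => exact Pool.Agent.PageUnb.strong_zero39 K
    | succ k ih =>
      exact Pool.Agent.PageUnb.strong_of_fstar39 (Pool.Agent.PageUnb.fstar_of_strong ih)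
  exact h K

end Pool.Agent.S10566
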