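import Pool.Statements.S12064
import Pool.Agent.White.Core

set_option autoImplicit false
open Pool Pool.MP_e3ee73_co

namespace Pool.Agent.S12064

open Pool.Agent.White in
/-- The invariant: a complementary pair of bases with pattern `(P, N, N)`. -/
def Inv (X : Fin 2 → Set (Fin 20)) : Prop :=
  W20.IsBase (X 0) ∧ W20.IsBase (X 1) ∧ X 1 = (X 0)ᶜ ∧ P 0 (X 0)

open Pool.Agent.White in
theorem Inv.step {X : Fin 2 → Set (Fin 20)} (hX : Inv X) {U V : Set (Fin 20)} {e f : Fin 20}
    (he : e ∈ X 0) (hf : f ∈ X 1) (hU : W20.IsBase U) (hV : W20.IsBase V)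
    (hUe : U = insert f (X 0 \ {e})) (hVe : V = insert e (X 1 \ {f})) :
    V = Uᶜ ∧ P 0 U := by
  obtain ⟨h0, h1, h2, h3⟩ := hX
  rw [h2] at hf hVe
  have hef : e ≠ f := fun h => hf (h ▸ he)
  have hVU : V = Uᶜ := by
    rw [hUe, hVe]
    ext x
    simp only [Set.mem_insert_iff, Set.mem_sdiff, Set.mem_compl_iff, Set.mem_singleton_iff]
    by_cases hxe : x = e
    · subst hxe; simp [hef]
    · by_cases hxf : x = f
      · subst hxf; simp [hxe]
      · simp [hxe, hxf]
  refine ⟨hVU, ?_⟩
  rw [← P_exchange (W20_indep h0) (h2 ▸ W20_indep h1) (W20_indep hU) (hVU ▸ W20_indep hV) e f]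
  · exact h3
  · intro x hxe hxf
    rw [hUe]
    simp [hxe, hxf]

open Pool.Agent.White in
theorem Inv.next {X Y : Fin 2 → Set (Fin 20)} (hX : Inv X)
    (h : ∃ i j : Fin 2, i ≠ j ∧ ∃ e ∈ X i, ∃ f ∈ X j,
            W20.IsBase (insert f (X i \ {e})) ∧ W20.IsBase (insert e (X j \ {f})) ∧
            Y = Function.update (Function.update X i (insert f (X i \ {e}))) j
                  (insert e (X j \ {f}))) : Inv Y := by
  obtain ⟨i, j, hij, e, he, f, hf, hb1, hb2, rfl⟩ := h
  have hcases : ∀ i j : Fin 2, i ≠ j → (i = 0 ∧ j = 1) ∨ (i = 1 ∧ j = 0) := by decide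
  rcases hcases i j hij with ⟨rfl, rfl⟩ | ⟨rfl, rfl⟩
  · have := hX.step he hf hb1 hb2 rfl rfl
    refine ⟨?_, ?_, ?_, ?_⟩
    · simpa using hb1
    · simpa using hb2
    · simpa using this.1
    · simpa using this.2
  · have := hX.step hf he hb2 hb1 rfl rfl
    refine ⟨?_, ?_, ?_, ?_⟩
    · simpa using hb2
    · simpa using hb1
    · simpa using this.1
    · simpa using this.2

/-- The negation of the preceding statement: For every finite matroid and every sequence of bases, another sequence is reachable by repeated symmetric subset exchanges between two positions if and only if it is reachable by repeated symmetric single-element exchanges. -/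
theorem result :
    ¬ (∀ (α : Type) [Finite α] (M : Matroid α) (m : ℕ) (B D : Fin m → Set α),
      (∀ k, M.IsBase (B k)) →
      (Relation.ReflTransGen
          (fun X Y : Fin m → Set α => ∃ i j : Fin m, i ≠ j ∧ ∃ A ⊆ X i, ∃ A' ⊆ X j,
            M.IsBase ((X i \ A) ∪ A') ∧ M.IsBase ((X j \ A') ∪ A) ∧
            Y = Function.update (Function.update X i ((X i \ A) ∪ A')) j ((X j \ A') ∪ A))
          B D ↔
        Relation.ReflTransGen
          (fun X Y : Fin m → Set α => ∃ i j : Fin m, i ≠ j ∧ ∃ e ∈ X i, ∃ f ∈ X j,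
            M.IsBase (insert f (X i \ {e})) ∧ M.IsBase (insert e (X j \ {f})) ∧
            Y = Function.update (Function.update X i (insert f (X i \ {e}))) j
                  (insert e (X j \ {f})))
          B D)) := by
  intro h
  have hb : ∀ k : Fin 2, Pool.Agent.White.W20.IsBase
      ((![(Pool.Agent.White.fA : Set (Fin 20)), (Pool.Agent.White.fB : Set (Fin 20))] :
        Fin 2 → Set (Fin 20)) k) := by
    intro k
    have : ∀ k : Fin 2, k = 0 ∨ k = 1 := by decide
    rcases this k with rfl | rfl
    · exact Pool.Agent.White.base_fA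
    · exact Pool.Agent.White.base_fB
  have hiff := h (Fin 20) Pool.Agent.White.W20 2
    ![(Pool.Agent.White.fA : Set (Fin 20)), (Pool.Agent.White.fB : Set (Fin 20))]
    ![(Pool.Agent.White.fC : Set (Fin 20)), (Pool.Agent.White.fD : Set (Fin 20))] hb
  have hsub := hiff.1 (by
    refine Relation.ReflTransGen.single ⟨0, 1, by decide,
      (Pool.Agent.White.fA : Set (Fin 20)) \ Pool.Agent.White.fC, Set.sdiff_subset,
      (Pool.Agent.White.fB : Set (Fin 20)) ∩ Pool.Agent.White.fC, Set.inter_subset_left, ?_⟩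
    have e1 : ((Pool.Agent.White.fA : Set (Fin 20)) \
        ((Pool.Agent.White.fA : Set (Fin 20)) \ Pool.Agent.White.fC)) ∪
        ((Pool.Agent.White.fB : Set (Fin 20)) ∩ Pool.Agent.White.fC) =
        (Pool.Agent.White.fC : Set (Fin 20)) := by
      rw [Pool.Agent.White.coe_fB]; ext x
      simp only [Set.mem_union, Set.mem_sdiff, Set.mem_inter_iff, Set.mem_compl_iff]
      tauto
    have e2 : ((Pool.Agent.White.fB : Set (Fin 20)) \
        ((Pool.Agent.White.fB : Set (Fin 20)) ∩ Pool.Agent.White.fC)) ∪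
        ((Pool.Agent.White.fA : Set (Fin 20)) \ Pool.Agent.White.fC) =
        (Pool.Agent.White.fD : Set (Fin 20)) := by
      rw [Pool.Agent.White.coe_fB, Pool.Agent.White.coe_fD]; ext x
      simp only [Set.mem_union, Set.mem_sdiff, Set.mem_inter_iff, Set.mem_compl_iff]
      tauto
    simp only [Matrix.cons_val_zero, Matrix.cons_val_one]
    rw [e1, e2]
    refine ⟨Pool.Agent.White.base_fC, Pool.Agent.White.base_fD, ?_⟩
    funext k
    have : ∀ k : Fin 2, k = 0 ∨ k = 1 := by decide
    rcases this k with rfl | rfl <;> simp)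
  have hinv : ∀ Y : Fin 2 → Set (Fin 20), Relation.ReflTransGen
      (fun X Y : Fin 2 → Set (Fin 20) => ∃ i j : Fin 2, i ≠ j ∧ ∃ e ∈ X i, ∃ f ∈ X j,
            Pool.Agent.White.W20.IsBase (insert f (X i \ {e})) ∧
            Pool.Agent.White.W20.IsBase (insert e (X j \ {f})) ∧
            Y = Function.update (Function.update X i (insert f (X i \ {e}))) j
                  (insert e (X j \ {f})))
      ![(Pool.Agent.White.fA : Set (Fin 20)), (Pool.Agent.White.fB : Set (Fin 20))] Y →
      Inv Y := by
    intro Y hY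
    induction hY with
    | refl => exact ⟨Pool.Agent.White.base_fA, Pool.Agent.White.base_fB,
        Pool.Agent.White.coe_fB, Pool.Agent.White.P_fA⟩
    | tail _ hstep ih => exact ih.next hstep
  exact Pool.Agent.White.not_P_fC (hinv _ hsub).2.2.2

end Pool.Agent.S12064
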