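import Pool.Statements.S12504

set_option autoImplicit false
open Pool Pool.MP_f90e5e_co

namespace Pool.Agent.S12504

/-- The colour 1 partner of each vertex. -/
def m1 : Fin 16 → Fin 16 := ![1, 0, 3, 2, 5, 4, 7, 6, 9, 8, 11, 10, 13, 12, 15, 14]

/-- The colour 2 partner of each vertex. -/
def m2 : Fin 16 → Fin 16 := ![7, 2, 1, 4, 3, 6, 5, 0, 15, 10, 9, 12, 11, 14, 13, 8]

/-- The colour 3 partner of each vertex. -/
def m3 : Fin 16 → Fin 16 := ![2, 3, 0, 1, 6, 7, 4, 5, 10, 11, 8, 9, 14, 15, 12, 13]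

/-- The perfect matching of the complete graph on `Fin 16` given by a fixed-point-free
involution. -/
def sub (m : Fin 16 → Fin 16) (h1 : ∀ x, m (m x) = x) (h2 : ∀ x, m x ≠ x) :
    (⊤ : SimpleGraph (Fin 16)).Subgraph where
  verts := Set.univ
  Adj u v := m u = v
  adj_sub := by
    intro u v h
    rw [SimpleGraph.top_adj]
    rintro rfl
    exact h2 u h
  edge_vert := by
    intro u v _
    exact Set.mem_univ u
  symm := ⟨by
    intro u v h
    rw [← h, h1]⟩

theorem sub_adj (m : Fin 16 → Fin 16) (h1 : ∀ x, m (m x) = x) (h2 : ∀ x, m x ≠ x)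
    (u v : Fin 16) : (sub m h1 h2).Adj u v ↔ m u = v := Iff.rfl

theorem sub_pm (m : Fin 16 → Fin 16) (h1 : ∀ x, m (m x) = x) (h2 : ∀ x, m x ≠ x) :
    (sub m h1 h2).IsPerfectMatching := by
  constructor
  · intro v _
    refine ⟨m v, ?_, ?_⟩
    · show (sub m h1 h2).Adj v (m v)
      rw [sub_adj]
    · intro y hy
      have hy' : (sub m h1 h2).Adj v y := hy
      rw [sub_adj] at hy'
      exact Eq.symm hy'
  · intro v
    exact Set.mem_univ v

theorem sub_disj (m m' : Fin 16 → Fin 16) (h1 : ∀ x, m (m x) = x) (h2 : ∀ x, m x ≠ x)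
    (h1' : ∀ x, m' (m' x) = x) (h2' : ∀ x, m' x ≠ x) (h : ∀ x, m x ≠ m' x) :
    Disjoint (sub m h1 h2).edgeSet (sub m' h1' h2').edgeSet := by
  rw [Set.disjoint_left]
  intro e
  induction e using Sym2.ind with
  | _ u v =>
    intro hu hv
    rw [SimpleGraph.Subgraph.mem_edgeSet, sub_adj] at hu hv
    exact h u (hu.trans hv.symm)

theorem m1i : ∀ x, m1 (m1 x) = x := by decide
theorem m2i : ∀ x, m2 (m2 x) = x := by decide
theorem m3i : ∀ x, m3 (m3 x) = x := by decide
theorem m1f : ∀ x, m1 x ≠ x := by decide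
theorem m2f : ∀ x, m2 x ≠ x := by decide
theorem m3f : ∀ x, m3 x ≠ x := by decide

/-- The graph: the union of the three matchings. -/
def Gr : SimpleGraph (Fin 16) where
  Adj u v := m1 u = v ∨ m2 u = v ∨ m3 u = v
  symm := ⟨by
    rintro u v (h | h | h)
    · left; rw [← h, m1i]
    · right; left; rw [← h, m2i]
    · right; right; rw [← h, m3i]⟩
  loopless := ⟨by
    rintro u (h | h | h)
    · exact m1f u h
    · exact m2f u h
    · exact m3f u h⟩

theorem gr_adj (u v : Fin 16) : Gr.Adj u v ↔ (m1 u = v ∨ m2 u = v ∨ m3 u = v) := Iff.rfl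

/-- One component: the possible colour types of a matching. -/
theorem comp (a b c d e f g h i j k l : ℕ)
    (v0 : a + h + i ≤ 1) (v1 : a + e + j ≤ 1) (v2 : b + e + i ≤ 1) (v3 : b + f + j ≤ 1)
    (v4 : c + f + k ≤ 1) (v5 : c + g + l ≤ 1) (v6 : d + g + k ≤ 1) (v7 : d + h + l ≤ 1) :
    (a + b + c + d) + (e + f + g + h) + (i + j + k + l) ≤ 4 ∧
    ((a + b + c + d) + (e + f + g + h) + (i + j + k + l) = 4 →
      2 ≤ a + b + c + d ∨ e + f + g + h = 4 ∨ i + j + k + l = 4) := by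
  omega

theorem final (A₁ A₂ A₃ B₁ B₂ B₃ : ℕ) (h1 : A₁ + B₁ = 1) (h2 : A₂ + B₂ = 3)
    (h3 : A₃ + B₃ = 3)
    (C1 : A₁ + A₂ + A₃ ≤ 4 ∧ (A₁ + A₂ + A₃ = 4 → 2 ≤ A₁ ∨ A₂ = 4 ∨ A₃ = 4))
    (C2 : B₁ + B₂ + B₃ ≤ 4 ∧ (B₁ + B₂ + B₃ = 4 → 2 ≤ B₁ ∨ B₂ = 4 ∨ B₃ = 4)) : False := by
  omega

section
variable (M : Gr.Subgraph)

open Classical in
/-- The indicator of an edge of `M`. -/
noncomputable def x (u v : Fin 16) : ℕ := if M.Adj u v then 1 else 0

theorem x_comm (u v : Fin 16) : x M u v = x M v u := by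
  unfold x
  rw [M.adj_comm]

theorem x_vertex (hM : M.IsMatching) (v p q r : Fin 16) (hpq : p ≠ q) (hpr : p ≠ r)
    (hqr : q ≠ r) : x M v p + x M v q + x M v r ≤ 1 := by
  have key : ∀ s t, M.Adj v s → M.Adj v t → s = t := by
    intro s t hs ht
    exact (hM (M.edge_vert hs)).unique hs ht
  unfold x
  by_cases h1 : M.Adj v p
  · have h2 : ¬ M.Adj v q := fun h => hpq (key _ _ h1 h)
    have h3 : ¬ M.Adj v r := fun h => hpr (key _ _ h1 h)
    simp [h1, h2, h3]
  · by_cases h2 : M.Adj v q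
    · have h3 : ¬ M.Adj v r := fun h => hqr (key _ _ h2 h)
      simp [h1, h2, h3]
    · simp only [h1, h2, if_false]
      split_ifs <;> simp

theorem count (m : Fin 16 → Fin 16) (h1 : ∀ x, m (m x) = x) (h2 : ∀ x, m x ≠ x)
    (p : Fin 8 → Fin 16) (hp : ∀ i j, s(p i, m (p i)) = s(p j, m (p j)) → i = j)
    (hs : ∀ u, ∃ i, p i = u ∨ m (p i) = u) :
    (M.edgeSet ∩ (sub m h1 h2).edgeSet).ncard = ∑ i, x M (p i) (m (p i)) := by
  classical
  have h : M.edgeSet ∩ (sub m h1 h2).edgeSet =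
      ↑((Finset.univ.filter (fun i => M.Adj (p i) (m (p i)))).image
        (fun i => s(p i, m (p i)))) := by
    ext e
    induction e using Sym2.ind with
    | _ u v =>
      simp only [Set.mem_inter_iff, SimpleGraph.Subgraph.mem_edgeSet, sub_adj,
        Finset.coe_image, Finset.coe_filter, Finset.mem_univ, true_and, Set.mem_image,
        Set.mem_ofPred_eq]
      constructor
      · rintro ⟨ha, hb⟩
        obtain ⟨i, hi | hi⟩ := hs u
        · refine ⟨i, ?_, ?_⟩
          · rw [hi, hb]; exact ha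
          · rw [hi, hb]
        · have hv : v = p i := by rw [← hb, ← hi, h1]
          refine ⟨i, ?_, ?_⟩
          · rw [hi, ← hv]; exact ha.symm
          · rw [hi, ← hv]; exact Sym2.eq_swap
      · rintro ⟨i, ha, hb⟩
        rw [Sym2.eq_iff] at hb
        rcases hb with ⟨hb, hc⟩ | ⟨hb, hc⟩
        · rw [← hb, ← hc]; exact ⟨ha, rfl⟩
        · rw [← hb, ← hc]; exact ⟨ha.symm, h1 _⟩
  rw [h, Set.ncard_coe_finset, Finset.card_image_of_injective _ (fun i j hij => hp i j hij),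
    Finset.card_filter]
  rfl

end

/-- The negation of the preceding statement: If a graph on 2n vertices is the union of three edge-disjoint perfect matchings and has a component not isomorphic to K4, then for all a1+a2+a3=n-1 it has a matching using exactly ai edges from the i-th matching. -/
theorem result :
    ¬ (∀ (V : Type) [Fintype V] (n : ℕ), Fintype.card V = 2 * n →
    ∀ (M₁ M₂ M₃ : (⊤ : SimpleGraph V).Subgraph),
      M₁.IsPerfectMatching → M₂.IsPerfectMatching → M₃.IsPerfectMatching →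
      Disjoint M₁.edgeSet M₂.edgeSet → Disjoint M₁.edgeSet M₃.edgeSet →
      Disjoint M₂.edgeSet M₃.edgeSet →
      ∀ G : SimpleGraph V, G.edgeSet = M₁.edgeSet ∪ M₂.edgeSet ∪ M₃.edgeSet →
      (∃ c : G.ConnectedComponent,
        IsEmpty (G.induce c.supp ≃g (⊤ : SimpleGraph (Fin 4)))) →
      ∀ a₁ a₂ a₃ : ℕ, a₁ + a₂ + a₃ + 1 = n →
      ∃ M : G.Subgraph, M.IsMatching ∧
        (M.edgeSet ∩ M₁.edgeSet).ncard = a₁ ∧
        (M.edgeSet ∩ M₂.edgeSet).ncard = a₂ ∧
        (M.edgeSet ∩ M₃.edgeSet).ncard = a₃) := by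
  intro H
  have hG : Gr.edgeSet = (sub m1 m1i m1f).edgeSet ∪ (sub m2 m2i m2f).edgeSet ∪
      (sub m3 m3i m3f).edgeSet := by
    ext e
    induction e using Sym2.ind with
    | _ u v =>
      simp only [Set.mem_union, SimpleGraph.mem_edgeSet, SimpleGraph.Subgraph.mem_edgeSet,
        sub_adj, gr_adj]
      tauto
  have hc : ∃ c : Gr.ConnectedComponent,
      IsEmpty (Gr.induce c.supp ≃g (⊤ : SimpleGraph (Fin 4))) := by
    refine ⟨Gr.connectedComponentMk 0, ⟨fun f => ?_⟩⟩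
    have a01 : Gr.Adj 0 1 := by rw [gr_adj]; decide
    have a12 : Gr.Adj 1 3 := by rw [gr_adj]; decide
    have a23 : Gr.Adj 3 4 := by rw [gr_adj]; decide
    have m0 : (0 : Fin 16) ∈ (Gr.connectedComponentMk 0).supp := by
      rw [SimpleGraph.ConnectedComponent.mem_supp_iff]
    have m4 : (4 : Fin 16) ∈ (Gr.connectedComponentMk 0).supp := by
      rw [SimpleGraph.ConnectedComponent.mem_supp_iff, SimpleGraph.ConnectedComponent.eq]
      exact ((a01.reachable.trans a12.reachable).trans a23.reachable).symm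
    have hne : f ⟨0, m0⟩ ≠ f ⟨4, m4⟩ := by
      intro h
      have h04 : (0 : Fin 16) = 4 := congrArg Subtype.val (f.injective h)
      exact absurd h04 (by decide)
    have hadj : (⊤ : SimpleGraph (Fin 4)).Adj (f ⟨0, m0⟩) (f ⟨4, m4⟩) := by
      rw [SimpleGraph.top_adj]; exact hne
    have h2 := f.map_adj_iff.mp hadj
    rw [SimpleGraph.comap_adj] at h2
    have h3 : Gr.Adj 0 4 := h2
    rw [gr_adj] at h3
    revert h3
    decide
  obtain ⟨M, hM, c1, c2, c3⟩ := H (Fin 16) 8 (by simp) (sub m1 m1i m1f) (sub m2 m2i m2f)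
    (sub m3 m3i m3f) (sub_pm _ _ _) (sub_pm _ _ _) (sub_pm _ _ _)
    (sub_disj _ _ _ _ _ _ (by decide)) (sub_disj _ _ _ _ _ _ (by decide))
    (sub_disj _ _ _ _ _ _ (by decide)) Gr hG hc 1 3 3 rfl
  rw [count M m1 m1i m1f ![0, 2, 4, 6, 8, 10, 12, 14] (by decide +kernel)
    (by decide +kernel)] at c1
  rw [count M m2 m2i m2f ![1, 3, 5, 0, 9, 11, 13, 8] (by decide +kernel)
    (by decide +kernel)] at c2
  rw [count M m3 m3i m3f ![0, 1, 4, 5, 8, 9, 12, 13] (by decide +kernel)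
    (by decide +kernel)] at c3
  rw [Fin.sum_univ_eight] at c1 c2 c3
  replace c1 : x M 0 1 + x M 2 3 + x M 4 5 + x M 6 7 + x M 8 9 + x M 10 11 + x M 12 13
    + x M 14 15 = 1 := c1
  replace c2 : x M 1 2 + x M 3 4 + x M 5 6 + x M 0 7 + x M 9 10 + x M 11 12 + x M 13 14
    + x M 8 15 = 3 := c2
  replace c3 : x M 0 2 + x M 1 3 + x M 4 6 + x M 5 7 + x M 8 10 + x M 9 11 + x M 12 14
    + x M 13 15 = 3 := c3
  have V := x_vertex M hM
  have v0 := V 0 1 7 2 (by decide) (by decide) (by decide)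
  have v1 := V 1 0 2 3 (by decide) (by decide) (by decide)
  have v2 := V 2 3 1 0 (by decide) (by decide) (by decide)
  have v3 := V 3 2 4 1 (by decide) (by decide) (by decide)
  have v4 := V 4 5 3 6 (by decide) (by decide) (by decide)
  have v5 := V 5 4 6 7 (by decide) (by decide) (by decide)
  have v6 := V 6 7 5 4 (by decide) (by decide) (by decide)
  have v7 := V 7 6 0 5 (by decide) (by decide) (by decide)
  have w0 := V 8 9 15 10 (by decide) (by decide) (by decide)
  have w1 := V 9 8 10 11 (by decide) (by decide) (by decide)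
  have w2 := V 10 11 9 8 (by decide) (by decide) (by decide)
  have w3 := V 11 10 12 9 (by decide) (by decide) (by decide)
  have w4 := V 12 13 11 14 (by decide) (by decide) (by decide)
  have w5 := V 13 12 14 15 (by decide) (by decide) (by decide)
  have w6 := V 14 15 13 12 (by decide) (by decide) (by decide)
  have w7 := V 15 14 8 13 (by decide) (by decide) (by decide)
  rw [x_comm M 1 0] at v1
  rw [x_comm M 2 1, x_comm M 2 0] at v2
  rw [x_comm M 3 2, x_comm M 3 1] at v3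
  rw [x_comm M 4 3] at v4
  rw [x_comm M 5 4] at v5
  rw [x_comm M 6 5, x_comm M 6 4] at v6
  rw [x_comm M 7 6, x_comm M 7 0, x_comm M 7 5] at v7
  rw [x_comm M 9 8] at w1
  rw [x_comm M 10 9, x_comm M 10 8] at w2
  rw [x_comm M 11 10, x_comm M 11 9] at w3
  rw [x_comm M 12 11] at w4
  rw [x_comm M 13 12] at w5
  rw [x_comm M 14 13, x_comm M 14 12] at w6
  rw [x_comm M 15 14, x_comm M 15 8, x_comm M 15 13] at w7
  have C1 := comp _ _ _ _ _ _ _ _ _ _ _ _ v0 v1 v2 v3 v4 v5 v6 v7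
  have C2 := comp _ _ _ _ _ _ _ _ _ _ _ _ w0 w1 w2 w3 w4 w5 w6 w7
  exact final _ _ _ _ _ _ (by rw [← c1]; ring) (by rw [← c2]; ring) (by rw [← c3]; ring)
    C1 C2

end Pool.Agent.S12504
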