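import Pool.Statements.S12509
import Pool.Agent.W_f95cc0_h94.Main
import Pool.Agent.W_f95cc0_h94.Glue2

set_option autoImplicit false
open Pool Pool.MP_f95cc0_co

namespace Pool.Agent.S12509

/-- Let α_n be the limit of f(n,d)^(1/d), where f(n,d) is the least number of boxes with odd-size proper subsets of [n] as sides that partition [n]^d. Then α_n tends to 2 as n runs over the odd numbers. -/
theorem result :
    ∀ α : ℕ → ℝ,
      (∀ n : ℕ, Odd n → 3 ≤ n →
        Filter.Tendsto
          (fun d : ℕ =>
            ((sInf {k : ℕ | ∃ P : Fin k → Fin d → Finset (Fin n),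
                (∀ j i, Odd (P j i).card ∧ P j i ≠ Finset.univ) ∧
                ∀ x : Fin d → Fin n, ∃! j, ∀ i, x i ∈ P j i} : ℕ) : ℝ) ^ ((1 : ℝ) / (d : ℝ)))
          Filter.atTop (nhds (α n))) →
      Filter.Tendsto (fun k : ℕ => α (2 * k + 3)) Filter.atTop (nhds 2) := by
  intro al hal
  exact F95.glue (fun b hb h1 h2 => F95.main_contra hb h1 h2) al hal

end Pool.Agent.S12509
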