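import Pool.Statements.S12571
import Pool.Agent.W_fb9763_h19.Final

set_option autoImplicit false
open Pool Pool.MP_fb9763_co

namespace Pool.Agent.S12571

/-- For every prime p there is C such that for all n and any C linear automorphisms T_j of F_p^n, every vector is a sum of T_j(x_j) with each x_j a 0/1 vector, i.e. any C cubes sum to all of F_p^n. -/
theorem result :
    ∀ p : ℕ, p.Prime → ∃ C : ℕ, ∀ n : ℕ,
      ∀ T : Fin C → ((Fin n → ZMod p) ≃ₗ[ZMod p] (Fin n → ZMod p)),
        ∀ y : Fin n → ZMod p,
          ∃ x : Fin C → Fin n → ZMod p,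
            (∀ j i, x j i = 0 ∨ x j i = 1) ∧ ∑ j, T j (x j) = y := by
  intro p hp
  exact FB9.final p hp

end Pool.Agent.S12571
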