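import Pool.Statements.S13341
import Pool.Agent.W_MP_6d5819_gt.Final
import Pool.Agent.W_MP_6d5819_gt.Antipodal

set_option autoImplicit false
open Bundle
open scoped Manifold ContDiff
open Pool Pool.MP_6d5819_gt

namespace Pool.Agent.S13341

theorem main_metric (d : ℕ) (M : Type) [MetricSpace M]
    [ChartedSpace (EuclideanSpace ℝ (Fin d)) M]
    [IsManifold (𝓡 d) ∞ M]
    [RiemannianBundle (fun x : M ↦ TangentSpace (𝓡 d) x)]
    [IsContMDiffRiemannianBundle (𝓡 d) ∞ (EuclideanSpace ℝ (Fin d))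
      (fun x : M ↦ TangentSpace (𝓡 d) x)]
    [IsRiemannianManifold (𝓡 d) M]
    [CompactSpace M] [ConnectedSpace M]
    (s : M → M → M)
    (hs : ∀ x : M, Isometry (s x) ∧ s x x = x ∧
      mfderiv (𝓡 d) (𝓡 d) (s x) x = -ContinuousLinearMap.id ℝ (EuclideanSpace ℝ (Fin d)))
    (A : Finset M) (hA : ∀ x ∈ A, ∀ y ∈ A, s x y = y)
    (hlt : (∑ i ∈ Finset.range (d + 1),
        Module.finrank ℝ
          ((((AlgebraicTopology.singularHomologyFunctor (ModuleCat.{0} ℝ) i).obj
            (ModuleCat.of ℝ ℝ)).obj (TopCat.of M) : ModuleCat.{0} ℝ) : Type)) < A.card) :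
    ∃ i : ℕ, ∃ g : ((((AlgebraicTopology.singularHomologyFunctor (ModuleCat.{0} ℤ) i).obj
            (ModuleCat.of ℤ ℤ)).obj (TopCat.of M) : ModuleCat.{0} ℤ) : Type),
      addOrderOf g = 2 := by
  obtain ⟨h1, h2, h3⟩ := Pool.Agent.W_MP_6d5819_gt.antipodal_structure d M s hs A hA
  exact Pool.Agent.W_MP_6d5819_gt.main_of_structure d M s (fun x => (hs x).1) A hA h1 h2 h3 hlt

/-- For every compact simply connected Riemannian manifold whose points all have isometric symmetries with differential minus identity, if some antipodal finite set is larger than the total real Betti number, then some integral homology group has an element of order 2. -/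
theorem result :
  ∀ (d : ℕ) (M : Type) [EMetricSpace M]
    [ChartedSpace (EuclideanSpace ℝ (Fin d)) M]
    [IsManifold (𝓡 d) ∞ M]
    [RiemannianBundle (fun x : M ↦ TangentSpace (𝓡 d) x)]
    [IsContMDiffRiemannianBundle (𝓡 d) ∞ (EuclideanSpace ℝ (Fin d))
      (fun x : M ↦ TangentSpace (𝓡 d) x)]
    [IsRiemannianManifold (𝓡 d) M]
    [CompactSpace M] [SimplyConnectedSpace M]
    (s : M → M → M),
    (∀ x : M, Isometry (s x) ∧ s x x = x ∧
      mfderiv (𝓡 d) (𝓡 d) (s x) x = -ContinuousLinearMap.id ℝ (EuclideanSpace ℝ (Fin d))) →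
    (∃ A : Finset M, (∀ x ∈ A, ∀ y ∈ A, s x y = y) ∧
      (∑ i ∈ Finset.range (d + 1),
        Module.finrank ℝ
          ((((AlgebraicTopology.singularHomologyFunctor (ModuleCat.{0} ℝ) i).obj
            (ModuleCat.of ℝ ℝ)).obj (TopCat.of M) : ModuleCat.{0} ℝ) : Type)) < A.card) →
    ∃ i : ℕ, ∃ g : ((((AlgebraicTopology.singularHomologyFunctor (ModuleCat.{0} ℤ) i).obj
            (ModuleCat.of ℤ ℤ)).obj (TopCat.of M) : ModuleCat.{0} ℤ) : Type),
      addOrderOf g = 2 := by
  intro d M instE instC instI instR instS instRM instComp instSC s hs hA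
  obtain ⟨A, hA, hlt⟩ := hA
  have htop : ∀ x y : M, edist x y ≠ ⊤ :=
    Pool.Agent.W_MP_6d5819_gt.edist_ne_top_of_connected M
  exact @main_metric d M (EMetricSpace.toMetricSpace htop) instC instI instR instS instRM instComp
    inferInstance s hs A hA hlt

end Pool.Agent.S13341
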