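import Pool.Statements.S14062
-- import your own Pool.Agent.* helpers here

set_option autoImplicit false
open Pool Pool.MP_db1942_gt

namespace Pool.Agent.S14062

open Topology Set Filter

/-! ### Finite intersections / finite unions of members of a closed subbase -/

section General

variable {Y : Type}

/-- `A` is a finite intersection of members of `P`. -/
def FinI (P : Set (Set Y)) (A : Set Y) : Prop :=
  ∃ E : Set (Set Y), E.Finite ∧ E ⊆ P ∧ A = ⋂₀ E

/-- `A` is a finite union of finite intersections of members of `P`. -/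
def Good (P : Set (Set Y)) (A : Set Y) : Prop :=
  ∃ T : Set (Set Y), T.Finite ∧ (∀ B ∈ T, FinI P B) ∧ A = ⋃₀ T

theorem FinI.inter {P : Set (Set Y)} {A B : Set Y} (hA : FinI P A) (hB : FinI P B) :
    FinI P (A ∩ B) := by
  obtain ⟨E, hE, hEP, rfl⟩ := hA
  obtain ⟨F, hF, hFP, rfl⟩ := hB
  exact ⟨E ∪ F, hE.union hF, union_subset hEP hFP, (sInter_union E F).symm⟩

theorem Good.inter {P : Set (Set Y)} {A B : Set Y} (hA : Good P A) (hB : Good P B) :
    Good P (A ∩ B) := by
  obtain ⟨T1, hT1, hP1, rfl⟩ := hA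
  obtain ⟨T2, hT2, hP2, rfl⟩ := hB
  refine ⟨image2 (· ∩ ·) T1 T2, hT1.image2 _ hT2, ?_, ?_⟩
  · rintro _ ⟨a, ha, b, hb, rfl⟩
    exact (hP1 a ha).inter (hP2 b hb)
  · ext x
    simp only [mem_inter_iff, mem_sUnion, mem_image2]
    constructor
    · rintro ⟨⟨a, ha, hxa⟩, ⟨b, hb, hxb⟩⟩
      exact ⟨a ∩ b, ⟨a, ha, b, hb, rfl⟩, hxa, hxb⟩
    · rintro ⟨_, ⟨a, ha, b, hb, rfl⟩, hxa, hxb⟩
      exact ⟨⟨a, ha, hxa⟩, ⟨b, hb, hxb⟩⟩

theorem good_univ (P : Set (Set Y)) : Good P univ :=
  ⟨{univ}, finite_singleton _, by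
    intro B hB
    rw [mem_singleton_iff] at hB
    exact ⟨∅, finite_empty, empty_subset _, by simp [hB]⟩, by simp⟩

theorem clopen_good [t : TopologicalSpace Y] [CompactSpace Y] (P : Set (Set Y))
    (ht : t = TopologicalSpace.generateFrom (compl '' P)) {V : Set Y} (hV : IsClopen V) :
    Good P V := by
  have key : ∃ G, Good P G ∧ V ⊆ G ∧ Disjoint G Vᶜ := by
    refine hV.compl.isClosed.isCompact.induction_on
      (p := fun s => ∃ G, Good P G ∧ V ⊆ G ∧ Disjoint G s) ?_ ?_ ?_ ?_
    · exact ⟨univ, good_univ P, subset_univ _, disjoint_empty _⟩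
    · rintro s s' hss ⟨G, hG, hVG, hd⟩
      exact ⟨G, hG, hVG, hd.mono_right hss⟩
    · rintro s s' ⟨G, hG, hVG, hd⟩ ⟨G', hG', hVG', hd'⟩
      refine ⟨G ∩ G', hG.inter hG', subset_inter hVG hVG', ?_⟩
      rw [disjoint_union_right]
      exact ⟨hd.mono_left inter_subset_left, hd'.mono_left inter_subset_right⟩
    · intro x hx
      have hb := TopologicalSpace.isTopologicalBasis_of_subbasis ht
      obtain ⟨v, ⟨f, ⟨hf, hfP⟩, rfl⟩, hxv, hvV⟩ :=
        hb.exists_subset_of_mem_open hx hV.compl.isOpen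
      have hvo : IsOpen (⋂₀ f) := by
        refine hf.isOpen_sInter ?_
        intro a ha
        rw [ht]
        exact TopologicalSpace.GenerateOpen.basic _ (hfP ha)
      refine ⟨⋂₀ f, mem_nhdsWithin_of_mem_nhds (hvo.mem_nhds hxv), ⋃₀ (compl '' f),
        ⟨compl '' f, hf.image _, ?_, rfl⟩, ?_, ?_⟩
      · rintro _ ⟨a, ha, rfl⟩
        obtain ⟨b, hb, rfl⟩ := hfP ha
        exact ⟨{b}, finite_singleton _, by simpa using hb, by simp⟩
      · rw [← compl_sInter]
        exact fun y hy hy' => hvV hy' hy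
      · rw [← compl_sInter]
        exact disjoint_compl_left
  obtain ⟨G, hG, hVG, hd⟩ := key
  have : G = V := by
    apply Subset.antisymm _ hVG
    intro y hy
    by_contra hyV
    exact (disjoint_left.mp hd) hy hyV
  rwa [this] at hG

/-- A binary family stays binary (for three sets) after closing under finite intersections. -/
theorem three_meet {P : Set (Set Y)}
    (hbin : ∀ M ⊆ P, (∀ A ∈ M, ∀ B ∈ M, (A ∩ B).Nonempty) → (⋂₀ M).Nonempty)
    {A B C : Set Y} (hA : FinI P A) (hB : FinI P B) (hC : FinI P C)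
    (hAB : (A ∩ B).Nonempty) (hAC : (A ∩ C).Nonempty) (hBC : (B ∩ C).Nonempty) :
    (A ∩ B ∩ C).Nonempty := by
  obtain ⟨E, hE, hEP, rfl⟩ := hA
  obtain ⟨F, hF, hFP, rfl⟩ := hB
  obtain ⟨G, hG, hGP, rfl⟩ := hC
  have h := hbin (E ∪ F ∪ G) (union_subset (union_subset hEP hFP) hGP) ?_
  · rwa [sInter_union, sInter_union] at h
  · rintro a ((ha | ha) | ha) b ((hb | hb) | hb)
    · obtain ⟨x, hx, -⟩ := hAB
      exact ⟨x, hx a ha, hx b hb⟩
    · exact hAB.mono (fun x hx => ⟨hx.1 a ha, hx.2 b hb⟩)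
    · exact hAC.mono (fun x hx => ⟨hx.1 a ha, hx.2 b hb⟩)
    · exact hAB.mono (fun x hx => ⟨hx.2 a ha, hx.1 b hb⟩)
    · obtain ⟨x, -, hx⟩ := hAB
      exact ⟨x, hx a ha, hx b hb⟩
    · exact hBC.mono (fun x hx => ⟨hx.1 a ha, hx.2 b hb⟩)
    · exact hAC.mono (fun x hx => ⟨hx.2 a ha, hx.1 b hb⟩)
    · exact hBC.mono (fun x hx => ⟨hx.2 a ha, hx.1 b hb⟩)
    · obtain ⟨x, -, hx⟩ := hAC
      exact ⟨x, hx a ha, hx b hb⟩

/-- In a ring containing `P`, finite intersections of finite intersections are regular closed. -/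
theorem reg_sInter [TopologicalSpace Y] {P S : Set (Set Y)} (hPS : P ⊆ S)
    (hS : ∀ A ∈ S, ∀ B ∈ S, A ∩ B ∈ S ∧ A ∪ B ∈ S)
    (hreg : ∀ A ∈ S, closure (interior A) = A)
    {T : Set (Set Y)} (hT : T.Finite) (hTP : ∀ B ∈ T, FinI P B) :
    closure (interior (⋂₀ T)) = ⋂₀ T := by
  have huniv : ∀ A ∈ insert univ S, ∀ B ∈ insert univ S, A ∩ B ∈ insert univ S := by
    rintro A (rfl | hA) B (rfl | hB)
    · simp
    · rw [univ_inter]; exact Or.inr hB
    · rw [inter_univ]; exact Or.inr hA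
    · exact Or.inr (hS A hA B hB).1
  have hfin : ∀ E : Set (Set Y), E.Finite → E ⊆ insert univ S → ⋂₀ E ∈ insert univ S := by
    intro E hE
    refine Set.Finite.induction_on (motive := fun E _ => E ⊆ insert univ S → ⋂₀ E ∈ insert univ S)
      E hE ?_ ?_
    · intro _
      rw [sInter_empty]; exact Or.inl rfl
    · intro a s _ _ ih hsub
      rw [sInter_insert]
      exact huniv a (hsub (mem_insert _ _)) _ (ih ((subset_insert _ _).trans hsub))
  have h1 : T ⊆ insert univ S := by
    intro B hB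
    obtain ⟨E, hE, hEP, rfl⟩ := hTP B hB
    exact hfin E hE (hEP.trans (hPS.trans (subset_insert _ _)))
  rcases hfin T hT h1 with h | h
  · rw [h]; simp
  · exact hreg _ h

end General

/-! ### The space -/

/-- Adequate family of subsets of `ℝ ⊔ ℚ`: at most two reals, at most one rational, and if
there are two reals `a < b` and a rational `q`, then `a < q ≤ b`. -/
def Cond (f : ℝ ⊕ ℚ → Bool) : Prop :=
  (∀ a b c : ℝ, a < b → b < c →
    ¬ (f (.inl a) = true ∧ f (.inl b) = true ∧ f (.inl c) = true)) ∧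
  (∀ p q : ℚ, p ≠ q → ¬ (f (.inr p) = true ∧ f (.inr q) = true)) ∧
  (∀ (a b : ℝ) (q : ℚ), a < b → ¬ (a < q ∧ (q : ℝ) ≤ b) →
    ¬ (f (.inl a) = true ∧ f (.inl b) = true ∧ f (.inr q) = true))

theorem isClosed_three (i j k : ℝ ⊕ ℚ) :
    IsClosed {f : ℝ ⊕ ℚ → Bool | ¬ (f i = true ∧ f j = true ∧ f k = true)} :=
  (isClosed_discrete {t : Bool × Bool × Bool | ¬ (t.1 = true ∧ t.2.1 = true ∧ t.2.2 = true)}).preimage
    (f := fun f : ℝ ⊕ ℚ → Bool => (f i, f j, f k)) (by fun_prop)

theorem isClosed_two (i j : ℝ ⊕ ℚ) :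
    IsClosed {f : ℝ ⊕ ℚ → Bool | ¬ (f i = true ∧ f j = true)} :=
  (isClosed_discrete {t : Bool × Bool | ¬ (t.1 = true ∧ t.2 = true)}).preimage
    (f := fun f : ℝ ⊕ ℚ → Bool => (f i, f j)) (by fun_prop)

theorem isClosed_cond : IsClosed {f : ℝ ⊕ ℚ → Bool | Cond f} := by
  unfold Cond
  simp only [Set.ofPred_and, Set.ofPred_forall]
  refine IsClosed.inter ?_ (IsClosed.inter ?_ ?_)
  · refine isClosed_iInter fun a => isClosed_iInter fun b => isClosed_iInter fun c =>
      isClosed_iInter fun _ => isClosed_iInter fun _ => ?_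
    exact isClosed_three _ _ _
  · refine isClosed_iInter fun a => isClosed_iInter fun b => isClosed_iInter fun _ => ?_
    exact isClosed_two _ _
  · refine isClosed_iInter fun a => isClosed_iInter fun b => isClosed_iInter fun c =>
      isClosed_iInter fun _ => isClosed_iInter fun _ => ?_
    exact isClosed_three _ _ _

/-- The counterexample. -/
abbrev X : Type := {f : ℝ ⊕ ℚ → Bool // Cond f}

instance : CompactSpace X := isCompact_iff_compactSpace.mp isClosed_cond.isCompact

/-- `α` is the lower real of the set. -/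
def Q1 (a : ℝ) : Set X :=
  {f | f.1 (.inl a) = true ∧ (∀ b : ℝ, ¬ (a ≤ b) → f.1 (.inl b) = false) ∧
    (∀ q : ℚ, ¬ (a < q) → f.1 (.inr q) = false)}

/-- `α` is the upper real of the set. -/
def Q2 (a : ℝ) : Set X :=
  {f | f.1 (.inl a) = true ∧ (∀ b : ℝ, ¬ (b ≤ a) → f.1 (.inl b) = false) ∧
    (∀ q : ℚ, ¬ ((q : ℝ) ≤ a) → f.1 (.inr q) = false)}

/-- level `q`. -/
def Bq (q : ℚ) : Set X := {f | f.1 (.inr q) = true}

/-- complement of level `q`. -/
def Cq (q : ℚ) : Set X := {f | f.1 (.inr q) = false}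

/-- sets avoiding the real `a`. -/
def Na (a : ℝ) : Set X := {f | f.1 (.inl a) = false}

/-- sets containing the real `a`. -/
def Va (a : ℝ) : Set X := {f | f.1 (.inl a) = true}

theorem cont_apply (i : ℝ ⊕ ℚ) : Continuous (fun f : X => f.1 i) :=
  (continuous_apply i).comp continuous_subtype_val

theorem isClopen_coord (i : ℝ ⊕ ℚ) (b : Bool) : IsClopen {f : X | f.1 i = b} :=
  (isClopen_discrete {b}).preimage (cont_apply i)

theorem isClosed_Q1 (a : ℝ) : IsClosed (Q1 a) := by
  unfold Q1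
  simp only [Set.ofPred_and, Set.ofPred_forall]
  refine IsClosed.inter (isClopen_coord _ _).isClosed (IsClosed.inter ?_ ?_)
  · exact isClosed_iInter fun b => isClosed_iInter fun _ => (isClopen_coord _ _).isClosed
  · exact isClosed_iInter fun b => isClosed_iInter fun _ => (isClopen_coord _ _).isClosed

theorem isClosed_Q2 (a : ℝ) : IsClosed (Q2 a) := by
  unfold Q2
  simp only [Set.ofPred_and, Set.ofPred_forall]
  refine IsClosed.inter (isClopen_coord _ _).isClosed (IsClosed.inter ?_ ?_)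
  · exact isClosed_iInter fun b => isClosed_iInter fun _ => (isClopen_coord _ _).isClosed
  · exact isClosed_iInter fun b => isClosed_iInter fun _ => (isClopen_coord _ _).isClosed

theorem Q1_union_Q2 (a : ℝ) : Q1 a ∪ Q2 a = Va a := by
  apply Subset.antisymm
  · rintro f (hf | hf)
    · exact hf.1
    · exact hf.1
  · intro f hf
    have hfa : f.1 (.inl a) = true := hf
    obtain ⟨h1, h2, h3⟩ := f.2
    by_cases hup : ∃ b, a < b ∧ f.1 (.inl b) = true
    · obtain ⟨b, hab, hfb⟩ := hup
      left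
      refine ⟨hfa, ?_, ?_⟩
      · intro c hc
        rw [Bool.eq_false_iff]
        intro hfc
        exact h1 c a b (not_le.mp hc) hab ⟨hfc, hfa, hfb⟩
      · intro q hq
        rw [Bool.eq_false_iff]
        intro hfq
        exact h3 a b q hab (fun h => hq h.1) ⟨hfa, hfb, hfq⟩
    · push Not at hup
      by_cases hdn : ∃ b, b < a ∧ f.1 (.inl b) = true
      · obtain ⟨b, hab, hfb⟩ := hdn
        right
        refine ⟨hfa, ?_, ?_⟩
        · intro c hc
          rw [Bool.eq_false_iff]
          exact hup c (not_le.mp hc)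
        · intro q hq
          rw [Bool.eq_false_iff]
          intro hfq
          exact h3 b a q hab (fun h => hq h.2) ⟨hfb, hfa, hfq⟩
      · push Not at hdn
        by_cases hq : ∃ q : ℚ, f.1 (.inr q) = true ∧ (q : ℝ) ≤ a
        · obtain ⟨q, hfq, hqa⟩ := hq
          right
          refine ⟨hfa, ?_, ?_⟩
          · intro c hc
            rw [Bool.eq_false_iff]
            exact hup c (not_le.mp hc)
          · intro r hr
            rw [Bool.eq_false_iff]
            intro hfr
            refine h2 q r ?_ ⟨hfq, hfr⟩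
            rintro rfl
            exact hr hqa
        · push Not at hq
          left
          refine ⟨hfa, ?_, ?_⟩
          · intro c hc
            rw [Bool.eq_false_iff]
            exact hdn c (not_le.mp hc)
          · intro r hr
            rw [Bool.eq_false_iff]
            intro hfr
            exact hr (hq r hfr)

/-- The (non-regular) binary closed subbase. -/
def PP : Set (Set X) :=
  {A | (∃ a, A = Q1 a) ∨ (∃ a, A = Q2 a) ∨ (∃ q, A = Bq q) ∨ (∃ q, A = Cq q) ∨ (∃ a, A = Na a)}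

theorem isClosed_of_mem_PP {A : Set X} (hA : A ∈ PP) : IsClosed A := by
  rcases hA with ⟨a, rfl⟩ | ⟨a, rfl⟩ | ⟨a, rfl⟩ | ⟨a, rfl⟩ | ⟨a, rfl⟩
  · exact isClosed_Q1 a
  · exact isClosed_Q2 a
  · exact (isClopen_coord _ _).isClosed
  · exact (isClopen_coord _ _).isClosed
  · exact (isClopen_coord _ _).isClosed

theorem topology_eq :
    (inferInstance : TopologicalSpace X) = TopologicalSpace.generateFrom (compl '' PP) := by
  apply le_antisymm
  · apply le_generateFrom
    rintro _ ⟨A, hA, rfl⟩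
    exact (isClosed_of_mem_PP hA).isOpen_compl
  · have hbas : ∀ A ∈ PP, IsOpen[TopologicalSpace.generateFrom (compl '' PP)] Aᶜ := fun A hA =>
      TopologicalSpace.GenerateOpen.basic _ ⟨A, hA, rfl⟩
    have hcoord : ∀ (i : ℝ ⊕ ℚ) (b : Bool),
        IsOpen[TopologicalSpace.generateFrom (compl '' PP)] {f : X | f.1 i = b} := by
      let _ := TopologicalSpace.generateFrom (compl '' PP)
      rintro (a | q) (_ | _)
      · have h1 : {f : X | f.1 (.inl a) = false} = (Q1 a)ᶜ ∩ (Q2 a)ᶜ := by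
          rw [← compl_union, Q1_union_Q2]
          ext f; simp [Va]
        rw [h1]
        exact IsOpen.inter (hbas _ (Or.inl ⟨a, rfl⟩)) (hbas _ (Or.inr (Or.inl ⟨a, rfl⟩)))
      · have h1 : {f : X | f.1 (.inl a) = true} = (Na a)ᶜ := by
          ext f; simp [Na]
        rw [h1]
        exact hbas _ (Or.inr (Or.inr (Or.inr (Or.inr ⟨a, rfl⟩))))
      · have h1 : {f : X | f.1 (.inr q) = false} = (Bq q)ᶜ := by
          ext f; simp [Bq]
        rw [h1]
        exact hbas _ (Or.inr (Or.inr (Or.inl ⟨q, rfl⟩)))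
      · have h1 : {f : X | f.1 (.inr q) = true} = (Cq q)ᶜ := by
          ext f; simp [Cq]
        rw [h1]
        exact hbas _ (Or.inr (Or.inr (Or.inr (Or.inl ⟨q, rfl⟩))))
    have hcont : @Continuous X (ℝ ⊕ ℚ → Bool) (TopologicalSpace.generateFrom (compl '' PP)) _
        Subtype.val := by
      let _ := TopologicalSpace.generateFrom (compl '' PP)
      refine continuous_pi fun i => ?_
      rw [continuous_discrete_rng]
      intro b
      exact hcoord i b
    exact continuous_iff_le_induced.mp hcont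

theorem binary_PP : ∀ M ⊆ PP, (∀ A ∈ M, ∀ B ∈ M, (A ∩ B).Nonempty) → (⋂₀ M).Nonempty := by
  classical
  intro M hM hl
  -- basic facts
  have f11 : ∀ a b, Q1 a ∈ M → Q1 b ∈ M → a = b := by
    intro a b ha hb
    obtain ⟨g, hg1, hg2⟩ := hl _ ha _ hb
    by_contra hne
    rcases lt_or_gt_of_ne hne with h | h
    · have := hg2.2.1 a (not_le.mpr h)
      rw [hg1.1] at this; cases this
    · have := hg1.2.1 b (not_le.mpr h)
      rw [hg2.1] at this; cases this
  have f22 : ∀ a b, Q2 a ∈ M → Q2 b ∈ M → a = b := by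
    intro a b ha hb
    obtain ⟨g, hg1, hg2⟩ := hl _ ha _ hb
    by_contra hne
    rcases lt_or_gt_of_ne hne with h | h
    · have := hg1.2.1 b (not_le.mpr h)
      rw [hg2.1] at this; cases this
    · have := hg2.2.1 a (not_le.mpr h)
      rw [hg1.1] at this; cases this
  have f12 : ∀ a b, Q1 a ∈ M → Q2 b ∈ M → a ≤ b := by
    intro a b ha hb
    obtain ⟨g, hg1, hg2⟩ := hl _ ha _ hb
    by_contra hne
    have := hg1.2.1 b hne
    rw [hg2.1] at this; cases this
  have fbb : ∀ p q, Bq p ∈ M → Bq q ∈ M → p = q := by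
    intro p q hp hq
    obtain ⟨g, hg1, hg2⟩ := hl _ hp _ hq
    by_contra hne
    exact g.2.2.1 p q hne ⟨hg1, hg2⟩
  have fbc : ∀ q, Bq q ∈ M → Cq q ∈ M → False := by
    intro q hp hq
    obtain ⟨g, hg1, hg2⟩ := hl _ hp _ hq
    have h1 : g.1 (.inr q) = true := hg1
    have h2 : g.1 (.inr q) = false := hg2
    rw [h1] at h2; cases h2
  have f1b : ∀ a q, Q1 a ∈ M → Bq q ∈ M → a < q := by
    intro a q ha hq
    obtain ⟨g, hg1, hg2⟩ := hl _ ha _ hq
    by_contra hne
    have := hg1.2.2 q hne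
    have h1 : g.1 (.inr q) = true := hg2
    rw [h1] at this; cases this
  have f2b : ∀ a q, Q2 a ∈ M → Bq q ∈ M → (q : ℝ) ≤ a := by
    intro a q ha hq
    obtain ⟨g, hg1, hg2⟩ := hl _ ha _ hq
    by_contra hne
    have := hg1.2.2 q hne
    have h1 : g.1 (.inr q) = true := hg2
    rw [h1] at this; cases this
  have f1n : ∀ a, Q1 a ∈ M → Na a ∈ M → False := by
    intro a ha hn
    obtain ⟨g, hg1, hg2⟩ := hl _ ha _ hn
    have h1 : g.1 (.inl a) = false := hg2
    rw [hg1.1] at h1; cases h1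
  have f2n : ∀ a, Q2 a ∈ M → Na a ∈ M → False := by
    intro a ha hn
    obtain ⟨g, hg1, hg2⟩ := hl _ ha _ hn
    have h1 : g.1 (.inl a) = false := hg2
    rw [hg1.1] at h1; cases h1
  -- the point
  let F : ℝ ⊕ ℚ → Bool := Sum.elim (fun a => decide (Q1 a ∈ M ∨ Q2 a ∈ M))
    (fun q => decide (Bq q ∈ M))
  have hFl : ∀ a, F (.inl a) = true ↔ (Q1 a ∈ M ∨ Q2 a ∈ M) := by
    intro a; simp [F]
  have hFr : ∀ q, F (.inr q) = true ↔ Bq q ∈ M := by
    intro q; simp [F]
  have hFl' : ∀ a, F (.inl a) = false ↔ ¬ (Q1 a ∈ M ∨ Q2 a ∈ M) := by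
    intro a; simp [F]
  have hFr' : ∀ q, F (.inr q) = false ↔ ¬ Bq q ∈ M := by
    intro q; simp [F]
  have hlt : ∀ a b, a < b → F (.inl a) = true → F (.inl b) = true → Q1 a ∈ M ∧ Q2 b ∈ M := by
    intro a b hab ha hb
    rw [hFl] at ha hb
    rcases ha with ha | ha <;> rcases hb with hb | hb
    · exact absurd (f11 a b ha hb) hab.ne
    · exact ⟨ha, hb⟩
    · exact absurd (f12 b a hb ha) (not_le.mpr hab)
    · exact absurd (f22 a b ha hb) hab.ne
  have hcond : Cond F := by
    refine ⟨?_, ?_, ?_⟩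
    · rintro a b c hab hbc ⟨ha, hb, hc⟩
      have h1 := hlt a b hab ha hb
      have h2 := hlt b c hbc hb hc
      exact hab.ne (f11 a b h1.1 h2.1)
    · rintro p q hpq ⟨hp, hq⟩
      exact hpq (fbb p q ((hFr p).mp hp) ((hFr q).mp hq))
    · rintro a b q hab hn ⟨ha, hb, hq⟩
      have h1 := hlt a b hab ha hb
      rw [hFr] at hq
      exact hn ⟨f1b a q h1.1 hq, f2b b q h1.2 hq⟩
  refine ⟨⟨F, hcond⟩, ?_⟩
  intro A hA
  rcases hM hA with ⟨a, rfl⟩ | ⟨a, rfl⟩ | ⟨q, rfl⟩ | ⟨q, rfl⟩ | ⟨a, rfl⟩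
  · refine ⟨(hFl a).mpr (Or.inl hA), ?_, ?_⟩
    · intro b hb
      show F (.inl b) = false
      rw [hFl']
      rintro (h | h)
      · exact hb (f11 a b hA h).le
      · exact hb (f12 a b hA h)
    · intro q hq
      show F (.inr q) = false
      rw [hFr']
      intro h
      exact hq (f1b a q hA h)
  · refine ⟨(hFl a).mpr (Or.inr hA), ?_, ?_⟩
    · intro b hb
      show F (.inl b) = false
      rw [hFl']
      rintro (h | h)
      · exact hb (f12 b a h hA)
      · exact hb (f22 a b hA h).ge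
    · intro q hq
      show F (.inr q) = false
      rw [hFr']
      intro h
      exact hq (f2b a q hA h)
  · exact (hFr q).mpr hA
  · exact (hFr' q).mpr (fun h => fbc q h hA)
  · refine (hFl' a).mpr ?_
    rintro (h | h)
    · exact f1n a h hA
    · exact f2n a h hA

/-! ### Points -/

theorem three_distinct (f : X) {a b c : ℝ} (hab : a ≠ b) (hbc : b ≠ c) (hac : a ≠ c)
    (ha : f.1 (.inl a) = true) (hb : f.1 (.inl b) = true) (hc : f.1 (.inl c) = true) : False := by
  have h := f.2.1
  rcases lt_or_gt_of_ne hab with h1 | h1 <;> rcases lt_or_gt_of_ne hbc with h2 | h2 <;>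
    rcases lt_or_gt_of_ne hac with h3 | h3
  · exact h a b c h1 h2 ⟨ha, hb, hc⟩
  · exact h a b c h1 h2 ⟨ha, hb, hc⟩
  · exact h a c b h3 h2 ⟨ha, hc, hb⟩
  · exact h c a b h3 h1 ⟨hc, ha, hb⟩
  · exact h b a c h1 h3 ⟨hb, ha, hc⟩
  · exact h b c a h2 h3 ⟨hb, hc, ha⟩
  · exact h c b a h2 h1 ⟨hc, hb, ha⟩
  · exact h c b a h2 h1 ⟨hc, hb, ha⟩

open Classical in
/-- the set `{a, b}` (also `{a}` when `a = b`). -/
noncomputable def ypt (a b : ℝ) : X :=
  ⟨fun i => decide (i = .inl a ∨ i = .inl b), by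
    refine ⟨?_, ?_, ?_⟩
    · rintro x y z hxy hyz ⟨hx, hy, hz⟩
      simp only [Sum.inl.injEq, decide_eq_true_eq] at hx hy hz
      rcases hx with rfl | rfl <;> rcases hy with rfl | rfl <;> rcases hz with rfl | rfl <;>
        first
        | exact lt_irrefl _ hxy
        | exact lt_irrefl _ hyz
        | exact lt_irrefl _ (hxy.trans hyz)
    · rintro p q hpq ⟨hp, hq⟩
      simp at hp
    · rintro x y q hxy hn ⟨hx, hy, hq⟩
      simp at hq⟩

open Classical in
/-- the set `{a, b, q}`. -/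
noncomputable def ppt (a b : ℝ) (q : ℚ) (h : a < q ∧ (q : ℝ) ≤ b) : X :=
  ⟨fun i => decide (i = .inl a ∨ i = .inl b ∨ i = .inr q), by
    have hlt : a < b := h.1.trans_le h.2
    refine ⟨?_, ?_, ?_⟩
    · rintro x y z hxy hyz ⟨hx, hy, hz⟩
      simp only [Sum.inl.injEq, reduceCtorEq, or_false, decide_eq_true_eq] at hx hy hz
      rcases hx with rfl | rfl <;> rcases hy with rfl | rfl <;> rcases hz with rfl | rfl <;>
        first
        | exact lt_irrefl _ hxy
        | exact lt_irrefl _ hyz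
        | exact lt_irrefl _ (hxy.trans hyz)
    · rintro p r hpr ⟨hp, hr⟩
      simp only [Sum.inr.injEq, reduceCtorEq, false_or, decide_eq_true_eq] at hp hr
      exact hpr (hp.trans hr.symm)
    · rintro x y r hxy hn ⟨hx, hy, hr⟩
      simp only [Sum.inl.injEq, Sum.inr.injEq, reduceCtorEq, false_or, or_false,
        decide_eq_true_eq] at hx hy hr
      subst hr
      rcases hx with rfl | rfl
      · rcases hy with rfl | rfl
        · exact lt_irrefl _ hxy
        · exact hn h
      · rcases hy with rfl | rfl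
        · exact lt_irrefl _ (hlt.trans hxy)
        · exact lt_irrefl _ hxy⟩

theorem ypt_comm (a b : ℝ) : ypt a b = ypt b a := by
  apply Subtype.ext
  funext i
  simp only [ypt, or_comm]

theorem ypt_left (a b : ℝ) : (ypt a b).1 (.inl a) = true := by simp [ypt]

theorem ypt_right (a b : ℝ) : (ypt a b).1 (.inl b) = true := by simp [ypt]

theorem tendsto_ypt (a : ℝ) : Tendsto (fun b => ypt a b) cofinite (𝓝 (ypt a a)) := by
  rw [tendsto_subtype_rng, tendsto_pi_nhds]
  intro i
  apply tendsto_nhds_of_eventually_eq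
  have hfin : {b : ℝ | ¬ (i ≠ .inl b)}.Finite := by
    apply Set.Subsingleton.finite
    intro b hb c hc
    simp only [ne_eq, not_not, mem_ofPred_eq] at hb hc
    rw [hb] at hc
    exact Sum.inl.inj hc
  have : ∀ᶠ b : ℝ in cofinite, i ≠ .inl b := hfin
  filter_upwards [this] with b hb
  simp [ypt, hb]

open Classical in
/-- auxiliary: `{a,b,q}` if this is a point, otherwise `{a,b}` -/
noncomputable def pfun (a b : ℝ) (q : ℚ) : X :=
  if h : a < q ∧ (q : ℝ) ≤ b then ppt a b q h else ypt a b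

theorem tendsto_pfun (a b : ℝ) : Tendsto (fun q => pfun a b q) cofinite (𝓝 (ypt a b)) := by
  rw [tendsto_subtype_rng, tendsto_pi_nhds]
  intro i
  apply tendsto_nhds_of_eventually_eq
  have hfin : {q : ℚ | ¬ (i ≠ .inr q)}.Finite := by
    apply Set.Subsingleton.finite
    intro b hb c hc
    simp only [ne_eq, not_not, mem_ofPred_eq] at hb hc
    rw [hb] at hc
    exact Sum.inr.inj hc
  have : ∀ᶠ b : ℚ in cofinite, i ≠ .inr b := hfin
  filter_upwards [this] with q hq
  unfold pfun
  split_ifs with h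
  · simp [ypt, ppt, hq]
  · rfl

/-- the points of finite level -/
def Lv : Set X := ⋃ q, Bq q

theorem ypt_mem_closure_of_lt {a b : ℝ} (hab : a < b) : ypt a b ∈ closure Lv := by
  refine mem_closure_of_frequently_of_tendsto (f := fun q => pfun a b q) (b := cofinite) ?_
    (tendsto_pfun a b)
  rw [frequently_cofinite_iff_infinite]
  have hinf : {q : ℚ | a < q ∧ (q : ℝ) ≤ b}.Infinite := by
    obtain ⟨q1, h1, h2⟩ := exists_rat_btwn hab
    obtain ⟨q2, h3, h4⟩ := exists_rat_btwn h2
    have h5 : q1 < q2 := by exact_mod_cast h3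
    refine (Set.Ioo_infinite h5).mono ?_
    rintro q ⟨hq1, hq2⟩
    have h6 : (q1 : ℝ) < q := by exact_mod_cast hq1
    have h7 : (q : ℝ) < q2 := by exact_mod_cast hq2
    exact ⟨h1.trans h6, (h7.trans h4).le⟩
  refine hinf.mono ?_
  intro q hq
  show pfun a b q ∈ Lv
  refine mem_iUnion.mpr ⟨q, ?_⟩
  show (pfun a b q).1 (.inr q) = true
  have : pfun a b q = ppt a b q hq := by
    unfold pfun
    exact dif_pos hq
  rw [this]
  simp [ppt]

theorem ypt_mem_closure_of_ne {a b : ℝ} (hab : a ≠ b) : ypt a b ∈ closure Lv := by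
  rcases lt_or_gt_of_ne hab with h | h
  · exact ypt_mem_closure_of_lt h
  · rw [ypt_comm]; exact ypt_mem_closure_of_lt h

theorem ypt_self_mem_closure (a : ℝ) : ypt a a ∈ closure Lv := by
  have h : ypt a a ∈ closure (closure Lv) := by
    refine mem_closure_of_frequently_of_tendsto (f := fun b => ypt a b) (b := cofinite) ?_
      (tendsto_ypt a)
    rw [frequently_cofinite_iff_infinite]
    refine (Set.infinite_of_finite_compl (s := {b : ℝ | a ≠ b}) ?_).mono ?_
    · refine (finite_singleton a).subset ?_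
      intro b hb
      simpa [eq_comm] using hb
    · intro b hb
      exact ypt_mem_closure_of_ne hb
  rwa [closure_closure] at h

theorem mem_closure_Lv {w : X} {a : ℝ} (hw : w.1 (.inl a) = true) : w ∈ closure Lv := by
  by_cases h1 : ∃ q, w.1 (.inr q) = true
  · obtain ⟨q, hq⟩ := h1
    exact subset_closure (mem_iUnion.mpr ⟨q, hq⟩)
  · push Not at h1
    by_cases h2 : ∃ b, b ≠ a ∧ w.1 (.inl b) = true
    · obtain ⟨b, hba, hb⟩ := h2
      have : w = ypt a b := by
        apply Subtype.ext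
        funext i
        rcases i with c | q
        · by_cases hc : c = a ∨ c = b
          · have h3 : (ypt a b).1 (.inl c) = true := by simpa [ypt] using hc
            rw [h3]
            rcases hc with rfl | rfl
            · exact hw
            · exact hb
          · have h3 : (ypt a b).1 (.inl c) = false := by simpa [ypt] using hc
            rw [h3, Bool.eq_false_iff]
            intro hwc
            push Not at hc
            exact three_distinct w hba.symm (Ne.symm hc.2) (Ne.symm hc.1) hw hb hwc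
        · have h3 : (ypt a b).1 (.inr q) = false := by simp [ypt]
          rw [h3, Bool.eq_false_iff]
          exact h1 q
      rw [this]
      exact ypt_mem_closure_of_ne hba.symm
    · push Not at h2
      have : w = ypt a a := by
        apply Subtype.ext
        funext i
        rcases i with c | q
        · by_cases hc : c = a
          · have h3 : (ypt a a).1 (.inl c) = true := by simpa [ypt] using hc
            rw [h3, hc]
            exact hw
          · have h3 : (ypt a a).1 (.inl c) = false := by simpa [ypt] using hc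
            rw [h3, Bool.eq_false_iff]
            exact h2 c hc
        · have h3 : (ypt a a).1 (.inr q) = false := by simp [ypt]
          rw [h3, Bool.eq_false_iff]
          exact h1 q
      rw [this]
      exact ypt_self_mem_closure a

/-! ### No regular binary subbase -/

theorem not_regular (P : Set (Set X))
    (ht : (inferInstance : TopologicalSpace X) = TopologicalSpace.generateFrom (compl '' P))
    (hbin : ∀ M ⊆ P, (∀ A ∈ M, ∀ B ∈ M, (A ∩ B).Nonempty) → (⋂₀ M).Nonempty)
    (S : Set (Set X)) (hPS : P ⊆ S)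
    (hS : ∀ A ∈ S, ∀ B ∈ S, A ∩ B ∈ S ∧ A ∪ B ∈ S)
    (hreg : ∀ A ∈ S, closure (interior A) = A) : False := by
  classical
  -- finite covers of the clopen sets
  have hV : ∀ a : ℝ, Good P (Va a) := fun a => clopen_good P ht (isClopen_coord (.inl a) true)
  have hB : ∀ q : ℚ, Good P (Bq q) := fun q => clopen_good P ht (isClopen_coord (.inr q) true)
  choose T hTf hTP hTV using hV
  choose U hUf hUP hUB using hB
  have hclosed : ∀ A, FinI P A → IsClosed A := by
    rintro A ⟨E, hE, hEP, rfl⟩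
    refine isClosed_sInter fun B hB => ?_
    rw [← isOpen_compl_iff]
    have h1 : IsOpen[TopologicalSpace.generateFrom (compl '' P)] Bᶜ :=
      TopologicalSpace.GenerateOpen.basic _ ⟨B, hEP hB, rfl⟩
    rw [← ht] at h1
    exact h1
  -- finite level points in the intersection of all main pieces
  have hd : ∀ a : ℝ, ∃ d : X, (∀ A ∈ T a, ypt a a ∈ A → d ∈ A) ∧ ∃ q, d ∈ Bq q := by
    intro a
    have hz : ypt a a ∈ closure (interior (⋂₀ {A | A ∈ T a ∧ ypt a a ∈ A})) := by
      rw [reg_sInter hPS hS hreg ((hTf a).subset (fun A hA => hA.1))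
        (fun B hB => hTP a B hB.1)]
      exact fun A hA => hA.2
    have hVo : IsOpen (Va a) := (isClopen_coord (.inl a) true).isOpen
    obtain ⟨w, hwV, hwI⟩ := mem_closure_iff.mp hz (Va a) hVo (ypt_left a a)
    have hw : w ∈ closure Lv := mem_closure_Lv hwV
    obtain ⟨d, hdI, hdL⟩ := mem_closure_iff.mp hw _ isOpen_interior hwI
    refine ⟨d, ?_, mem_iUnion.mp hdL⟩
    intro A hA hz'
    exact interior_subset hdI A ⟨hA, hz'⟩
  choose d hdT q hdq using hd
  have hpiece : ∀ a : ℝ, ∃ A ∈ U (q a), d a ∈ A := by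
    intro a
    have h := hdq a
    rw [hUB (q a)] at h
    exact h
  choose A hAU hdA using hpiece
  -- the finite exceptional sets
  let F : ℝ → Set ℝ := fun a => {b | ypt a b ∈ ⋃₀ {B | B ∈ T a ∧ ypt a a ∉ B}}
  have hF : ∀ a, (F a).Finite := by
    intro a
    have hfin : {B | B ∈ T a ∧ ypt a a ∉ B}.Finite := (hTf a).subset (fun A hA => hA.1)
    have hcl : IsClosed (⋃₀ {B | B ∈ T a ∧ ypt a a ∉ B}) := by
      rw [sUnion_eq_biUnion]
      exact hfin.isClosed_biUnion (fun B hB => hclosed B (hTP a B hB.1))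
    have hmem : (⋃₀ {B | B ∈ T a ∧ ypt a a ∉ B})ᶜ ∈ 𝓝 (ypt a a) := by
      refine hcl.isOpen_compl.mem_nhds ?_
      rintro ⟨B, hB, hz⟩
      exact hB.2 hz
    have := (tendsto_ypt a) hmem
    rw [mem_map, mem_cofinite] at this
    refine this.subset ?_
    intro b hb hb'
    exact hb' hb
  -- uncountable fibre
  let g : ℝ → ℚ × Set X × Bool := fun a => (q a, A a, decide (a < q a))
  let C : Set (ℚ × Set X × Bool) := ⋃ q : ℚ, ⋃ b : Bool, (fun B => (q, B, b)) '' (U q)
  have hC : C.Countable := by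
    refine countable_iUnion fun q => countable_iUnion fun b => ?_
    exact ((hUf q).image _).countable
  have hgC : ∀ a, g a ∈ C := by
    intro a
    exact mem_iUnion.mpr ⟨q a, mem_iUnion.mpr ⟨decide (a < q a), A a, hAU a, rfl⟩⟩
  obtain ⟨c, hcC, hc⟩ : ∃ c ∈ C, ¬ (g ⁻¹' {c}).Countable := by
    by_contra hcon
    push Not at hcon
    have : (univ : Set ℝ).Countable := by
      refine (hC.biUnion hcon).mono ?_
      intro a _
      exact mem_biUnion (hgC a) rfl
    exact not_countable_univ this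
  -- free pair
  have hKinf : (g ⁻¹' {c}).Infinite := fun h => hc h.countable
  let e := hKinf.natEmbedding
  let K0 : Set ℝ := range (fun n => (e n : ℝ))
  have hK0c : K0.Countable := countable_range _
  have hK0i : K0.Infinite := infinite_range_of_injective
    (fun m n hmn => e.injective (Subtype.ext hmn))
  have hK0K : K0 ⊆ g ⁻¹' {c} := by
    rintro _ ⟨n, rfl⟩
    exact (e n).2
  have hcount : (K0 ∪ ⋃ a ∈ K0, F a).Countable :=
    hK0c.union (hK0c.biUnion fun a _ => (hF a).countable)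
  obtain ⟨b, hbK, hb⟩ : ∃ b ∈ g ⁻¹' {c}, b ∉ K0 ∪ ⋃ a ∈ K0, F a := by
    by_contra hcon
    push Not at hcon
    exact hc (hcount.mono hcon)
  obtain ⟨a, haK0, haF⟩ := (hK0i.sdiff (hF b)).nonempty
  have hbK0 : b ∉ K0 := fun h => hb (Or.inl h)
  have hbF : b ∉ F a := fun h => hb (Or.inr (mem_biUnion haK0 h))
  have hab : a ≠ b := fun h => hbK0 (h ▸ haK0)
  have haK : g a = c := hK0K haK0
  have hbK' : g b = c := hbK
  have hgab : g a = g b := haK.trans hbK'.symm
  have hq : q a = q b := congrArg Prod.fst hgab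
  have hA : A a = A b := congrArg (fun x => x.2.1) hgab
  have hdec : decide (a < (q a : ℝ)) = decide (b < (q b : ℝ)) := congrArg (fun x => x.2.2) hgab
  -- the main pieces containing {a,b}
  obtain ⟨A1, hA1, hyA1⟩ : ∃ A1 ∈ T a, ypt a b ∈ A1 := by
    have h : ypt a b ∈ Va a := ypt_left a b
    rw [hTV a] at h
    exact h
  have hz1 : ypt a a ∈ A1 := by
    by_contra hz
    exact hbF ⟨A1, ⟨hA1, hz⟩, hyA1⟩
  obtain ⟨A2, hA2, hyA2⟩ : ∃ A2 ∈ T b, ypt b a ∈ A2 := by
    have h : ypt b a ∈ Va b := ypt_left b a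
    rw [hTV b] at h
    exact h
  have hz2 : ypt b b ∈ A2 := by
    by_contra hz
    exact haF ⟨A2, ⟨hA2, hz⟩, hyA2⟩
  obtain ⟨w, ⟨hw1, hw2⟩, hw3⟩ := three_meet hbin (hTP a A1 hA1) (hTP b A2 hA2)
    (hUP (q a) (A a) (hAU a)) ⟨ypt a b, hyA1, by rw [ypt_comm]; exact hyA2⟩
    ⟨d a, hdT a A1 hA1 hz1, hdA a⟩ ⟨d b, hdT b A2 hA2 hz2, by rw [hA]; exact hdA b⟩
  have hwa : w.1 (.inl a) = true := by
    have : w ∈ Va a := by
      rw [hTV a]; exact ⟨A1, hA1, hw1⟩
    exact this
  have hwb : w.1 (.inl b) = true := by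
    have : w ∈ Va b := by
      rw [hTV b]; exact ⟨A2, hA2, hw2⟩
    exact this
  have hwq : w.1 (.inr (q a)) = true := by
    have : w ∈ Bq (q a) := by
      rw [hUB (q a)]; exact ⟨A a, hAU a, hw3⟩
    exact this
  rw [← hq, decide_eq_decide] at hdec
  rcases lt_or_gt_of_ne hab with hlt | hlt
  · by_cases hh : a < (q a : ℝ) ∧ (q a : ℝ) ≤ b
    · exact absurd (hdec.mp hh.1) (not_lt.mpr hh.2)
    · exact w.2.2.2 a b (q a) hlt hh ⟨hwa, hwb, hwq⟩
  · by_cases hh : b < (q a : ℝ) ∧ (q a : ℝ) ≤ a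
    · exact absurd (hdec.mpr hh.1) (not_lt.mpr hh.2)
    · exact w.2.2.2 b a (q a) hlt hh ⟨hwb, hwa, hwq⟩

/-- The negation of the preceding statement: Every compact Hausdorff space with a binary closed subbase has a binary closed subbase whose generated lattice under finite unions and intersections consists only of regular closed sets. -/
theorem result :
    ¬ (∀ (X : Type) [t : TopologicalSpace X] [T2Space X] [CompactSpace X],
      (∃ P : Set (Set X),
          t = TopologicalSpace.generateFrom (compl '' P) ∧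
          ∀ M ⊆ P, (∀ A ∈ M, ∀ B ∈ M, (A ∩ B).Nonempty) → (⋂₀ M).Nonempty) →
      ∃ P : Set (Set X),
          t = TopologicalSpace.generateFrom (compl '' P) ∧
          (∀ M ⊆ P, (∀ A ∈ M, ∀ B ∈ M, (A ∩ B).Nonempty) → (⋂₀ M).Nonempty) ∧
          ∃ S : Set (Set X), P ⊆ S ∧
            (∀ A ∈ S, ∀ B ∈ S, A ∩ B ∈ S ∧ A ∪ B ∈ S) ∧
            ∀ A ∈ S, closure (interior A) = A) := by
  intro h
  obtain ⟨P, hP, hbin, S, hPS, hS, hreg⟩ := h X ⟨PP, topology_eq, binary_PP⟩
  exact not_regular P hP hbin S hPS hS hreg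

end Pool.Agent.S14062
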