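import Pool.Statements.S14079
import Pool.Agent.W_MP_dd0508_gt.Main

set_option autoImplicit false
open MeasureTheory
open Pool Pool.MP_dd0508_gt

namespace Pool.Agent.S14079

/-- For every planar convex body K there are three pairwise non-parallel directions such that any measurable set whose X-rays in those directions agree with K's on almost every line equals K up to a null set. -/
theorem result :
    ∀ K : Set (ℝ × ℝ), IsCompact K → Convex ℝ K → (interior K).Nonempty →
      ∃ u : Fin 3 → ℝ × ℝ,
        (∀ i j : Fin 3, i ≠ j → LinearIndependent ℝ ![u i, u j]) ∧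
        ∀ L : Set (ℝ × ℝ), MeasurableSet L →
          (∀ i : Fin 3, ∀ᵐ x ∂(volume : Measure (ℝ × ℝ)),
              (∫⁻ t : ℝ, L.indicator (1 : ℝ × ℝ → ENNReal) (x + t • u i)) =
              (∫⁻ t : ℝ, K.indicator (1 : ℝ × ℝ → ENNReal) (x + t • u i))) →
          L =ᵐ[(volume : Measure (ℝ × ℝ))] K := by
  intro K hc hK hi
  exact (XR57.verif hc hK hi).frozen hc

end Pool.Agent.S14079
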