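import Pool.Statements.S14891
import Pool.Agent.W_MP_733b23_lc.Final

set_option autoImplicit false
open Pool Pool.MP_733b23_lc

namespace Pool.Agent.S14891

/-- Over any finite alphabet, every regular set of nonempty words with deciphering delay d, whose reversal has delay d', is contained in a regular set of nonempty words with the same two delays that is complete, i.e. every word is a factor of a word in its star. -/
theorem result :
    ∀ (α : Type) [Fintype α] (d d' : ℕ) (X : Language α),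
      (∃ (σ : Type) (_ : Fintype σ) (M : DFA α σ), M.accepts = X) →
      [] ∉ X →
      (∀ x ∈ X, ∀ x' ∈ X, ∀ y ∈ X ^ d, ∀ y' ∈ KStar.kstar X,
          x ++ y <+: x' ++ y' → x = x') →
      (∀ x ∈ X, ∀ x' ∈ X, ∀ y ∈ X ^ d', ∀ y' ∈ KStar.kstar X,
          y ++ x <:+ y' ++ x' → x = x') →
      ∃ Y : Language α,
        (∃ (τ : Type) (_ : Fintype τ) (N : DFA α τ), N.accepts = Y) ∧
        [] ∉ Y ∧
        (∀ w ∈ X, w ∈ Y) ∧
        (∀ x ∈ Y, ∀ x' ∈ Y, ∀ y ∈ Y ^ d, ∀ y' ∈ KStar.kstar Y,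
            x ++ y <+: x' ++ y' → x = x') ∧
        (∀ x ∈ Y, ∀ x' ∈ Y, ∀ y ∈ Y ^ d', ∀ y' ∈ KStar.kstar Y,
            y ++ x <:+ y' ++ x' → x = x') ∧
        (∀ w : List α, ∃ u v : List α, u ++ w ++ v ∈ KStar.kstar Y) := by
  intro α _ d d' X hreg hnil hL hR
  by_cases hne : ∃ x, x ∈ X
  · have hX : W_MP_733b23_lc.Good (X : Set (List α)) d d' X := W_MP_733b23_lc.good_of_frozen hreg hnil hL hR
    obtain ⟨x0, hx0⟩ := hne
    obtain ⟨Y, hY, hc⟩ := W_MP_733b23_lc.main_good hX ⟨x0, hx0⟩
    refine ⟨Y, (W_MP_733b23_lc.FC.reg_iff_dfa Y).1 hY.reg, hY.nil, fun w hw => hY.sub hw,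
      W_MP_733b23_lc.frozen_of_good_L ⟨x0, hx0⟩ hY, W_MP_733b23_lc.frozen_of_good_R ⟨x0, hx0⟩ hY, ?_⟩
    intro w
    obtain ⟨u, v, S, hS, hSY⟩ := hc w
    exact ⟨u, v, Language.mem_kstar.2 ⟨S, hS.symm, hSY⟩⟩
  · refine ⟨({w : List α | w.length = 1} : Set (List α)), W_MP_733b23_lc.reg_letters, ?_, ?_, ?_, ?_, ?_⟩
    · intro h
      have h : ([] : List α).length = 1 := h
      simp at h
    · intro w hw
      exact absurd ⟨w, hw⟩ hne
    · intro x hx x' hx' y _ y' _ h
      have hx : x.length = 1 := hx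
      have hx' : x'.length = 1 := hx'
      obtain ⟨s, hs⟩ := h
      rw [List.append_assoc] at hs
      exact (List.append_inj hs (hx.trans hx'.symm)).1
    · intro x hx x' hx' y _ y' _ h
      have hx : x.length = 1 := hx
      have hx' : x'.length = 1 := hx'
      obtain ⟨s, hs⟩ := h
      rw [← List.append_assoc] at hs
      exact (List.append_inj' hs (hx.trans hx'.symm)).2
    · intro w
      refine ⟨[], [], Language.mem_kstar.2 ⟨w.map (fun a => [a]), ?_, ?_⟩⟩
      · induction w with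
        | nil => simp
        | cons a w ih => simpa using ih
      · intro y hy
        obtain ⟨a, _, rfl⟩ := List.mem_map.1 hy
        exact (rfl : [a].length = 1)

end Pool.Agent.S14891
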