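import Pool.Statements.S15337
import Pool.Agent.W_MP_c77619_lc.Complete

/-!
# Homomorphism equivalence on indexed languages is decidable

Idea of the proof. Words over the natural numbers are coded injectively by affine maps of the
integers, so a pair of homomorphisms `h, g` gives a monoid morphism `μ` into a five-dimensional
algebra and `h(w) = g(w)` is a linear condition on `μ(w)`. The nonterminals of an indexed grammar
choose independently, so the linear span of `μ(L(A, f σ))` is determined by the linear spans of the
sets `μ(L(B, σ))`: it is spanned by vectors with entries in `ℤ[x]`, where the `x` are the coordinates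
of five generating vectors for each nonterminal at the level `σ`. The module generated by all these
vectors over the Noetherian ring `ℤ[x]` is finitely generated. Finite generating sets, together with
the coefficients that express the closure under the productions, form a finite certificate of
equivalence that can be checked. Hence equivalence is recursively enumerable, and so is
inequivalence; by the theorem of Post the problem is decidable.
-/

set_option autoImplicit false
open Pool Pool.MP_c77619_lc

namespace Pool.Agent.S15337

open Pool.Agent.W_MP_c77619_lc in
theorem decidable_aux : ComputablePred (fun p : Inp => ∀ w : List ℕ,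
    Relation.ReflTransGen (Step p.2.1) ([Sum.inl (p.1, [])] : Form) (w.map Sum.inr : Form) →
      hom p.2.2.1 w = hom p.2.2.2 w) := by
  rw [ComputablePred.computable_iff_re_compl_re']
  constructor
  · refine (sig_good.of_eq ?_).re
    intro p
    constructor
    · rintro ⟨K, cert, hG⟩ w hw
      exact sound hG (rtg_iff_gen.mp hw)
    · intro h
      exact complete (fun w hw => h w (rtg_iff_gen.mpr hw))
  · refine (sig_neg.of_eq ?_).re
    intro p
    push Not
    rfl

/-- It is computably decidable, given an indexed grammar in normal form and two letter-to-word homomorphisms h and g, whether h(w) = g(w) for every word w generated by the grammar. -/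
theorem result :
    ComputablePred
      (fun p : ℕ × List (ℕ × ℕ × ℕ × ℕ) × List (List ℕ) × List (List ℕ) =>
        ∀ w : List ℕ,
          Relation.ReflTransGen
            (fun (u v : List ((ℕ × List ℕ) ⊕ ℕ)) =>
              ∃ (pre suf : List ((ℕ × List ℕ) ⊕ ℕ)) (A : ℕ) (σ : List ℕ),
                u = pre ++ Sum.inl (A, σ) :: suf ∧
                ∃ r ∈ p.2.1, r.2.1 = A ∧
                  ((r.1 = 0 ∧
                      v = pre ++ Sum.inl (r.2.2.1, σ) :: Sum.inl (r.2.2.2, σ) :: suf) ∨
                   (r.1 = 1 ∧ v = pre ++ Sum.inl (r.2.2.1, r.2.2.2 :: σ) :: suf) ∨
                   (r.1 = 2 ∧ ∃ τ : List ℕ, σ = r.2.2.2 :: τ ∧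
                      v = pre ++ Sum.inl (r.2.2.1, τ) :: suf) ∨
                   (r.1 = 3 ∧ v = pre ++ Sum.inr r.2.2.1 :: suf) ∨
                   (r.1 = 4 ∧ v = pre ++ suf)))
            ([Sum.inl (p.1, [])] : List ((ℕ × List ℕ) ⊕ ℕ))
            (List.map Sum.inr w : List ((ℕ × List ℕ) ⊕ ℕ)) →
          w.flatMap (fun a => p.2.2.1.getD a []) =
            w.flatMap (fun a => p.2.2.2.getD a [])) := by
  exact decidable_aux

end Pool.Agent.S15337
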