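-- Proof of the frozen statement S15593.
import Pool.Statements.S15593
import Pool.Agent.W_MP_ef54cf_lc.Main

set_option autoImplicit false
open Pool Pool.MP_ef54cf_lc

namespace Pool.Agent.S15593

open Pool.Agent.W_MP_ef54cf_lc in
/-- There is a countable group acting continuously on Baire space and a Borel bijection Φ from Cantor space onto Baire space sending Turing equivalence exactly to orbit equivalence, with Φ(x) Turing-equivalent to the jump of x for all x above some z. -/
theorem result :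
    ∃ (G : Type) (_ : Group G) (_ : Countable G) (_ : MulAction G (ℕ → ℕ)),
      (∀ g : G, Continuous (fun y : ℕ → ℕ => g • y)) ∧
      ∃ Φ : (ℕ → Bool) ≃ᵐ (ℕ → ℕ),
        (∀ x y : ℕ → Bool,
          (RecursiveIn {PFun.lift (fun n => (x n).toNat)} (PFun.lift (fun n => (y n).toNat)) ∧
           RecursiveIn {PFun.lift (fun n => (y n).toNat)} (PFun.lift (fun n => (x n).toNat)))
            ↔ ∃ g : G, g • Φ x = Φ y) ∧
        ∃ z : ℕ → Bool, ∀ x : ℕ → Bool,
          RecursiveIn {PFun.lift (fun n => (x n).toNat)} (PFun.lift (fun n => (z n).toNat)) →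
          ∃ A : Set ℕ,
            (∃ f : ℕ →. ℕ, RecursiveIn {PFun.lift (fun n => (x n).toNat)} f ∧
                ∀ n, n ∈ A ↔ (f n).Dom) ∧
            (∀ B : Set ℕ,
              (∃ f : ℕ →. ℕ, RecursiveIn {PFun.lift (fun n => (x n).toNat)} f ∧
                  ∀ n, n ∈ B ↔ (f n).Dom) →
              RecursiveIn {PFun.lift (A.indicator (fun _ => (1 : ℕ)))}
                (PFun.lift (B.indicator (fun _ => (1 : ℕ))))) ∧
            RecursiveIn {PFun.lift (A.indicator (fun _ => (1 : ℕ)))} (PFun.lift (Φ x)) ∧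
            RecursiveIn {PFun.lift (Φ x)} (PFun.lift (A.indicator (fun _ => (1 : ℕ)))) := by
  obtain ⟨Φ, hΦ⟩ := exists_Phi
  refine ⟨Gam, inferInstance, inferInstance,
    { smul := act
      one_smul := act_one
      mul_smul := act_mul }, fun g => continuous_act g, Φ, ?_, zz, ?_⟩
  · intro x y
    rw [RecursiveIn.iff_nat, RecursiveIn.iff_nat]
    have h1 : TE x y ↔ Rel (Φ x) (Φ y) := L_iff (hΦ x) (hΦ y)
    have h2 : (∃ g : Gam, act g (Φ x) = Φ y) ↔ Rel (Φ x) (Φ y) := orbit_iff
    constructor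
    · rintro ⟨h3, h4⟩
      exact h2.mpr (h1.mp ⟨h4, h3⟩)
    · intro h
      have h3 : TE x y := h1.mpr (h2.mp h)
      exact ⟨h3.2, h3.1⟩
  · intro x hx
    rw [RecursiveIn.iff_nat] at hx
    have hxZ : x ∉ Z := not_mem_Z_of_cone hx
    obtain ⟨h1, h2⟩ := L_of_cone hxZ (hΦ x)
    obtain ⟨h3, h4⟩ := jump_of_cone h1 h2
    refine ⟨K0 (nat x), ?_, ?_, ?_, ?_⟩
    · obtain ⟨f, hf, hf'⟩ := exists_re (nat x)
      exact ⟨f, RecursiveIn.iff_nat.mpr hf, hf'⟩
    · rintro B ⟨f, hf, hf'⟩
      obtain ⟨e, he⟩ := exists_section (RecursiveIn.iff_nat.mp hf)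
      exact RecursiveIn.iff_nat.mpr
        (TR.indicator_of_section (e := e) (fun n => (hf' n).trans (he n)))
    · exact RecursiveIn.iff_nat.mpr h3
    · exact RecursiveIn.iff_nat.mpr h4

end Pool.Agent.S15593
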