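import Pool.Statements.S17624
import Pool.Agent.W_MP_83c777_nt.Assembly

set_option autoImplicit false
open Pool Pool.MP_83c777_nt

namespace Pool.Agent.S17624

/-- The negation of the preceding statement: There are infinitely many natural numbers k, not prime powers, such that for every n ≥ 2k some n−i with 0 ≤ i < k divides the binomial coefficient C(n,k). -/
theorem result :
    ¬ (Set.Infinite {k : ℕ | ¬ IsPrimePow k ∧
      ∀ n : ℕ, 2 * k ≤ n → ∃ i : ℕ, i < k ∧ (n - i) ∣ n.choose k}) := by
  exact Pool.Agent.W_MP_83c777_nt.finite_exceptions

end Pool.Agent.S17624
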