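import Pool.Statements.S17720
import Pool.Agent.W_MP_8d5d9c_nt.Final

set_option autoImplicit false
open Pool Pool.MP_8d5d9c_nt

namespace Pool.Agent.S17720

/-- The negation of the preceding statement: If x is continued-fraction normal (its Gauss-map orbit is equidistributed for the Gauss measure) and q, r are irrational roots of nonzero integer quadratics with q nonzero, then q times x plus r is also continued-fraction normal. -/
theorem result :
    ¬ (∀ x q r : ℝ,
      (Irrational x ∧ ∀ t : ℝ, 0 ≤ t → t ≤ 1 →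
        Filter.Tendsto
          (fun N : ℕ =>
            (((Finset.range N).filter
              (fun n => (fun y : ℝ => Int.fract (1 / y))^[n] (Int.fract x) < t)).card : ℝ) / (N : ℝ))
          Filter.atTop (nhds (Real.log (1 + t) / Real.log 2))) →
      (Irrational q ∧ ∃ a b c : ℤ, (a ≠ 0 ∨ b ≠ 0 ∨ c ≠ 0) ∧
        (a : ℝ) * q ^ 2 + (b : ℝ) * q + (c : ℝ) = 0) →
      (Irrational r ∧ ∃ a b c : ℤ, (a ≠ 0 ∨ b ≠ 0 ∨ c ≠ 0) ∧
        (a : ℝ) * r ^ 2 + (b : ℝ) * r + (c : ℝ) = 0) →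
      q ≠ 0 →
      (Irrational (q * x + r) ∧ ∀ t : ℝ, 0 ≤ t → t ≤ 1 →
        Filter.Tendsto
          (fun N : ℕ =>
            (((Finset.range N).filter
              (fun n => (fun y : ℝ => Int.fract (1 / y))^[n] (Int.fract (q * x + r)) < t)).card : ℝ) / (N : ℝ))
          Filter.atTop (nhds (Real.log (1 + t) / Real.log 2)))) := by
  intro hall
  obtain ⟨x, hx1, hx2, hx3⟩ := Pool.Agent.W_MP_8d5d9c_nt.main_exists
  have hx0 := hx1 0
  simp only [Function.iterate_zero, id_eq] at hx0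
  have hxirr : Irrational x := Pool.Agent.W_MP_8d5d9c_nt.irr_of_seq hx1
  have hfr : Int.fract x = x := Int.fract_eq_self.mpr ⟨hx0.1.le, hx0.2⟩
  have hquad : Irrational √2 ∧ ∃ a b c : ℤ, (a ≠ 0 ∨ b ≠ 0 ∨ c ≠ 0) ∧
        (a : ℝ) * √2 ^ 2 + (b : ℝ) * √2 + (c : ℝ) = 0 := by
    refine ⟨irrational_sqrt_two, 1, 0, -2, Or.inl one_ne_zero, ?_⟩
    rw [Real.sq_sqrt (by norm_num)]
    push_cast
    ring
  have hne : √2 ≠ 0 := by positivity
  have hy := hall x √2 √2 ⟨hxirr, ?_⟩ hquad hquad hne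
  · have h1 := hy.2 (1/2) (by norm_num) (by norm_num)
    have h2 : Filter.Tendsto (fun N : ℕ => Pool.Agent.W_MP_8d5d9c_nt.cX
        (fun n => Pool.Agent.W_MP_8d5d9c_nt.T^[n] (Int.fract (√2 * x + √2))) (1/2) N / (N : ℝ))
        Filter.atTop (nhds (Real.log (1 + 1/2) / Real.log 2)) := by
      refine h1.congr fun N => ?_
      rw [← Pool.Agent.W_MP_8d5d9c_nt.cX_card]
      rfl
    exact Pool.Agent.W_MP_8d5d9c_nt.not_equi _ hx3 _ Pool.Agent.W_MP_8d5d9c_nt.log_pos' h2
  · intro t ht0 ht1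
    have h1 := hx2 t
    rw [Pool.Agent.W_MP_8d5d9c_nt.G_of_mem ht0 ht1] at h1
    refine h1.congr fun N => ?_
    rw [← Pool.Agent.W_MP_8d5d9c_nt.cX_card, hfr]
    rfl

end Pool.Agent.S17720
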