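import Pool.Statements.S18153
import Pool.Agent.W_MP_af6696_nt.Main
import Pool.Agent.W_MP_af6696_nt.Lists

set_option autoImplicit false
open Pool Pool.MP_af6696_nt

namespace Pool.Agent.S18153

open Pool.Agent.W_MP_af6696_nt

/-- the gap function on residue classes -/
def bz (b : ℕ → ℕ) (M : ℕ) (k : ZMod M) : ℕ := b ((k.val + M - 1) % M + 1)

theorem bz_cast (b : ℕ → ℕ) {M : ℕ} (hM : 1 ≤ M) (x : ℕ) :
    bz b M (x : ZMod M) = b ((x + M - 1) % M + 1) := by
  unfold bz
  rw [ZMod.val_natCast]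
  congr 2
  have h1 : x % M + M - 1 = x % M + (M - 1) := by omega
  have h2 : x + M - 1 = x + (M - 1) := by omega
  rw [h1, h2, Nat.mod_add_mod]

theorem finite_C {M f : ℕ} (hM : 1 ≤ M) {C : Set ℕ}
    (hC : C.Finite ∨ (f = 0 ∧ ∃ s : ℕ, 1 ≤ s ∧ 2 ^ (s - 1) < M ∧
      C = {m : ℕ | 1 ≤ m ∧ ¬ ∃ S : Finset ℕ, S.sum id = m ∧
        ∀ x ∈ S, 0 < x ∧ ∃ j : ℕ, 1 ≤ j ∧ j ≤ s ∧ Nat.ModEq M x (M - 2 ^ (j - 1))})) :
    C.Finite := by
  rcases hC with h | ⟨-, s, hs, hsM, rfl⟩
  · exact h
  · exact finite_case_two hM hs hsM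

/-- Consider all M≥1, f in {0,1}, positive gaps b_1..b_M, and C either finite or (f=0) the non-sums of distinct parts in classes M−2^(j−1). Then partitions avoiding C with residue-dependent gaps satisfy B(n) ~ α n^(−3/4) e^(β√n) for some α>0 and real β. -/
theorem result :
  ∀ (M f : ℕ) (b : ℕ → ℕ) (C : Set ℕ),
    1 ≤ M → f ≤ 1 → (∀ j, 1 ≤ j → j ≤ M → 0 < b j) →
    (C.Finite ∨ (f = 0 ∧ ∃ s : ℕ, 1 ≤ s ∧ 2 ^ (s - 1) < M ∧
      C = {m : ℕ | 1 ≤ m ∧ ¬ ∃ S : Finset ℕ, S.sum id = m ∧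
        ∀ x ∈ S, 0 < x ∧ ∃ j : ℕ, 1 ≤ j ∧ j ≤ s ∧ Nat.ModEq M x (M - 2 ^ (j - 1))})) →
    ∃ α β : ℝ, 0 < α ∧ Filter.Tendsto (fun n : ℕ =>
      ((Set.ncard {l : List ℕ | l.sum = n ∧ (∀ x ∈ l, 0 < x ∧ x ∉ C) ∧
          l.Pairwise (· ≥ ·) ∧
          ∀ i : ℕ, i + 1 < l.length →
            l.getD (i + 1) 0 + b ((l.getD (i + f) 0 + M - 1) % M + 1) ≤ l.getD i 0} : ℕ) : ℝ)
        / ((n : ℝ) ^ (-(3 / 4 : ℝ)) * Real.exp (β * Real.sqrt n)))
      Filter.atTop (nhds α) := by
  intro M f b C hM hf hb hC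
  have : NeZero M := ⟨by omega⟩
  have hCfin := finite_C hM hC
  obtain ⟨c₀, hc₀⟩ := hCfin.bddAbove
  set al : ℕ → Prop := fun x => 0 < x ∧ x ∉ C with hal
  have h0 : ¬ al 0 := fun h => lt_irrefl 0 h.1
  have halc : ∀ c, c₀ < c → al c := fun c hc =>
    ⟨by omega, fun h => by have := hc₀ h; omega⟩
  set L : ℕ := ∑ j ∈ Finset.range M, b (j + 1) with hL
  have hb1 : ∀ k : ZMod M, 1 ≤ bz b M k := fun k => by
    have h1 : (k.val + M - 1) % M < M := Nat.mod_lt _ (by omega)
    exact hb _ (by omega) (by omega)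
  have hbL : ∀ k : ZMod M, bz b M k ≤ L := fun k => by
    have h1 : (k.val + M - 1) % M < M := Nat.mod_lt _ (by omega)
    exact Finset.single_le_sum (f := fun j => b (j + 1)) (fun _ _ => Nat.zero_le _)
      (Finset.mem_range.mpr h1)
  have hLpos : 0 < L := by
    have h1 := hb1 0
    have h2 := hbL 0
    omega
  rcases (by omega : f = 0 ∨ f = 1) with rfl | rfl
  · have hlt : ∀ x y, ok0 (bz b M) x y → x < y := fun x y h => by
      have h1 : x + bz b M (y : ZMod M) ≤ y := h
      have h2 := hb1 (y : ZMod M)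
      omega
    have htr : ∀ x y w, ok0 (bz b M) x y → ok0 (bz b M) y w → ok0 (bz b M) x w :=
      fun x y w h h' => by
        have h1 : x + bz b M (y : ZMod M) ≤ y := h
        have h2 : y + bz b M (w : ZMod M) ≤ w := h'
        show x + bz b M (w : ZMod M) ≤ w
        omega
    have hfar : ∀ x y, x + L ≤ y → ok0 (bz b M) x y := fun x y h => by
      have h1 := hbL (y : ZMod M)
      show x + bz b M (y : ZMod M) ≤ y
      omega
    obtain ⟨A, hA, K, hK, hlim⟩ := asym0 (bz b M) hb1 hbL h0 halc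
    obtain ⟨α, β, hα, hmain⟩ := coeff_asym h0 hLpos hfar halc hA hK hlim
    refine ⟨α, β, hα, ?_⟩
    refine hmain.congr fun n => ?_
    congr 2
    rw [← ncard_lists hlt htr n]
    congr 1
    ext l
    simp only [Set.mem_ofPred_eq]
    refine and_congr_right fun _ => and_congr_right fun _ => and_congr_right fun _ => ?_
    refine forall_congr' fun i => ?_
    constructor
    · intro h hi
      have h1 := h hi
      have h2 : i < l.length := by omega
      rw [add_zero, List.getD_eq_getElem _ _ hi, List.getD_eq_getElem _ _ h2, ← bz_cast b hM]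
      exact h1
    · intro h hi
      have h1 := h hi
      have h2 : i < l.length := by omega
      rw [add_zero, List.getD_eq_getElem _ _ hi, List.getD_eq_getElem _ _ h2, ← bz_cast b hM] at h1
      exact h1
  · have hlt : ∀ x y, ok1 (bz b M) x y → x < y := fun x y h => by
      have h1 : x + bz b M (x : ZMod M) ≤ y := h
      have h2 := hb1 (x : ZMod M)
      omega
    have htr : ∀ x y w, ok1 (bz b M) x y → ok1 (bz b M) y w → ok1 (bz b M) x w :=
      fun x y w h h' => by
        have h1 : x + bz b M (x : ZMod M) ≤ y := h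
        have h2 : y + bz b M (y : ZMod M) ≤ w := h'
        show x + bz b M (x : ZMod M) ≤ w
        omega
    have hfar : ∀ x y, x + L ≤ y → ok1 (bz b M) x y := fun x y h => by
      have h1 := hbL (x : ZMod M)
      show x + bz b M (x : ZMod M) ≤ y
      omega
    obtain ⟨A, hA, K, hK, hlim⟩ := asym1 (bz b M) hb1 hbL h0 halc
    obtain ⟨α, β, hα, hmain⟩ := coeff_asym h0 hLpos hfar halc hA hK hlim
    refine ⟨α, β, hα, ?_⟩
    refine hmain.congr fun n => ?_
    congr 2
    rw [← ncard_lists hlt htr n]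
    congr 1
    ext l
    simp only [Set.mem_ofPred_eq]
    refine and_congr_right fun _ => and_congr_right fun _ => and_congr_right fun _ => ?_
    refine forall_congr' fun i => ?_
    constructor
    · intro h hi
      have h1 := h hi
      have h2 : i < l.length := by omega
      rw [List.getD_eq_getElem _ _ hi, List.getD_eq_getElem _ _ h2, ← bz_cast b hM]
      exact h1
    · intro h hi
      have h1 := h hi
      have h2 : i < l.length := by omega
      rw [List.getD_eq_getElem _ _ hi, List.getD_eq_getElem _ _ h2, ← bz_cast b hM] at h1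
      exact h1

end Pool.Agent.S18153
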