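import Pool.Statements.S18225
import Pool.Agent.W_MP_b5ad3e_nt.Main

set_option autoImplicit false
open Filter
open Pool Pool.MP_b5ad3e_nt

namespace Pool.Agent.S18225

/-- There is a base b≥2 and a strictly increasing positive sequence A with A(N)>N^θ eventually for each θ<1 such that the base-b concatenation number of A has, in every base b^m, each digit count's limsup/liminf of (count−n/B)/√(2n log log n) equal to ±√(B−1)/B. -/
theorem result :
    ∃ b : ℕ, 2 ≤ b ∧ ∃ a : ℕ → ℕ, StrictMono a ∧ (∀ n, 0 < a n) ∧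
      (∀ θ : ℝ, θ < 1 → ∀ᶠ N : ℕ in atTop,
          (N : ℝ) ^ θ < (Nat.card {n : ℕ | a n ≤ N} : ℝ)) ∧
      ∃ d : ℕ → ℕ,
        (∀ n r : ℕ, r < (Nat.digits b (a n)).length →
          d ((∑ j ∈ Finset.range n, (Nat.digits b (a j)).length) + r)
            = ((Nat.digits b (a n)).reverse).getD r 0) ∧
        ∃ ξ : ℝ, ξ = ∑' i : ℕ, (d i : ℝ) / (b : ℝ) ^ (i + 1) ∧
          ∀ m : ℕ, 1 ≤ m → ∀ k : ℕ, k < b ^ m →
            ∀ F : ℕ → ℝ,
              (∀ n : ℕ, F n =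
                ((((Finset.range n).filter
                    (fun i : ℕ => ⌊ξ * ((b : ℝ) ^ m) ^ (i + 1)⌋ % ((b : ℤ) ^ m) = (k : ℤ))).card : ℝ)
                  - (n : ℝ) / (b : ℝ) ^ m)
                / Real.sqrt (2 * (n : ℝ) * Real.log (Real.log (n : ℝ)))) →
              ∀ ε : ℝ, 0 < ε →
                (∀ᶠ n in atTop, F n < Real.sqrt ((b : ℝ) ^ m - 1) / (b : ℝ) ^ m + ε) ∧
                (∃ᶠ n in atTop, Real.sqrt ((b : ℝ) ^ m - 1) / (b : ℝ) ^ m - ε < F n) ∧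
                (∀ᶠ n in atTop, -(Real.sqrt ((b : ℝ) ^ m - 1) / (b : ℝ) ^ m) - ε < F n) ∧
                (∃ᶠ n in atTop, F n < -(Real.sqrt ((b : ℝ) ^ m - 1) / (b : ℝ) ^ m) + ε) := by
  classical
  refine ⟨2, le_rfl, Pool.Agent.W_MP_b5ad3e_nt.aa, Pool.Agent.W_MP_b5ad3e_nt.aa_strictMono,
    Pool.Agent.W_MP_b5ad3e_nt.aa_pos, Pool.Agent.W_MP_b5ad3e_nt.growth_aa,
    Pool.Agent.W_MP_b5ad3e_nt.dd, Pool.Agent.W_MP_b5ad3e_nt.dd_spec,
    Pool.Agent.W_MP_b5ad3e_nt.xi, ?_, ?_⟩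
  · rfl
  · intro m hm k hk F hF ε hε
    have hF' : ∀ n : ℕ, F n = Pool.Agent.W_MP_b5ad3e_nt.Dl m k n
        / Pool.Agent.W_MP_b5ad3e_nt.Phi n := by
      intro n
      rw [hF n]
      unfold Pool.Agent.W_MP_b5ad3e_nt.Dl Pool.Agent.W_MP_b5ad3e_nt.Phi
        Pool.Agent.W_MP_b5ad3e_nt.cnt
      have hcard : (Finset.range n).filter
          (fun i : ℕ => ⌊Pool.Agent.W_MP_b5ad3e_nt.xi * (((2:ℕ) : ℝ) ^ m) ^ (i + 1)⌋
            % (((2:ℕ) : ℤ) ^ m) = (k : ℤ))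
          = (Finset.range n).filter
            (fun i => Pool.Agent.W_MP_b5ad3e_nt.V (m * (i + 1)) % 2 ^ m = k) := by
        apply Finset.filter_congr
        intro i _
        have e : (((2:ℕ) : ℝ) ^ m) ^ (i + 1) = (2:ℝ) ^ (m * (i + 1)) := by
          rw [← pow_mul]
          norm_num
        rw [e, Pool.Agent.W_MP_b5ad3e_nt.floor_xi]
        norm_cast
      rw [hcard]
      norm_num
    have hup := Pool.Agent.W_MP_b5ad3e_nt.upper m k hm hk ε hε
    have hfreq := fun b => Pool.Agent.W_MP_b5ad3e_nt.freq m k b hm hk ε hε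
    have hC : Real.sqrt (((2:ℕ) : ℝ) ^ m - 1) / ((2:ℕ) : ℝ) ^ m
        = Pool.Agent.W_MP_b5ad3e_nt.CC m := by
      unfold Pool.Agent.W_MP_b5ad3e_nt.CC
      norm_num
    rw [hC]
    have hpos : ∀ n : ℕ, 16 ≤ n → 0 < Pool.Agent.W_MP_b5ad3e_nt.Phi n := by
      intro n hn
      have hn16 : (16:ℝ) ≤ n := by exact_mod_cast hn
      exact lt_of_lt_of_le (Real.sqrt_pos.2 (by linarith))
        (Pool.Agent.W_MP_b5ad3e_nt.Phi_ge_sqrt hn16)
    refine ⟨?_, ?_, ?_, ?_⟩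
    · filter_upwards [hup, eventually_ge_atTop 16] with n h1 h2
      rw [hF' n, div_lt_iff₀ (hpos n h2)]
      exact (le_abs_self _).trans_lt h1
    · rw [frequently_atTop]
      intro N0
      obtain ⟨n, h1, h2, h3⟩ := hfreq true N0
      refine ⟨n, h1, ?_⟩
      rw [hF' n, lt_div_iff₀ (hpos n h2)]
      simpa [Pool.Agent.W_MP_b5ad3e_nt.sg] using h3
    · filter_upwards [hup, eventually_ge_atTop 16] with n h1 h2
      rw [hF' n, lt_div_iff₀ (hpos n h2)]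
      have h3 := neg_abs_le (Pool.Agent.W_MP_b5ad3e_nt.Dl m k n)
      linarith
    · rw [frequently_atTop]
      intro N0
      obtain ⟨n, h1, h2, h3⟩ := hfreq false N0
      refine ⟨n, h1, ?_⟩
      rw [hF' n, div_lt_iff₀ (hpos n h2)]
      simp only [Pool.Agent.W_MP_b5ad3e_nt.sg, Bool.false_eq_true, if_false] at h3
      push_cast at h3
      linarith

end Pool.Agent.S18225
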