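import Pool.Statements.S19543
import Pool.Agent.W_MP_a45265_h99.Final

set_option autoImplicit false
open Pool Pool.MP_a45265_pr

namespace Pool.Agent.S19543

/-- The fraction of n×n matrices with entries ±1 that have determinant zero, divided by n²·2^(-n), tends to 2 as n tends to infinity. -/
theorem result :
    Filter.Tendsto
      (fun n : ℕ =>
        ((Finset.univ.filter (fun B : Fin n → Fin n → Bool =>
            (Matrix.of (fun i j => if B i j then (1 : ℤ) else -1)).det = 0)).card : ℝ)
          / (2 : ℝ) ^ (n ^ 2) / ((n : ℝ) ^ 2 / (2 : ℝ) ^ n))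
      Filter.atTop (nhds 2) := by
  exact Pool.Agent.W_MP_a45265_h99.main_tendsto

end Pool.Agent.S19543
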